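import Pool.Agent.Lib.MP_30b5b4_an.S.G1
import Pool.Agent.Lib.MP_30b5b4_an.Amp

/-! Sharpened systems and the slot construction. -/

open scoped CStarAlgebra ComplexOrder Topology
open Filter

set_option linter.unusedSectionVars false
set_option linter.style.haveILetI false
set_option linter.unusedVariables false
set_option linter.unusedSimpArgs false

namespace Pool.Agent.Lib.MP_30b5b4_an

universe u v

variable {B : Type u} [CStarAlgebra B] [PartialOrder B] [StarOrderedRing B] {K : Type} [Fintype K]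
  {Φ Φ' : K → K → B} {w w' e : B} {S : Set B}

theorem Sys.sharp' (h : Sys Φ w) (o : K) : ∃ (Ψ : K → K → B) (u ν μ D p p₀ : B), Sys Ψ u ∧
    (∀ S : Set B, (∀ l m, Φ l m ∈ Cn S) → (∀ l m, Ψ l m ∈ Cn S) ∧ ν ∈ Cn S ∧ μ ∈ Cn S ∧ D ∈ Cn S ∧
      p ∈ Cn S ∧ p₀ ∈ Cn S) ∧ star ν = ν ∧ star μ = μ ∧ ν * ν + μ * μ = 1 ∧ u * ν = ν ∧
    (∀ l m, Commute ν (Ψ l m)) ∧ Ψ o o * p = p ∧ p * p₀ = p₀ ∧ star p₀ = p₀ ∧ star D = D ∧
    (∀ V, Φ o o * V = V → p₀ * V = V) ∧ D * μ = μ ∧ (∃ k, D = (1 - w) * k) ∧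
    ‖ν‖ ≤ 1 ∧ ‖μ‖ ≤ 1 ∧ ‖p‖ ≤ 1 := by
  have w0 := h.w0.isSelfAdjoint
  have q0 := (h.diag o).1.isSelfAdjoint
  have g2 := Gf_cont (η := 1 / 2) (by norm_num)
  have g4 := Gf_cont (η := 1 / 4) (by norm_num)
  have f0 : ∀ t : ℝ, t ≤ 1 / 2 → rp (1 / 4) 2 t = 0 := fun t ht =>
    cl_of_nonpos (by push_cast; linarith)
  have f1 : ∀ t, 0 ≤ 1 - rp (1 / 4) 2 t * rp (1 / 4) 2 t := fun t =>
    sub_nonneg.2 (mul_le_one₀ (cl_le_one _) (cl_nonneg _) (cl_le_one _))
  have hu : ∀ {x : B}, IsSelfAdjoint x →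
      cfc (Gf (1 / 2)) x * x * cfc (rp (1 / 4) 2) x = cfc (rp (1 / 4) 2) x := fun {x} hx => by
    have := congrArg star (G1.unit_half hx (rp_cont (1 / 4) 2) f0)
    rwa [star_mul, star_mul, IsSelfAdjoint.cfc.star_eq, IsSelfAdjoint.cfc.star_eq, hx.star_eq,
      ← ((Commute.refl x).cfc_real _).eq] at this
  refine ⟨_, _, cfc (rp (1 / 4) 2) w, cfc (fun t => √(1 - rp (1 / 4) 2 t * rp (1 / 4) 2 t)) w,
    cfc (fun t => (1 - t) * Gf (1 / 4) (1 - t)) w, cfc (rp (1 / 4) 2) (Φ o o),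
    cfc (rp (1 / 4) 3) (Φ o o), G1.scale h (δ := 1 / 2) (by norm_num), fun S hS => ?_,
    IsSelfAdjoint.cfc.star_eq, IsSelfAdjoint.cfc.star_eq, ?_, hu w0, fun l m => ?_, ?_,
    (rp_tier2 _ (by omega) _).1, IsSelfAdjoint.cfc.star_eq, IsSelfAdjoint.cfc.star_eq,
    fun V hV => cfc_mul_eq_self q0 hV (rp_cont _ _) (cl_of_one_le (by norm_num)), ?_,
    ⟨cfc (fun t => Gf (1 / 4) (1 - t)) w, ?_⟩,
    norm_le_one_of (rp_mem _ _ _).1 (rp_mem _ _ _).2, ?_,
    norm_le_one_of (rp_mem _ _ _).1 (rp_mem _ _ _).2⟩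
  · have m := fun f => cfc_mem_cl (Cn_closed S) f (h.mem hS)
    have m' := fun f => cfc_mem_cl (Cn_closed S) f (hS o o)
    exact ⟨fun l k => mul_mem (m _) (hS l k), m _, m _, m _, m' _, m' _⟩
  · rw [cfc_mul' (by fun_prop) (by fun_prop), cfc_mul' (by fun_prop) (by fun_prop),
      ← cfc_add _ _ _ (by fun_prop) (by fun_prop), ← cfc_const_one ℝ w w0]
    congr 1; funext t
    rw [Real.mul_self_sqrt (f1 t)]; ring
  · exact (((Commute.refl w).cfc_real _).symm.cfc_real _).mul_right ((h.comm l m).cfc_real _)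
  · rw [cfc_semiconj w0 q0 (h.mul o o o).symm g2, ← ((Commute.refl _).cfc_real _).eq, hu q0]
  · rw [cfc_mul' (by fun_prop) (by fun_prop)]
    congr 1; funext t
    rcases le_total t (3 / 4) with ht | ht
    · rw [Gf, max_eq_left (by linarith), mul_inv_cancel₀ (by linarith), one_mul]
    · rw [rp, cl_of_one_le (by push_cast; linarith)]; simp
  · rw [← cfc_mul' (by fun_prop) (by fun_prop), cfc_sub _ _ w, cfc_const_one ℝ w, cfc_id' ℝ w]
  · exact norm_le_one_of (cfc_nonneg fun _ _ => Real.sqrt_nonneg _) (cfc_le_one _ _ fun t _ =>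
      Real.sqrt_le_one.2 (sub_le_self _ (mul_self_nonneg _)))

theorem slot_alg' {I : Type} [Fintype I] {R : ℕ} {Ψ : I × Fin R → I × Fin R → B} {u ν μ p : B}
    (h : Sys Ψ u) (o : I × Fin R) (he : e ∈ S) (m1 : ∀ l m, Ψ l m ∈ Cn S) (m2 : ν ∈ Cn S)
    (m3 : μ ∈ Cn S) (h1 : star ν = ν) (h2 : star μ = μ) (h3 : ν * ν + μ * μ = 1) (h4 : u * ν = ν)
    (h5 : ∀ l m, Commute ν (Ψ l m)) (h6 : Ψ o o * p = p) (h7 : Dom S e μ p R) :
    ∃ (c : I → B) (x : Option I → B) (γ : B), Slot e c x γ ∧ (∀ l, c l ∈ Cn S) ∧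
      ∀ s, x s ∈ Cn S := by
  classical
  obtain ⟨V, V1, V2, V3⟩ := h7
  let E : I → I → B := fun l m => ∑ r, Ψ (l, r) (m, r)
  have E0 : ∀ l m, star (E l m) = E m l := fun l m => by simp only [E, star_sum, h.st]
  have k1 : ∀ l r z, E l l * Ψ (l, r) z = u * Ψ (l, r) z := fun l r z => by
    rw [Finset.sum_mul, Finset.sum_eq_single r (fun r' _ hr => h.zero _ _ _ _ (by simpa using hr))
      (by simp), h.mul]
  have E1 : ∀ l m m', E l m * E m m' = u * E l m' := fun l m m' => by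
    simp only [E]
    rw [Finset.sum_mul, Finset.mul_sum]
    refine Finset.sum_congr rfl fun r _ => ?_
    rw [Finset.mul_sum, Finset.sum_eq_single r
      (fun r' _ hr => h.zero _ _ _ _ (by simpa using hr.symm)) (by simp), h.mul]
  have E2 : ∀ l m l' m', m ≠ l' → E l m * E l' m' = 0 := fun l m l' m' hm => by
    simp only [E, Finset.sum_mul, Finset.mul_sum]
    exact Finset.sum_eq_zero fun _ _ => Finset.sum_eq_zero fun _ _ =>
      h.zero _ _ _ _ fun h => hm (congrArg Prod.fst h)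
  have E3 : ∑ l, E l l = u := by rw [← h.sum, Fintype.sum_prod_type]
  have E4 : ∀ l m, Commute ν (E l m) := fun l m => Commute.sum_right _ _ _ fun r _ => h5 _ _
  have n1 : ν * u = ν := by rw [← (G1.comm_w h fun l m => (h5 l m).symm).eq, h4]
  have v1 : ∀ t, Ψ o o * V t = V t := fun t => by rw [← V3 t, ← mul_assoc, h6]
  have v2 : ∀ t, u * V t = V t := fun t => by
    conv_lhs => rw [← v1 t, ← mul_assoc, ← h.mul o o o, mul_assoc, v1, v1]
  have s2 : ∀ l, u * E o.1 o.1 * (ν * E o.1 l) = ν * E o.1 l := fun l => by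
    rw [mul_assoc, ← mul_assoc (E _ _), ← (E4 _ _).eq, mul_assoc, E1, ← mul_assoc ν, n1,
      ← mul_assoc, h4]
  refine ⟨fun l => E l o.1, fun s => s.elim (∑ r, Ψ (o.1, r) o * (V r * μ)) fun l => ν * E o.1 l,
    u * E o.1 o.1, ⟨fun l => by rw [E0, E1], fun l l' hl => by rw [E0, E2 _ _ _ _ hl], ?_, ?_,
      fun l => ?_⟩, fun l => sum_mem fun r _ => m1 _ _, ?_⟩
  · rintro (_ | l)
    · simp only [Option.elim_none, Finset.mul_sum]
      refine Finset.sum_congr rfl fun r _ => ?_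
      rw [mul_assoc, ← mul_assoc (E _ _), k1, (h.comm _ _).eq, mul_assoc, ← mul_assoc u (V r), v2,
        ← mul_assoc, (h.comm _ _).eq, mul_assoc, ← mul_assoc u, v2]
    · exact s2 l
  · have a1 : ∑ l, star (ν * E o.1 l) * (ν * E o.1 l) = ν * ν := by
      have : ∀ l, star (ν * E o.1 l) * (ν * E o.1 l) = ν * ν * E l l := fun l => by
        rw [star_mul, E0, h1, ← (E4 _ _).eq, mul_assoc, ← mul_assoc (E _ _), ← (E4 _ _).eq,
          mul_assoc, E1, ← mul_assoc ν u, n1, mul_assoc]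
      simp only [this, ← Finset.mul_sum, E3, mul_assoc, n1]
    have a2 : star (∑ r, Ψ (o.1, r) o * (V r * μ)) * ∑ r, Ψ (o.1, r) o * (V r * μ) =
        μ * ((∑ r, star (V r) * V r) * μ) := by
      rw [star_sum, Finset.sum_mul, Finset.sum_mul, Finset.mul_sum]
      refine Finset.sum_congr rfl fun r _ => ?_
      rw [star_mul, h.st, mul_assoc, Finset.mul_sum, Finset.sum_eq_single r (fun r' _ hr => by
        rw [← mul_assoc, h.zero _ _ _ _ (by simpa using hr.symm), zero_mul]) (by simp),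
        ← mul_assoc (Ψ _ _), h.mul, mul_assoc, ← mul_assoc (Ψ o o), v1, ← mul_assoc u, v2,
        star_mul, h2]
      simp only [mul_assoc]
    rw [Fintype.sum_option]
    simp only [Option.elim_none, Option.elim_some]
    rw [a1, a2, add_mul, mul_assoc, mul_assoc, (Cn_comm m3 he).eq, V2, ← (Cn_comm m3 he).eq,
      ← mul_assoc, ← add_mul, add_comm, h3, one_mul]
  · simp only [Option.elim_some]
    rw [E0, E1, mul_assoc, ← mul_assoc (E _ _), ← ((Commute.sum_right _ _ _ fun r _ =>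
      h.comm _ _ : Commute u (E o.1 l))).eq, mul_assoc, E1, ← mul_assoc, n1, ← mul_assoc, n1]
  · rintro (_ | l)
    · exact sum_mem fun r _ => mul_mem (m1 _ _) (mul_mem (V1 r) m3)
    · exact mul_mem m2 (sum_mem fun r _ => m1 _ _)

end Pool.Agent.Lib.MP_30b5b4_an
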