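import Pool.Agent.Lib.MP_30b5b4_an.S.G1

/-! Order zero systems: non-vanishing, orthogonal full elements, stacking. -/

open scoped CStarAlgebra ComplexOrder Topology
open Filter

set_option linter.unusedSectionVars false
set_option linter.style.haveILetI false
set_option linter.unusedVariables false
set_option linter.unusedSimpArgs false

namespace Pool.Agent.Lib.MP_30b5b4_an

universe u v

variable {B : Type u} [CStarAlgebra B] [PartialOrder B] [StarOrderedRing B] {K : Type} [Fintype K]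
  {Φ Φ' : K → K → B} {w w' e : B} {S : Set B}

lemma Dom.of_card {T : Type*} [Fintype T] {z p : B} {R : ℕ} (hR : Fintype.card T = R) (V : T → B)
    (h1 : ∀ t, V t ∈ Cn S) (h2 : (∑ t, star (V t) * V t) * (e * z) = e * z)
    (h3 : ∀ t, p * V t = V t) : Dom S e z p R := by
  let σ : Fin R ≃ T := (Fintype.equivFinOfCardEq hR).symm
  refine ⟨fun t => V (σ t), fun t => h1 _, ?_, fun t => h3 _⟩
  rw [σ.sum_comp fun t => star (V t) * V t, h2]

lemma rot_fix_l (hw : IsSelfAdjoint w) (hw' : IsSelfAdjoint w') (hc : Commute w w') {Y : B}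
    (hY : w * Y = Y) :
    (1 - (1 - cfc (rp (1 / 4) 2) w) * (1 - cfc (rp (1 / 4) 2) w')) * Y = Y := by
  have c1 : Commute (1 - cfc (rp (1 / 4) 2) w) (1 - cfc (rp (1 / 4) 2) w') :=
    (Commute.one_left _).sub_left ((Commute.one_right _).sub_right
      ((hc.cfc_real _).symm.cfc_real _).symm)
  have c2 : cfc (rp (1 / 4) 2) w * Y = Y :=
    cfc_mul_eq_self hw hY (rp_cont _ _) (cl_of_one_le (by norm_num))
  rw [c1.eq, sub_mul, one_mul, mul_assoc, sub_mul 1 _ Y, one_mul, c2, sub_self, mul_zero, sub_zero]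

lemma rot_fix_r (hw' : IsSelfAdjoint w') {Y : B} (hY : w' * Y = Y) :
    (1 - (1 - cfc (rp (1 / 4) 2) w) * (1 - cfc (rp (1 / 4) 2) w')) * Y = Y := by
  have c2 : cfc (rp (1 / 4) 2) w' * Y = Y :=
    cfc_mul_eq_self hw' hY (rp_cont _ _) (cl_of_one_le (by norm_num))
  rw [sub_mul, one_mul, mul_assoc, sub_mul 1 _ Y, one_mul, c2, sub_self, mul_zero, sub_zero]

lemma Sys.nil : Sys (fun _ _ : K => (0 : B)) 0 :=
  ⟨fun _ _ => star_zero _, fun _ _ _ => by simp, fun _ _ _ _ _ => by simp, by simp, le_rfl,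
    zero_le_one⟩

lemma Sys.of_fix (c : K → B) {γ x : B} (h1 : ∀ l, star (c l) * c l = γ)
    (h2 : ∀ l l', l ≠ l' → star (c l) * c l' = 0) (hx : γ * x = x) (o : K) :
    (∑ l, c l * star (c l)) * (c o * x) = c o * x := by
  rw [Finset.sum_mul, Finset.sum_eq_single o (fun l _ hl => by
    rw [mul_assoc, ← mul_assoc (star _), h2 l o hl, zero_mul, mul_zero]) (by simp), mul_assoc,
    ← mul_assoc (star _), h1, hx]

/-- One level of division sees a given non-zero element. -/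
lemma DivP.nv1 {κ : Type} [Fintype κ] (hd : DivP κ e) {n : ℕ} (hn : 0 < n) (hS : S.Finite) {y : B}
    (y0 : y ∈ S) (y1 : y ≠ 0) (y2 : e * y = y) : ∃ (Φ : Fin n → Fin n → B) (w : B), Sys Φ w ∧
      (∀ l m, Φ l m ∈ Cn S) ∧ ∃ z, y * z ≠ 0 ∧ w * (y * z) = y * z := by
  obtain ⟨c, γ, x, mc, mx, h1, h2, h3, h4, h5⟩ := hd (fun _ => n) (fun _ => hn) S hS
  have h6 : ∃ k t, x k t * y ≠ 0 := by
    by_contra h
    push Not at h
    apply y1
    rw [← y2, ← h5, mul_assoc, y2, Finset.sum_mul]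
    refine Finset.sum_eq_zero fun k _ => ?_
    rw [Finset.sum_mul]
    exact Finset.sum_eq_zero fun t _ => by rw [mul_assoc, h, mul_zero]
  obtain ⟨k, t, h6⟩ := h6
  have h7 : y * (c k ⟨0, hn⟩ * x k t) = c k ⟨0, hn⟩ * (x k t * y) := by
    rw [← (Cn_comm (mul_mem (mc k ⟨0, hn⟩) (mx k t)) y0).eq, mul_assoc]
  have h8 : γ k * (x k t * y) = x k t * y := by rw [← mul_assoc, h4]
  refine ⟨_, _, Sys.of (c k) (h1 k) (h2 k) (h3 k), fun l m => mul_mem (mc k l) (star_mem (mc k m)),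
    c k ⟨0, hn⟩ * x k t, fun h => h6 ?_, ?_⟩
  · rw [← h8, ← h1 k ⟨0, hn⟩, mul_assoc, ← h7, h, mul_zero]
  · rw [h7]
    exact Sys.of_fix (c k) (h1 k) (h2 k) h8 _

lemma Sys.comm_w (h : Sys Φ w) (h' : Sys Φ' w') (hc : ∀ l m l' m', Commute (Φ l m) (Φ' l' m')) :
    Commute w w' := by
  rw [← h.sum, ← h'.sum]
  exact Commute.sum_left _ _ _ fun l _ => Commute.sum_right _ _ _ fun l' _ => hc _ _ _ _

lemma Sys.spread (h : Sys Φ w) {y z : B} (hy : ∀ l m, Commute (Φ l m) y) (h1 : y * z ≠ 0)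
    (h2 : w * (y * z) = y * z) (l : K) : ∃ z, y * z ≠ 0 ∧ Φ l l * (y * z) = y * z := by
  have h3 : ∃ m, Φ m m * (y * z) ≠ 0 := by
    by_contra h3
    push Not at h3
    apply h1
    rw [← h2, ← h.sum, Finset.sum_mul]
    exact Finset.sum_eq_zero fun m _ => h3 m
  obtain ⟨m, h3⟩ := h3
  have h4 : y * (Φ l m * z) = Φ l m * (y * z) := by rw [← mul_assoc, ← (hy l m).eq, mul_assoc]
  have h5 : ∀ k, Φ k l * (Φ l m * (y * z)) = Φ k m * (y * z) := fun k => by
    rw [← mul_assoc, h.mul, (h.comm k m).eq, mul_assoc, h2]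
  refine ⟨Φ l m * z, fun h6 => h3 ?_, by rw [h4, h5]⟩
  rw [← h5, ← h4, h6, mul_zero]

theorem DivP.nv {κ : Type} [Fintype κ] (hd : DivP κ e) {n : ℕ} (hn : 0 < n) (hS : S.Finite)
    (he : e ∈ S) {β : Type} [Finite β] (y : β → B) (y0 : ∀ b, y b ∈ S) (y1 : ∀ b, y b ≠ 0)
    (y2 : ∀ b, e * y b = y b) : ∃ (Φ : Fin n → Fin n → B) (w : B), Sys Φ w ∧
      (∀ l m, Φ l m ∈ Cn S) ∧ ∀ b l, ∃ z, y b * z ≠ 0 ∧ Φ l l * (y b * z) = y b * z := by
  classical
  have key : ∀ s : Finset β, ∃ (Φ : Fin n → Fin n → B) (w : B), Sys Φ w ∧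
      (∀ l m, Φ l m ∈ Cn S) ∧ ∀ b ∈ s, ∃ z, y b * z ≠ 0 ∧ w * (y b * z) = y b * z := by
    intro s
    induction s using Finset.induction_on with
    | empty => exact ⟨_, _, Sys.nil, fun _ _ => zero_mem _, by simp⟩
    | insert a s ha ih =>
      obtain ⟨Φ, w, h, m, hz⟩ := ih
      obtain ⟨Φ', w', h', m', z, z1, z2⟩ := hd.nv1 hn
        (hS.union (Set.finite_range fun p : Fin n × Fin n => Φ p.1 p.2)) (Or.inl (y0 a)) (y1 a)
        (y2 a)
      have hc : ∀ l m l' m', Commute (Φ l m) (Φ' l' m') := fun l k l' k' =>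
        (Cn_comm (m' l' k') (Or.inr ⟨(l, k), rfl⟩)).symm
      obtain ⟨Ψ, hΨ, mΨ⟩ := h.rot h' hc
      refine ⟨Ψ, _, hΨ, mΨ S m fun l k => Cn_mono Set.subset_union_left (m' l k), fun b hb => ?_⟩
      rcases Finset.mem_insert.1 hb with rfl | hb
      · exact ⟨z, z1, rot_fix_r h'.w0.isSelfAdjoint z2⟩
      · obtain ⟨z, z1, z2⟩ := hz b hb
        exact ⟨z, z1, rot_fix_l h.w0.isSelfAdjoint h'.w0.isSelfAdjoint (h.comm_w h' hc) z2⟩
  haveI := Fintype.ofFinite β
  obtain ⟨Φ, w, h, m, hz⟩ := key Finset.univ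
  refine ⟨Φ, w, h, m, fun b l => ?_⟩
  obtain ⟨z, z1, z2⟩ := hz b (Finset.mem_univ _)
  exact h.spread (fun l k => Cn_comm (m l k) (y0 b)) z1 z2 l

lemma Dom.comp {S' : Set B} (hS : S ⊆ S') (he : e ∈ S) {p q : B} (hq : q ∈ S') {R C : ℕ}
    (h : Dom S e 1 q R) (h' : Dom S' e 1 p C) : Dom S e 1 (p * q) (C * R) := by
  obtain ⟨V, v1, v2, v3⟩ := h
  obtain ⟨W, w1, w2, w3⟩ := h'
  rw [mul_one] at v2 w2
  refine Dom.of_card (T := Fin C × Fin R) (by simp) (fun t => W t.1 * V t.2)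
    (fun t => mul_mem (Cn_mono hS (w1 _)) (v1 _)) ?_ fun t => ?_
  · rw [mul_one, Fintype.sum_prod_type_right]
    conv_rhs => rw [← v2]
    rw [Finset.sum_mul, Finset.sum_mul]
    refine Finset.sum_congr rfl fun t _ => ?_
    have : ∑ s, star (W s * V t) * (W s * V t) = star (V t) * (∑ s, star (W s) * W s) * V t := by
      rw [Finset.mul_sum, Finset.sum_mul]
      exact Finset.sum_congr rfl fun s _ => by rw [star_mul]; simp only [mul_assoc]
    rw [this, mul_assoc, mul_assoc, (Cn_comm (v1 t) he).eq, ← mul_assoc _ e, w2,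
      ← (Cn_comm (v1 t) he).eq, mul_assoc]
  · rw [mul_assoc, ← mul_assoc q, ← (Cn_comm (w1 t.1) hq).eq, mul_assoc, v3, ← mul_assoc, w3]

lemma Full2.cube {C : ℕ} (h : Full2 e C) (hS : S.Finite) (he : e ∈ S) (n : ℕ) :
    ∃ q : (Fin n → Bool) → B, (∀ i, q i ∈ Cn S ∧ 0 ≤ q i ∧ q i ≤ 1) ∧
      (∀ i k, i ≠ k → q i * q k = 0) ∧ ∀ i, Dom S e 1 (q i) (C ^ n) := by
  induction n with
  | zero =>
    refine ⟨fun _ => 1, fun _ => ⟨one_mem _, zero_le_one, le_rfl⟩,
      fun i k h => (h (Subsingleton.elim _ _)).elim, fun _ => ?_⟩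
    exact Dom.of_card (T := Unit) (by simp) (fun _ => 1) (fun _ => one_mem _) (by simp) (by simp)
  | succ n ih =>
    obtain ⟨q, q1, q2, q3⟩ := ih
    obtain ⟨p, p1, p2, p3⟩ := h (S ∪ Set.range q) (hS.union (Set.finite_range _)) (Or.inl he)
    have hc : ∀ b i, Commute (p b) (q i) := fun b i => Cn_comm (p1 b).1 (Or.inr ⟨i, rfl⟩)
    have p4 : p false * p true = 0 := by
      rw [← (p1 false).2.1.star_eq, ← (p1 true).2.1.star_eq, ← star_mul, p2, star_zero]
    refine ⟨fun i => p (i 0) * q (Fin.tail i), fun i => ⟨mul_mem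
      (Cn_mono Set.subset_union_left (p1 _).1) (q1 _).1, mul_unit (p1 _).2.1 (p1 _).2.2
        (q1 _).2.1 (q1 _).2.2 (hc _ _)⟩, fun i k hik => ?_, fun i => ?_⟩
    · change p (i 0) * q (Fin.tail i) * (p (k 0) * q (Fin.tail k)) = 0
      rw [(hc (k 0) (Fin.tail i)).symm.mul_mul_mul_comm]
      by_cases h0 : i 0 = k 0
      · rw [q2 _ _ fun ht => hik (by rw [← Fin.cons_self_tail i, ← Fin.cons_self_tail k, h0, ht]),
          mul_zero]
      · have : p (i 0) * p (k 0) = 0 := by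
          revert h0
          cases i 0 <;> cases k 0 <;> simp [p2, p4]
        rw [this, zero_mul]
    · rw [pow_succ']
      exact Dom.comp Set.subset_union_left he (Set.mem_union_right _ (Set.mem_range_self _))
        (q3 _) (p3 _)

theorem Full2.many {C : ℕ} (h : Full2 e C) (J : Type) [Fintype J] (hS : S.Finite) (he : e ∈ S) :
    ∃ p : J → B, (∀ i, p i ∈ Cn S ∧ 0 ≤ p i ∧ p i ≤ 1) ∧ (∀ i k, i ≠ k → p i * p k = 0) ∧
      ∀ i, Dom S e 1 (p i) (C ^ Fintype.card J) := by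
  obtain ⟨q, q1, q2, q3⟩ := h.cube hS he (Fintype.card J)
  let σ := Fintype.equivFin J
  refine ⟨fun i => q fun t => decide (t = σ i), fun i => q1 _, fun i k hik => q2 _ _ fun h => ?_,
    fun i => q3 _⟩
  have := congrFun h (σ i)
  simp only [decide_true, true_eq_decide_iff] at this
  exact hik (σ.injective this)

theorem DivP.weak {κ : Type} [Fintype κ] (hd : DivP κ e) {C : ℕ} (h : Full2 e C) (K : Type)
    [Fintype K] [Nonempty K] :
    Weak K e (Fintype.card κ * (4 * Fintype.card K) * C ^ Fintype.card κ) := by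
  intro S hS he
  obtain ⟨p, p1, p2, p3⟩ := h.many κ hS he
  choose V v1 v2 v3 using p3
  obtain ⟨c, γ, x, mc, mx, h1, h2, h3, h4, h5⟩ := hd (fun _ => Fintype.card K)
    (fun _ => Fintype.card_pos) (S ∪ (Set.range p ∪
      Set.range fun a : κ × Fin (C ^ Fintype.card κ) => V a.1 a.2))
    (hS.union ((Set.finite_range _).union (Set.finite_range _)))
  let σ := Fintype.equivFin K
  have cp : ∀ {z}, z ∈ Cn (S ∪ (Set.range p ∪
      Set.range fun a : κ × Fin (C ^ Fintype.card κ) => V a.1 a.2)) → ∀ k, Commute z (p k) :=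
    fun hz k => Cn_comm hz (Or.inr (Or.inl ⟨k, rfl⟩))
  let d : K → B := fun l => ∑ k, c k (σ l) * p k
  have dd : ∀ l l', star (d l) * d l' = ∑ k, p k * (star (c k (σ l)) * c k (σ l')) * p k := by
    intro l l'
    rw [star_sum, Finset.sum_mul]
    refine Finset.sum_congr rfl fun k _ => ?_
    rw [Finset.mul_sum, Finset.sum_eq_single k (fun k' _ hk => ?_) (by simp), star_mul,
      (p1 k).2.1.star_eq]
    · simp only [mul_assoc]
    · rw [star_mul, (p1 k).2.1.star_eq, mul_assoc, ← mul_assoc (star _), ← mul_assoc,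
        ← (cp (mul_mem (star_mem (mc _ _)) (mc _ _)) k).eq, mul_assoc, p2 _ _ hk.symm, mul_zero]
  have d1 : ∀ l, star (d l) * d l = ∑ k, p k * γ k * p k := fun l => by simp only [dd, h1]
  have d2 : ∀ l l', l ≠ l' → star (d l) * d l' = 0 := fun l l' hl => by
    rw [dd]
    exact Finset.sum_eq_zero fun k _ => by
      rw [h2 k _ _ fun h => hl (σ.injective h), mul_zero, zero_mul]
  have d3 : ∑ k, p k * γ k * p k ≤ 1 := by
    refine (Finset.sum_le_sum (g := p) fun k _ => ?_).trans (le_one_of_norm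
      (Finset.sum_nonneg fun k _ => (p1 k).2.1) (sum_le_of_orth _ _ zero_le_one
        (fun k _ => (p1 k).2.1) (fun k _ k' _ => p2 k k')
        fun k _ => norm_le_one_of (p1 k).2.1 (p1 k).2.2))
    have := star_left_conjugate_le_conjugate (h3 k) (p k)
    rw [(p1 k).2.1.star_eq, mul_one] at this
    exact this.trans (mul_le_of_commute (p1 k).2.1 (p1 k).2.2 (Commute.refl _))
  have a1 : ∀ k t r, p k * (x k t * V k r) = x k t * V k r := fun k t r => by
    rw [← mul_assoc, ← (cp (mx k t) k).eq, mul_assoc, v3]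
  have a2 : ∀ k t r, (∑ k, p k * γ k * p k) * (x k t * V k r) = x k t * V k r := fun k t r => by
    rw [Finset.sum_mul, Finset.sum_eq_single k (fun k' _ hk => ?_) (by simp), mul_assoc, a1,
      mul_assoc, ← mul_assoc (γ k), h4, a1]
    rw [← a1, mul_assoc, ← mul_assoc (p k'), p2 _ _ hk, zero_mul, mul_zero]
  have md : ∀ l, d l ∈ Cn S := fun l => sum_mem fun k _ =>
    mul_mem (Cn_mono Set.subset_union_left (mc _ _)) (p1 k).1
  obtain ⟨o⟩ := ‹Nonempty K›
  refine ⟨_, _, Sys.of d d1 d2 d3, fun l m => mul_mem (md l) (star_mem (md m)),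
    Dom.of_card (T := (κ × Fin (4 * Fintype.card K)) × Fin (C ^ Fintype.card κ)) (by simp)
      (fun a => d o * (x a.1.1 a.1.2 * V a.1.1 a.2)) (fun a => mul_mem (md o)
        (mul_mem (Cn_mono Set.subset_union_left (mx _ _)) (v1 _ _))) ?_
      fun a => Sys.of_fix d d1 d2 (a2 _ _ _) o⟩
  have a3 : ∀ k t r, star (d o * (x k t * V k r)) * (d o * (x k t * V k r)) =
      star (x k t) * x k t * (star (V k r) * V k r) := fun k t r => by
    rw [star_mul, mul_assoc, ← mul_assoc (star (d o)), d1, a2, star_mul, mul_assoc,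
      ← mul_assoc (star (x k t)), ← mul_assoc, ← (Cn_comm' (mul_mem (star_mem (mx k t)) (mx k t))
        (Or.inr (Or.inr ⟨(k, r), rfl⟩))).eq, mul_assoc]
  simp only [mul_one] at v2 ⊢
  simp only [a3, Fintype.sum_prod_type, ← Finset.mul_sum]
  conv_rhs => rw [← h5]
  simp only [Finset.sum_mul, mul_assoc]
  refine Finset.sum_congr rfl fun k _ => Finset.sum_congr rfl fun t _ => ?_
  have := v2 k
  simp only [Finset.sum_mul, mul_assoc] at this
  rw [this]

lemma gram_mul {T : Type*} [Fintype T] (X Y : T → B) (g g' : B) :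
    ∑ t, star (X t * g) * (Y t * g') = star g * (∑ t, star (X t) * Y t) * g' := by
  rw [Finset.mul_sum, Finset.sum_mul]
  exact Finset.sum_congr rfl fun s _ => by rw [star_mul]; simp only [mul_assoc]

lemma one_sub_rp (hw : IsSelfAdjoint w) :
    (1 - cfc (rp (1 / 4) 3) w) * (1 - cfc (rp (1 / 4) 2) w) = 1 - cfc (rp (1 / 4) 2) w ∧
      ∃ k, 1 - cfc (rp (1 / 4) 2) w = (1 - w) * k := by
  constructor
  · have : cfc (rp (1 / 4) 3) w * cfc (rp (1 / 4) 2) w = cfc (rp (1 / 4) 3) w := by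
      rw [cfc_mul' (rp_cont _ _) (rp_cont _ _)]
      congr 1; funext s
      rw [mul_comm]; exact cl_tier (by norm_num)
    rw [sub_mul, one_mul, mul_sub, mul_one, this, sub_self, sub_zero]
  · have g1 := Gf_cont (η := 1 / 4) (by norm_num)
    have e1 : ∀ f : ℝ → ℝ, Continuous f → 1 - cfc f w = cfc (fun s => 1 - f s) w := fun f hf => by
      rw [cfc_sub _ _ w, cfc_const_one ℝ w]
    refine ⟨cfc (fun s => Gf (1 / 4) (1 - s) * (1 - rp (1 / 4) 2 s)) w, ?_⟩
    conv_rhs => enter [1, 2]; rw [← cfc_id' ℝ w]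
    rw [e1 _ (rp_cont _ _), e1 _ continuous_id', cfc_mul' (by fun_prop) (by fun_prop)]
    congr 1; funext s
    rcases le_total s (3 / 4) with h | h
    · rw [Gf, max_eq_left (by linarith), ← mul_assoc, mul_inv_cancel₀ (by linarith), one_mul]
    · rw [rp, cl_of_one_le (by push_cast; linarith), sub_self, mul_zero, mul_zero]

lemma Weak.stack' {C : ℕ} (h : Weak K e C) (hS : S.Finite) (he : e ∈ S) (L : ℕ) :
    ∃ (Φ : K → K → B) (w : B) (V : Fin C → Fin L → B), Sys Φ w ∧ (∀ l m, Φ l m ∈ Cn S) ∧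
      SubF S e (fun _ => 1 - w) (fun _ => w) V := by
  induction L with
  | zero =>
    exact ⟨_, _, fun _ _ => 0, Sys.nil, fun _ _ => zero_mem _, fun _ _ => zero_mem _,
      fun i => i.elim0, fun i => i.elim0, fun _ i => i.elim0⟩
  | succ L ih =>
    obtain ⟨Φ, w, V, hΦ, m, hV⟩ := ih
    obtain ⟨Φ', w', hΦ', m', V', v1, v2, v3⟩ := h (S ∪ ((Set.range fun p : K × K => Φ p.1 p.2) ∪
      Set.range fun p : Fin C × Fin L => V p.1 p.2))
      (hS.union ((Set.finite_range _).union (Set.finite_range _))) (Or.inl he)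
    rw [mul_one] at v2
    have hc : ∀ l m l' m', Commute (Φ l m) (Φ' l' m') := fun l k l' k' =>
      (Cn_comm (m' l' k') (Or.inr (Or.inl ⟨(l, k), rfl⟩))).symm
    obtain ⟨Ψ, hΨ, mΨ⟩ := hΦ.rot hΦ' hc
    have w0 := hΦ.w0.isSelfAdjoint
    have w0' := hΦ'.w0.isSelfAdjoint
    have ww := hΦ.comm_w hΦ' hc
    obtain ⟨b1, k, b2⟩ := one_sub_rp w0
    have b1' := (one_sub_rp w0').1
    have s1 : ∀ v : B, star (1 - cfc (rp (1 / 4) 3) v) = 1 - cfc (rp (1 / 4) 3) v := fun v => by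
      rw [star_sub, star_one, IsSelfAdjoint.cfc.star_eq]
    have mg : 1 - cfc (rp (1 / 4) 3) w ∈ Cn S :=
      sub_mem (one_mem _) (cfc_mem_cl (Cn_closed _) _ (hΦ.mem m))
    have mg' := sub_mem (one_mem _) (cfc_mem_cl (Cn_closed _) (rp (1 / 4) 3) (hΦ'.mem m'))
    have c1 : Commute (1 - cfc (rp (1 / 4) 2) w) (1 - cfc (rp (1 / 4) 3) w') :=
      (Commute.one_left _).sub_left ((Commute.one_right _).sub_right
        ((ww.cfc_real _).symm.cfc_real _).symm)
    have c2 : ∀ t, (1 - cfc (rp (1 / 4) 3) w') * V' t = 0 := fun t => by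
      rw [sub_mul, one_mul, cfc_mul_eq_self w0' (v3 t) (rp_cont _ _) (cl_of_one_le (by norm_num)),
        sub_self]
    have f1 := fun {Y} => rot_fix_l w0 w0' ww (Y := Y)
    have f2 := fun {Y} => rot_fix_r (w := w) w0' (Y := Y)
    have s2 := s1 w
    have s2' := s1 w'
    generalize 1 - cfc (rp (1 / 4) 3) w = g at *
    generalize 1 - cfc (rp (1 / 4) 3) w' = g' at *
    generalize 1 - cfc (rp (1 / 4) 2) w = a at *
    generalize 1 - cfc (rp (1 / 4) 2) w' = a' at *
    have u1 : g * (e * (a * a')) = e * (a * a') := by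
      rw [← mul_assoc, (Cn_comm mg he).eq, mul_assoc, ← mul_assoc g, b1]
    have u2 : g' * (e * (a * a')) = e * (a * a') := by
      rw [← mul_assoc, (Cn_comm mg' (Or.inl he)).eq, mul_assoc, ← mul_assoc g', ← c1.eq,
        mul_assoc, b1']
    have u3 : e * (a * a') = e * (1 - w) * (k * a') := by rw [b2]; simp only [mul_assoc]
    have x1 : ∀ i, ∑ t, star (V t i * g') * (V' t * g) = 0 := fun i =>
      Finset.sum_eq_zero fun t _ => by
        rw [star_mul, s2', (Cn_comm' mg' (Or.inr (Or.inr ⟨(t, i), rfl⟩))).eq, mul_assoc,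
          ← mul_assoc g', c2, zero_mul, mul_zero]
    have x2 : ∀ i, ∑ t, star (V' t * g) * (V t i * g') = 0 := fun i => by
      have := congrArg star (x1 i)
      simpa only [star_sum, star_mul (star _), star_star, star_zero] using this
    refine ⟨Ψ, _, fun t => Fin.cons (V' t * g) fun i => V t i * g', hΨ,
      mΨ S m fun l k => Cn_mono Set.subset_union_left (m' l k), fun t i => ?_, fun i => ?_,
      fun i i' hi => ?_, fun t i => ?_⟩
    · refine Fin.cases ?_ (fun i => ?_) i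
      · exact mul_mem (Cn_mono Set.subset_union_left (v1 t)) mg
      · exact mul_mem (hV.mem t i) (Cn_mono Set.subset_union_left mg')
    · rw [sub_sub_cancel]
      refine Fin.cases ?_ (fun i => ?_) i
      · simp only [Fin.cons_zero]
        rw [gram_mul, s2, mul_assoc, u1, mul_assoc, ← mul_assoc _ e, v2, u1]
      · simp only [Fin.cons_succ]
        rw [gram_mul, s2', mul_assoc, u2, mul_assoc, u3, ← mul_assoc _ (e * _), hV.diag, ← u3, u2]
    · rw [sub_sub_cancel]
      revert hi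
      refine Fin.cases ?_ (fun i => ?_) i <;> refine Fin.cases ?_ (fun i' => ?_) i' <;> intro hi
      · exact (hi rfl).elim
      · simp only [Fin.cons_zero, Fin.cons_succ]; rw [x2, zero_mul]
      · simp only [Fin.cons_zero, Fin.cons_succ]; rw [x1, zero_mul]
      · simp only [Fin.cons_succ]
        rw [gram_mul, mul_assoc, u2, mul_assoc, u3, ← mul_assoc _ (e * _),
          hV.off i i' fun h => hi (congrArg _ h), zero_mul, mul_zero]
    · refine Fin.cases ?_ (fun i => ?_) i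
      · simp only [Fin.cons_zero]; rw [← mul_assoc, f2 (v3 t)]
      · simp only [Fin.cons_succ]; rw [← mul_assoc, f1 (hV.rng t i)]

theorem Weak.stack {C : ℕ} (h : Weak K e C) (o : K) (L : ℕ) (hS : S.Finite) (he : e ∈ S) :
    ∃ (Φ : K → K → B) (w : B), Sys Φ w ∧ (∀ l m, Φ l m ∈ Cn S) ∧
      Sub S e (L • {1 - w}) ((C * Fintype.card K) • {Φ o o}) := by
  obtain ⟨Φ, w, V, hΦ, m, hV⟩ := h.stack' hS he L
  have g1 : ∀ i i', ∑ a : Fin C × K, star (Φ o a.2 * V a.1 i) * (Φ o a.2 * V a.1 i') =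
      ∑ t, star (V t i) * V t i' := fun i i' => by
    rw [Fintype.sum_prod_type]
    refine Finset.sum_congr rfl fun t _ => ?_
    have : ∀ l, star (Φ o l * V t i) * (Φ o l * V t i') = star (V t i) * (w * (Φ l l * V t i')) :=
      fun l => by rw [star_mul, hΦ.st, mul_assoc, ← mul_assoc (Φ l o), hΦ.mul, mul_assoc]
    simp only [this]
    rw [← Finset.mul_sum, ← Finset.mul_sum, ← Finset.sum_mul, hΦ.sum, hV.rng t i', hV.rng t i']
  refine ⟨Φ, w, hΦ, m, Fin L, Fin C × K, inferInstance, inferInstance, fun _ => 1 - w,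
    fun _ => Φ o o,
    fun a i => Φ o a.2 * V a.1 i, by simp [Multiset.nsmul_singleton],
    by simp [Multiset.nsmul_singleton], fun a i => mul_mem (m _ _) (hV.mem _ _),
    fun i => by rw [g1, hV.diag], fun i i' hi => by rw [g1, hV.off i i' hi], fun a i => ?_⟩
  rw [← mul_assoc, hΦ.mul, (hΦ.comm _ _).eq, mul_assoc, hV.rng]

end Pool.Agent.Lib.MP_30b5b4_an
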