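import Pool.Agent.Lib.MP_30b5b4_an.S.A2
import Pool.Agent.Lib.MP_30b5b4_an.S.G2

/-! Two orthogonal central elements. -/

open scoped CStarAlgebra ComplexOrder Topology
open Filter

set_option linter.unusedSectionVars false
set_option linter.style.haveILetI false
set_option linter.unusedVariables false
set_option linter.unusedSimpArgs false

namespace Pool.Agent.Lib.MP_30b5b4_an

universe u v

section
variable {B : Type u} [CStarAlgebra B] [PartialOrder B] [StarOrderedRing B] {S : Set B}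
  {e a a' : B} {M M' : Multiset B}

/-- `a` is bounded by a sum of squares whose ranges lie in the cores of the members of `M`. -/
def Cov (S : Set B) (a : B) (M : Multiset B) : Prop :=
  ∃ (T : Type) (_ : Fintype T) (X q : T → B), (∀ t, X t ∈ Cn S) ∧ (∀ t, q t * X t = X t) ∧
    a ≤ ∑ t, star (X t) * X t ∧ Finset.univ.val.map q = M

lemma Cov.zero : Cov S 0 0 :=
  ⟨Empty, inferInstance, Empty.elim, Empty.elim, fun t => t.elim, fun t => t.elim, by simp, by simp⟩

lemma Cov.mono (h : Cov S a M) (h' : a' ≤ a) : Cov S a' M := by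
  obtain ⟨T, _, X, q, h1, h2, h3, h4⟩ := h
  exact ⟨T, _, X, q, h1, h2, h'.trans h3, h4⟩

lemma Cov.add (h : Cov S a M) (h' : Cov S a' M') : Cov S (a + a') (M + M') := by
  obtain ⟨T, _, X, q, h1, h2, h3, rfl⟩ := h
  obtain ⟨T', _, X', q', h1', h2', h3', rfl⟩ := h'
  refine ⟨T ⊕ T', inferInstance, Sum.elim X X', Sum.elim q q', ?_, ?_, ?_, ?_⟩
  · rintro (t | t)
    exacts [h1 t, h1' t]
  · rintro (t | t)
    exacts [h2 t, h2' t]
  · rw [Fintype.sum_sum_type]
    exact add_le_add h3 h3'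
  · rw [← Finset.univ_disjSum_univ, Finset.val_disjSum, Multiset.disjSum, Multiset.map_add,
      Multiset.map_map, Multiset.map_map]
    rfl

lemma Cov.sum {ι : Type*} (s : Finset ι) {f : ι → B} {g : ι → Multiset B}
    (h : ∀ i ∈ s, Cov S (f i) (g i)) : Cov S (∑ i ∈ s, f i) (∑ i ∈ s, g i) := by
  classical
  induction s using Finset.induction_on with
  | empty => simpa using Cov.zero
  | insert i s hi ih =>
    rw [Finset.sum_insert hi, Finset.sum_insert hi]
    exact (h i (Finset.mem_insert_self _ _)).add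
      (ih fun k hk => h k (Finset.mem_insert_of_mem hk))

lemma Cov.term {f q X : B} (f0 : 0 ≤ f) (f1 : f ∈ Cn S) (hq : q * f = f) (hX : X ∈ Cn S) {r : ℝ}
    (hr : 0 ≤ r) : Cov S (r • (star X * f * X)) {q} := by
  have h1 : q * sq f = sq f := by
    have h2 : f * star (1 - q) = 0 := by
      rw [← f0.star_eq, ← star_mul, sub_mul, one_mul, hq, sub_self, star_zero]
    have h3 := congrArg star (cfc_mul_eq_zero f0.isSelfAdjoint h2 Real.continuous_sqrt Real.sqrt_zero)
    rw [star_mul, star_star, IsSelfAdjoint.cfc.star_eq, star_zero, sub_mul, one_mul,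
      sub_eq_zero] at h3
    exact h3.symm
  refine ⟨Unit, inferInstance, fun _ => √r • (sq f * X), fun _ => q, fun _ => ?_, fun _ => ?_, ?_,
    by simp⟩
  · exact SMulMemClass.smul_mem (S := StarSubalgebra ℂ B) (√r : ℂ)
      (mul_mem (cfc_mem_cl (Cn_closed S) _ f1) hX)
  · rw [mul_smul_comm, ← mul_assoc, h1]
  · rw [Fintype.sum_unique, star_smul, smul_mul_smul_comm, star_trivial √r, Real.mul_self_sqrt hr,
      star_mul, sq_star, mul_assoc (star X) (sq f), ← mul_assoc (sq f), sq_mul_sq f0, mul_assoc]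

lemma Cov.sub (h : Cov S a M) (he : e ∈ S) (h0 : a * e = e) : Sub S e {1} M := by
  obtain ⟨T, _, X, q, h1, h2, h3, rfl⟩ := h
  exact Sub.of_le (fun x hx => Cn_comm hx he) X q h1 h2 h3 h0

/-- Many equivalent orthogonal copies below `1`. -/
lemma Sys.many {K : Type} [Fintype K] {Φ : K → K → B} {w : B} (h : Sys Φ w)
    (hS : ∀ l m, Φ l m ∈ Cn S) (he : e ∈ S) (o : K) :
    Sub S e (Fintype.card K • {cfc (rp (1 / 4) 2) (Φ o o)}) {1} := by
  have d0 : IsSelfAdjoint (Φ o o) := h.st o o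
  have g0 := Gf_cont one_half_pos
  have k0 : cfc (Gf (1 / 2)) (Φ o o) ∈ Cn S := cfc_mem_cl (Cn_closed S) _ (hS o o)
  refine Sub.copies (fun l => Φ l o * cfc (Gf (1 / 2)) (Φ o o)) (fun l => mul_mem (hS _ _) k0)
    (fun l => ?_) (fun l l' hl => ?_) fun l => one_mul _
  · have h1 : star (Φ l o * cfc (Gf (1 / 2)) (Φ o o)) * (Φ l o * cfc (Gf (1 / 2)) (Φ o o)) =
        cfc (fun t => Gf (1 / 2) t * t * (t * Gf (1 / 2) t)) (Φ o o) := by
      rw [star_mul, IsSelfAdjoint.cfc.star_eq, h.st, mul_assoc, ← mul_assoc (Φ o l), h.mul,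
        ← h.mul o o o, mul_assoc, ← mul_assoc, cfc_mul_id g0 d0, id_mul_cfc g0 d0,
        cfc_mul' (by fun_prop) (by fun_prop)]
    rw [h1, ← mul_assoc, (Cn_comm (cfc_mem_cl (Cn_closed S) _ (hS o o)) he).eq, mul_assoc,
      cfc_mul' (by fun_prop) (by fun_prop)]
    refine congrArg _ (cfc_congr fun t _ => ?_)
    rcases le_total t (1 / 2) with ht | ht
    · simp only [rp]
      rw [cl_of_nonpos (by push_cast; linarith), mul_zero]
    · have : t ≠ 0 := by linarith
      simp only [Gf, max_eq_left ht]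
      field_simp
  · rw [star_mul, h.st, mul_assoc _ (Φ o l), ← mul_assoc (Φ o l), h.zero _ _ _ _ hl, zero_mul,
      mul_zero, zero_mul]

/-- The later levels and the threshold cost at most half of the weight. -/
lemma two_ineq {ι : Type} [Fintype ι] [DecidableEq ι] (a b : ι → B) (a0 : ∀ i, 0 ≤ a i)
    (b0 : ∀ i, 0 ≤ b i) (b1 : ∀ i, b i ≤ 1) (ε : ι → ℝ) (ε0 : ∀ i, 0 ≤ ε i) {θ : ℝ} (i : ι)
    (L : Finset ι) (hθ : θ + ∑ k, (if k = i ∨ k ∈ L then 0 else ε k) ≤ ε i / 2) {X u : B}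
    (h1 : a i * X = X) (h2 : b i * X = 0) (hu : u = ∑ k, ε k • (a k - b k)) :
    (ε i / 2) • (star X * X) ≤ star X * cfc (fun t => max (t - θ) 0) u * X +
      ∑ k ∈ L, ε k • (star X * b k * X) := by
  have u0 : IsSelfAdjoint u := by
    rw [hu, IsSelfAdjoint, star_sum]
    exact Finset.sum_congr rfl fun k _ => by
      rw [star_smul, star_trivial, star_sub, (a0 k).star_eq, (b0 k).star_eq]
  have W0 : 0 ≤ star X * X := star_mul_self_nonneg X
  have h3 : u - θ • (1 : B) ≤ cfc (fun t => max (t - θ) 0) u := by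
    have : u - θ • (1 : B) = cfc (fun t : ℝ => t - θ) u := by
      rw [cfc_sub _ _ u, cfc_id' ℝ u, cfc_const _ u, Algebra.algebraMap_eq_smul_one]
    rw [this]
    exact cfc_mono fun t _ => le_max_left _ _
  have h4 := star_left_conjugate_le_conjugate h3 X
  have h5 : star X * (u - θ • (1 : B)) * X =
      ∑ k, ε k • (star X * a k * X - star X * b k * X) - θ • (star X * X) := by
    rw [mul_sub, sub_mul, hu, Finset.mul_sum, Finset.sum_mul]
    simp only [mul_smul_comm, smul_mul_assoc, mul_sub, sub_mul, mul_one]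
  have h6 : ∀ k, ((if k = i then ε i else 0) - if k = i ∨ k ∈ L then 0 else ε k) • (star X * X) ≤
      ε k • (star X * a k * X - star X * b k * X) +
        if k ∈ L then ε k • (star X * b k * X) else 0 := by
    intro k
    have ha : 0 ≤ star X * a k * X := star_left_conjugate_nonneg (a0 k) X
    by_cases hk : k = i
    · subst hk
      simp [mul_assoc, h1, h2]
    · by_cases hL : k ∈ L
      · simp only [hk, hL, if_true, if_false, or_true, sub_self, zero_smul]
        rw [← smul_add, sub_add_cancel]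
        exact smul_nonneg (ε0 k) ha
      · simp only [hk, hL, if_false, or_false, zero_sub, add_zero]
        rw [neg_smul, ← smul_neg]
        refine smul_le_smul_of_nonneg_left ?_ (ε0 k)
        have := star_left_conjugate_le_conjugate (b1 k) X
        rw [mul_one] at this
        rw [neg_le_sub_iff_le_add]
        exact this.trans (le_add_of_nonneg_left ha)
  have h7 := Finset.sum_le_sum fun k (_ : k ∈ Finset.univ) => h6 k
  rw [← Finset.sum_smul, Finset.sum_sub_distrib, Finset.sum_add_distrib, Finset.sum_ite_eq',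
    Finset.sum_ite_mem, Finset.univ_inter, if_pos (Finset.mem_univ _)] at h7
  rw [h5] at h4
  calc (ε i / 2) • (star X * X)
      ≤ (ε i - ∑ k, (if k = i ∨ k ∈ L then 0 else ε k) - θ) • (star X * X) :=
        smul_le_smul_of_nonneg_right (by linarith) W0
    _ ≤ _ := by
        rw [sub_smul]
        refine (sub_le_sub_right h7 _).trans ?_
        rw [add_sub_right_comm]
        exact add_le_add_left h4 _

end

lemma two_weights {ι : Type} [Fintype ι] [DecidableEq ι] (rk : ι → ℕ) (hrk : Function.Injective rk)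
    {n : ℕ} (hn : ∀ i, rk i ≤ n) (hc : Fintype.card ι ≤ n + 1) {l : ℝ} (l0 : 0 < l)
    (hl : l * (n + 1) ≤ 1 / 4) (i : ι) :
    l ^ (n + 1) + ∑ k, (if k = i ∨ k ∈ Finset.univ.filter (fun k => rk k < rk i) then 0
      else l ^ rk k) ≤ l ^ rk i / 2 := by
  have n0 : (0 : ℝ) ≤ n := n.cast_nonneg
  have l1 : l ≤ 1 / 4 := by nlinarith
  have p0 : 0 < l ^ rk i := pow_pos l0 _
  have h1 : ∀ m, rk i < m → l ^ m ≤ l ^ rk i * l := fun m hm => by
    rw [← pow_succ]
    exact pow_le_pow_of_le_one l0.le (by linarith) hm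
  have h2 : ∑ k, (if k = i ∨ k ∈ Finset.univ.filter (fun k => rk k < rk i) then 0
      else l ^ rk k) ≤ Fintype.card ι • (l ^ rk i * l) := by
    refine Finset.sum_le_card_nsmul _ _ _ fun k _ => ?_
    split_ifs with hk
    · positivity
    · simp only [Finset.mem_filter, Finset.mem_univ, true_and, not_or, not_lt] at hk
      exact h1 _ (lt_of_le_of_ne hk.2 fun h => hk.1 (hrk h.symm))
  have h3 : (Fintype.card ι : ℝ) ≤ n + 1 := by exact_mod_cast hc
  have h4 := h1 (n + 1) (Nat.lt_succ_of_le (hn i))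
  rw [nsmul_eq_mul] at h2
  have h5 : (Fintype.card ι : ℝ) * (l ^ rk i * l) ≤ l ^ rk i * (l * (n + 1)) := by
    have := mul_le_mul_of_nonneg_right h3 (mul_pos p0 l0).le
    linarith
  nlinarith

theorem two_alg {κ : Type} [Fintype κ] (rk : Option κ → ℕ) (hrk : Function.Injective rk)
    (hn : ∀ i, rk i ≤ Fintype.card κ) (rk0 : rk none = 0) {r : ℕ}
    (hr : r = 4 * (Fintype.card κ + 1) ^ 2) (M : Option κ → ℕ)
    (hM : ∀ i k, rk i < rk k → (r + r) * M k ≤ M i)
    {B : Type u} [CStarAlgebra B] [PartialOrder B] [StarOrderedRing B] {e : B} {S : Set B}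
    (he : e ∈ S) {β : Type} (y : β → B) (y0 : ∀ b, y b ∈ S) (d : Option κ → Bool → B)
    (d0 : ∀ i s, d i s ∈ Cn S ∧ IsSelfAdjoint (d i s))
    (d1 : ∀ i s, Sub S e (M i • {cfc (rp (1 / 4) 2) (d i s)}) {1})
    (x : ∀ k, Fin (4 * M (some k)) → B) (x1 : (∑ k, ∑ t, star (x k t) * x k t) * e = e)
    (d2 : ∀ k t s, ∃ X ∈ Cn S, d (some k) s * X = X ∧ d (some k) (!s) * X = 0 ∧
      star X * X = star (x k t) * x k t)
    (d3 : ∀ b s, ∃ z, y b * z ≠ 0 ∧ d none s * (y b * z) = y b * z ∧ d none (!s) * (y b * z) = 0) :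
    ∃ p p' : Bool → B,
      (∀ i, p i ∈ Cn S ∧ 0 ≤ p i ∧ p i ≤ 1 ∧ p' i ∈ Cn S ∧ 0 ≤ p' i ∧ p' i ≤ 1 ∧
        p' i * p i = p i) ∧ p' true * p' false = 0 ∧
      (∀ i, Sub S e ((r + r) • {1}) (((r + r) * ∑ k, 4 * M (some k)) • {p i} + r • {1})) ∧
      ∀ i b, ∃ z, y b * z ≠ 0 ∧ p i * (y b * z) = y b * z := by
  classical
  set n := Fintype.card κ with hn'
  obtain ⟨l, l0, hl⟩ : ∃ l : ℝ, 0 < l ∧ l * (n + 1) ≤ 1 / 4 :=
    ⟨1 / (4 * (n + 1)), by positivity, le_of_eq (by field_simp)⟩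
  obtain ⟨θ, hθ⟩ : ∃ θ, θ = l ^ (n + 1) := ⟨_, rfl⟩
  have θ0 : 0 < θ := hθ ▸ pow_pos l0 _
  obtain ⟨a, ha⟩ : ∃ a : Bool → Option κ → B, ∀ s i, a s i = cfc (rp (1 / 4) 3) (d i s) :=
    ⟨_, fun _ _ => rfl⟩
  have a0 : ∀ s i, 0 ≤ a s i ∧ a s i ≤ 1 := fun s i => ha s i ▸ rp_mem _ _ _
  have a1 : ∀ s i, a s i ∈ Cn S := fun s i => ha s i ▸ cfc_mem_cl (Cn_closed S) _ (d0 i s).1
  obtain ⟨u, hu⟩ : ∃ u : Bool → B, ∀ s, u s = ∑ k, l ^ rk k • (a s k - a (!s) k) :=
    ⟨_, fun _ => rfl⟩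
  have u0 : ∀ s, IsSelfAdjoint (u s) := fun s => by
    rw [hu, IsSelfAdjoint, star_sum]
    exact Finset.sum_congr rfl fun k _ => by
      rw [star_smul, star_trivial, star_sub, (a0 _ k).1.star_eq, (a0 _ k).1.star_eq]
  have u1 : ∀ s, u s ∈ Cn S := fun s => hu s ▸ sum_mem fun k _ =>
    SMulMemClass.smul_mem (S := StarSubalgebra ℂ B) ((l ^ rk k : ℝ) : ℂ) (sub_mem (a1 _ _) (a1 _ _))
  obtain ⟨v, hv⟩ : ∃ v : Bool → B, ∀ s, v s = cfc (fun t => max (t - θ) 0) (u s) :=
    ⟨_, fun _ => rfl⟩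
  have v0 : ∀ s, 0 ≤ v s := fun s => hv s ▸ cfc_nonneg fun t _ => le_max_right _ _
  have v1 : ∀ s, v s ∈ Cn S := fun s => hv s ▸ cfc_mem_cl (Cn_closed S) _ (u1 s)
  have pv : ∀ s, cfc (rp (θ / 3) 2) (u s) * v s = v s := fun s => by
    rw [hv, cfc_mul' (by fun_prop) (by fun_prop)]
    refine cfc_congr fun t _ => ?_
    rcases le_total t θ with h | h
    · simp [max_eq_right (sub_nonpos.2 h)]
    · have : 3 ≤ t / (θ / 3) := by rw [le_div_iff₀ (by positivity)]; linarith
      simp only [rp]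
      rw [cl_of_one_le (by push_cast; linarith), one_mul]
  have key : ∀ s i X, d i s * X = X → d i (!s) * X = 0 → (l ^ rk i / 2) • (star X * X) ≤
      star X * v s * X + ∑ k ∈ Finset.univ.filter (fun k => rk k < rk i),
        l ^ rk k • (star X * a (!s) k * X) := fun s i X h1 h2 => by
    rw [hv]
    refine two_ineq (a s) (a (!s)) (fun k => (a0 _ k).1) (fun k => (a0 _ k).1) (fun k => (a0 _ k).2)
      (fun k => l ^ rk k) (fun k => by positivity) i _
      (hθ ▸ two_weights rk hrk hn (by simp [hn']) l0 hl i) ?_ ?_ (hu s)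
    · rw [ha]
      exact cfc_mul_eq_self (d0 _ _).2 h1 (by fun_prop) (by rw [rp, cl_of_one_le (by norm_num)])
    · rw [ha]
      exact cfc_mul_eq_zero (d0 _ _).2 h2 (by fun_prop) (rp_zero (by norm_num) (by norm_num)
        (by norm_num))
  refine ⟨fun s => cfc (rp (θ / 3) 2) (u s), fun s => cfc (rp (θ / 3) 1) (u s), fun s =>
    ⟨cfc_mem_cl (Cn_closed S) _ (u1 s), (rp_mem _ _ _).1, (rp_mem _ _ _).2,
      cfc_mem_cl (Cn_closed S) _ (u1 s), (rp_mem _ _ _).1, (rp_mem _ _ _).2,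
      (rp_tier2 _ (by norm_num) _).1⟩, ?_, fun s => ?_, fun s b => ?_⟩
  · have h1 : u false = -u true := by
      rw [hu, hu, ← Finset.sum_neg_distrib]
      exact Finset.sum_congr rfl fun k _ => by rw [← smul_neg, neg_sub]; rfl
    show cfc _ (u true) * cfc _ (u false) = 0
    rw [h1, ← cfc_comp_neg _ (u true), cfc_mul' (by fun_prop) (by fun_prop), ← cfc_zero ℝ (u true)]
    refine cfc_congr fun t _ => ?_
    rcases le_total t 0 with h | h
    · simp [rp_zero (δ := θ / 3) (t := t) (m := 1) (by positivity) one_pos (by linarith)]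
    · simp [rp_zero (δ := θ / 3) (t := -t) (m := 1) (by positivity) one_pos (by linarith)]
  · set p := cfc (rp (θ / 3) 2) (u s) with hp
    set L := fun k : κ => Finset.univ.filter (fun i => rk i < rk (some k)) with hL
    set q := fun i => cfc (rp (1 / 4) 2) (d i (!s)) with hq
    have h1 : ∀ k t, Cov S (star (x k t) * x k t) ({p} + ∑ i ∈ L k, {q i}) := fun k t => by
      obtain ⟨X, hX, h1, h2, h3⟩ := d2 k t s
      have p0 : 0 < l ^ rk (some k) := pow_pos l0 _
      have h4 := smul_le_smul_of_nonneg_left (key s _ X h1 h2)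
        (show 0 ≤ 2 / l ^ rk (some k) by positivity)
      rw [smul_smul, show 2 / l ^ rk (some k) * (l ^ rk (some k) / 2) = 1 by field_simp, one_smul,
        h3, smul_add, Finset.smul_sum] at h4
      refine ((Cov.term (v0 s) (v1 s) (pv s) hX (by positivity)).add
        (Cov.sum _ fun i _ => ?_)).mono h4
      rw [smul_smul]
      refine Cov.term (a0 _ _).1 (a1 _ _) ?_ hX (by positivity)
      rw [ha]
      exact (rp_tier2 _ (by norm_num) _).1
    have h2 := ((Cov.sum Finset.univ fun k _ => Cov.sum Finset.univ fun t _ => h1 k t).sub he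
      x1).nsmul (r + r)
    simp only [Finset.sum_const, Finset.card_univ, Fintype.card_fin, smul_add,
      Finset.sum_add_distrib, ← Finset.sum_smul, smul_smul] at h2
    have h3 : Sub S e ((r + r) • ∑ k, (4 * M (some k)) • ∑ i ∈ L k, {q i})
        (∑ k, ∑ i ∈ L k, 4 • {1}) := by
      rw [Finset.smul_sum]
      refine Sub.sum _ fun k _ => ?_
      rw [smul_smul, Finset.smul_sum]
      refine Sub.sum _ fun i hi => ((d1 i (!s)).nsmul 4).mono ?_ le_rfl
      rw [smul_smul]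
      refine nsmul_le_nsmul_left (Multiset.zero_le _) ?_
      have := hM i _ (Finset.mem_filter.1 hi).2
      nlinarith
    have h4 : ∑ k, ∑ i ∈ L k, (4 • {1} : Multiset B) ≤ r • {1} := by
      simp only [Finset.sum_const, smul_smul, ← Finset.sum_smul]
      refine nsmul_le_nsmul_left (Multiset.zero_le _) ?_
      refine (Finset.sum_le_card_nsmul _ _ ((n + 1) * 4) fun k _ => Nat.mul_le_mul_right _
        ((Finset.card_le_univ _).trans (by simp [hn']))).trans ?_
      rw [hr, Finset.card_univ, smul_eq_mul]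
      nlinarith
    have h5 := Sub.cut (fun x hx => Cn_comm hx he) h2 (m₄ := 0)
      (by rw [add_zero]; exact h3.mono le_rfl h4)
    rwa [add_zero] at h5
  · obtain ⟨z, h0, h1, h2⟩ := d3 b s
    have h3 := key s none _ h1 h2
    rw [rk0] at h3
    simp only [Nat.not_lt_zero, Finset.filter_false, Finset.sum_empty, add_zero, pow_zero] at h3
    have h4 : y b * (v s * z) = v s * (y b * z) := by
      rw [← mul_assoc, ← (Cn_comm (v1 s) (y0 b)).eq, mul_assoc]
    refine ⟨v s * z, fun h5 => h0 ?_, ?_⟩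
    · rw [mul_assoc, ← h4, h5, mul_zero] at h3
      have h6 := smul_le_smul_of_nonneg_left h3 (show (0 : ℝ) ≤ 2 by norm_num)
      rw [smul_smul, smul_zero] at h6
      norm_num at h6
      exact (CStarRing.star_mul_self_eq_zero_iff _).1
        (le_antisymm (by simpa using h6) (star_mul_self_nonneg _))
    · rw [h4, ← mul_assoc, pv]

theorem exists_two (κ : Type) [Fintype κ] : ∃ r P : ℕ, 0 < r ∧
    ∀ {B : Type u} [CStarAlgebra B] [PartialOrder B] [StarOrderedRing B] {e : B} {S : Set B},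
      DivP κ e → S.Finite → e ∈ S → ∀ {β : Type} [Finite β] (y : β → B), (∀ b, y b ∈ S) →
      (∀ b, y b ≠ 0) → (∀ b, e * y b = y b) → ∃ p p' : Bool → B,
        (∀ i, p i ∈ Cn S ∧ 0 ≤ p i ∧ p i ≤ 1 ∧ p' i ∈ Cn S ∧ 0 ≤ p' i ∧ p' i ≤ 1 ∧
          p' i * p i = p i) ∧ p' true * p' false = 0 ∧
        (∀ i, Sub S e ((r + r) • {1}) (P • {p i} + r • {1})) ∧
        ∀ i b, ∃ z, y b * z ≠ 0 ∧ p i * (y b * z) = y b * z := by
  obtain ⟨r, hr⟩ : ∃ r, r = 4 * (Fintype.card κ + 1) ^ 2 := ⟨_, rfl⟩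
  have r0 : 0 < r := by rw [hr]; positivity
  obtain ⟨rk, rk0, rk1⟩ : ∃ rk : Option κ → ℕ, rk none = 0 ∧
      ∀ k, rk (some k) = Fintype.equivFin κ k + 1 :=
    ⟨fun i => i.elim 0 fun k => Fintype.equivFin κ k + 1, rfl, fun _ => rfl⟩
  have hrk : Function.Injective rk := by
    rintro (_ | k) (_ | k') h
    · rfl
    · rw [rk0, rk1] at h; omega
    · rw [rk0, rk1] at h; omega
    · rw [rk1, rk1] at h
      exact congrArg some ((Fintype.equivFin κ).injective (Fin.ext (by omega)))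
  have hn : ∀ i, rk i ≤ Fintype.card κ := by
    rintro (_ | k)
    · rw [rk0]; exact Nat.zero_le _
    · rw [rk1]; exact (Fintype.equivFin κ k).2
  obtain ⟨M, hM⟩ : ∃ M : Option κ → ℕ, ∀ i, M i = 2 * (r + r) ^ (Fintype.card κ - rk i) :=
    ⟨_, fun _ => rfl⟩
  have M2 : ∀ i, 1 < M i := fun i => by
    have := pow_pos (show 0 < r + r by omega) (Fintype.card κ - rk i)
    rw [hM]; omega
  refine ⟨r, (r + r) * ∑ k, 4 * M (some k), r0, ?_⟩
  intro B _ _ _ e S hd hS he β _ y y0 y1 y2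
  obtain ⟨c, γ, x, c0, x0, c1, c2, c3, x1, x2⟩ :=
    hd (fun k => M (some k)) (fun k => (M2 _).trans' one_pos) S hS
  obtain ⟨Φ₀, w₀, h₀, m₀, n₀⟩ := hd.nv ((M2 none).trans' one_pos) hS he y y0 y1 y2
  obtain ⟨o, ho⟩ : ∃ o : ∀ i, Bool → Fin (M i), ∀ i s, o i (!s) ≠ o i s :=
    ⟨fun i s => if s then ⟨0, (M2 i).trans' one_pos⟩ else ⟨1, M2 i⟩, fun i s => by
      cases s <;> simp⟩
  have hs := fun k => Sys.of (c k) (c1 k) (c2 k) (c3 k)
  have hm : ∀ k l m, c k l * star (c k m) ∈ Cn S := fun k l m =>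
    mul_mem (c0 k l) (star_mem (c0 k m))
  refine two_alg rk hrk hn rk0 hr M (fun i k h => ?_) he y y0
    (fun i s => i.rec (Φ₀ (o none s) (o none s)) fun k => c k (o _ s) * star (c k (o _ s)))
    ?_ ?_ x x2 (fun k t s => ⟨c k (o _ s) * x k t, mul_mem (c0 _ _) (x0 _ _), ?_, ?_, ?_⟩)
    fun b s => ?_
  · have := hn k
    rw [hM, hM, mul_left_comm, ← pow_succ']
    exact Nat.mul_le_mul_left _ (Nat.pow_le_pow_right (by omega) (by omega))
  · rintro (_ | k) s
    · exact ⟨m₀ _ _, h₀.st _ _⟩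
    · exact ⟨hm _ _ _, (hs k).st _ _⟩
  · rintro (_ | k) s
    · simpa using h₀.many m₀ he (o none s)
    · simpa using (hs k).many (hm k) he (o _ s)
  · show c k _ * star (c k _) * _ = _
    rw [mul_assoc, ← mul_assoc (star _), c1, x1]
  · show c k _ * star (c k _) * _ = _
    rw [mul_assoc, ← mul_assoc (star _), c2 k _ _ (ho _ s), zero_mul, mul_zero]
  · rw [star_mul, mul_assoc, ← mul_assoc (star (c k _)), c1, x1]
  · obtain ⟨z, h1, h2⟩ := n₀ b (o none s)
    refine ⟨z, h1, h2, ?_⟩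
    show Φ₀ _ _ * _ = _
    rw [← h2, ← mul_assoc, h₀.zero _ _ _ _ (ho _ s), zero_mul]

end Pool.Agent.Lib.MP_30b5b4_an
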