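import Pool.Agent.Lib.MP_30b5b4_an.Z6

/-! Simple ideals: internal definitions. -/

open scoped CStarAlgebra ComplexOrder Topology
open Filter

set_option linter.unusedSectionVars false
set_option linter.style.haveILetI false
set_option linter.unusedVariables false

namespace Pool.Agent.Lib.MP_30b5b4_an

universe u v

section alg
variable {B : Type u} [CStarAlgebra B]

/-- The supports of the `z i` embed orthogonally into the cores of the `q j`. -/
structure SubF (S : Set B) (e : B) {α β : Type} [Fintype β] (z : α → B) (q : β → B)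
    (V : β → α → B) : Prop where
  mem : ∀ j i, V j i ∈ Cn S
  diag : ∀ i, (∑ j, star (V j i) * V j i) * (e * z i) = e * z i
  off : ∀ i i', i ≠ i' → (∑ j, star (V j i) * V j i') * (e * z i') = 0
  rng : ∀ j i, q j * V j i = V j i

def Sub (S : Set B) (e : B) (m m' : Multiset B) : Prop :=
  ∃ (α β : Type) (_ : Fintype α) (_ : Fintype β) (z : α → B) (q : β → B) (V : β → α → B),
    Finset.univ.val.map z = m ∧ Finset.univ.val.map q = m' ∧ SubF S e z q V

def Dom (S : Set B) (e z p : B) (R : ℕ) : Prop :=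
  ∃ V : Fin R → B, (∀ t, V t ∈ Cn S) ∧ (∑ t, star (V t) * V t) * (e * z) = e * z ∧
    ∀ t, p * V t = V t

variable [PartialOrder B] [StarOrderedRing B]

/-- An order zero map on the matrix algebra over `K`, by its values on matrix units. -/
structure Sys {K : Type} [Fintype K] (Φ : K → K → B) (w : B) : Prop where
  st : ∀ l m, star (Φ l m) = Φ m l
  mul : ∀ l m m', Φ l m * Φ m m' = w * Φ l m'
  zero : ∀ l m l' m', m ≠ l' → Φ l m * Φ l' m' = 0
  sum : ∑ l, Φ l l = w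
  w0 : 0 ≤ w
  w1 : w ≤ 1

/-- Coloured central division of the local unit `e`. -/
def DivP (κ : Type) [Fintype κ] (e : B) : Prop :=
  ∀ (m : κ → ℕ), (∀ k, 0 < m k) → ∀ S : Set B, S.Finite →
    ∃ (c : ∀ k, Fin (m k) → B) (γ : κ → B) (x : ∀ k, Fin (4 * m k) → B),
      (∀ k l, c k l ∈ Cn S) ∧ (∀ k t, x k t ∈ Cn S) ∧ (∀ k l, star (c k l) * c k l = γ k) ∧
      (∀ k l l', l ≠ l' → star (c k l) * c k l' = 0) ∧ (∀ k, γ k ≤ 1) ∧
      (∀ k t, γ k * x k t = x k t) ∧ (∑ k, ∑ t, star (x k t) * x k t) * e = e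

/-- Two orthogonal central elements, both full with constant `C`. -/
def Full2 (e : B) (C : ℕ) : Prop :=
  ∀ S : Set B, S.Finite → e ∈ S → ∃ p : Bool → B, (∀ b, p b ∈ Cn S ∧ 0 ≤ p b ∧ p b ≤ 1) ∧
    p true * p false = 0 ∧ ∀ b, Dom S e 1 (p b) C

/-- A central order zero map that is full with constant `C`. -/
def Weak (K : Type) [Fintype K] (e : B) (C : ℕ) : Prop :=
  ∀ S : Set B, S.Finite → e ∈ S → ∃ (Φ : K → K → B) (w : B), Sys Φ w ∧ (∀ l m, Φ l m ∈ Cn S) ∧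
    Dom S e 1 w C

/-- The hypothesis `hs` of `pack` and `stack`. -/
def Slots (e : B) : Prop :=
  ∀ (I : Type) [Fintype I], 2 ≤ Fintype.card I → ∀ {S : Set B}, S.Finite →
    ∃ (c : I → B) (x : Option I → B) (γ : B), Slot e c x γ ∧ (∀ l, c l ∈ Cn S) ∧ ∀ s, x s ∈ Cn S

/-- Comparison inside the multiplicity algebra of a block. -/
def BL (δ : ℝ) (d z p : B) (R : ℕ) : Prop :=
  ∃ w : Fin R → B, (∑ t, star (w t) * w t) * (cfc (rp δ 8) d * z) = cfc (rp δ 8) d * z ∧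
    ∑ t, star (w t) * w t ≤ 1 ∧
    ∀ t, p * w t = w t ∧ cfc (rp δ 1) d * w t = w t ∧ w t * cfc (rp δ 1) d = w t

/-- Output of the innermost layer. -/
def Inn {κ β P : Type} (T : κ → B) (x : B) (y : β → B) (q : B) (σ : P → B) (w : β → P → B) :
    Prop :=
  (0 ≤ q ∧ q ≤ 1 ∧ q ∈ Cn (Set.range T)) ∧
  (∀ p, 0 ≤ σ p ∧ σ p ≤ 1 ∧ σ p ∈ Cn (Set.range T) ∧ Commute q (σ p) ∧
    ∀ p', p ≠ p' → σ p * σ p' = 0) ∧
  ∀ b p, y b * w b p = w b p ∧ q * w b p = w b p ∧ σ p * w b p = w b p ∧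
    star (w b p) * w b p * ((1 - q) * x) = (1 - q) * x ∧ star (w b p) * w b p ≤ 1

/-- Output of the middle layer. `a`: the self-adjoint elements to be approximated, `h i`: weights
of the lifted colours, `ι i`, `h' i`, `al i`, `al' i`: data of the ambient colours, `R`: errors. -/
def Mid {κ κ' L : Type} {N N' : ℕ} (a : κ → B) (h : Fin N → B) (ι h' al al' : Fin N' → B)
    (R : κ' → B) (μ : L → Fin N → ℝ) (q m b ζ : B) (u : Fin N → B) (W : L → Fin N' → B) : Prop :=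
  (0 ≤ q ∧ q ≤ 1 ∧ 0 ≤ m ∧ 0 ≤ b ∧ (∀ i, 0 ≤ u i) ∧ ∑ i, u i + m + b = 1) ∧
  (∀ r, m * R r = 0 ∧ b * R r = 0) ∧
  (∀ k, Commute q (a k) ∧ Commute m (a k) ∧ Commute b (a k) ∧ ∀ i, Commute (u i) (a k)) ∧
  (Commute q m ∧ Commute q b ∧ Commute m b ∧ ζ * m = (1 - q) * m ∧ ∀ i, Commute q (u i) ∧
    Commute m (u i) ∧ Commute b (u i) ∧ Commute q (h i) ∧ Commute m (h i) ∧ Commute b (h i) ∧
    Commute (u i) (h i) ∧ ζ * u i = (1 - q) * u i) ∧
  (∀ i, Commute ζ (ι i) ∧ Commute ζ (h' i)) ∧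
  ∀ l i, al i * W l i = W l i ∧ W l i * al i = W l i ∧
    star (W l i) * W l i * (al' i * ζ) = al' i * ζ ∧ q * W l i = W l i ∧ m * W l i = 0 ∧
    b * W l i = 0 ∧ (∀ i', u i' * W l i = μ l i' • W l i) ∧
    ∀ l' i', (l, i) ≠ (l', i') → star (W l i) * W l' i' = 0

lemma rp_tier2 (δ : ℝ) {m m' : ℕ} (h : m < m') (x : B) :
    cfc (rp δ m) x * cfc (rp δ m') x = cfc (rp δ m') x ∧
      cfc (rp δ m') x * cfc (rp δ m) x = cfc (rp δ m') x := by
  have h1 : cfc (rp δ m) x * cfc (rp δ m') x = cfc (rp δ m') x := by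
    rw [cfc_mul' (rp_cont δ m) (rp_cont δ m')]
    exact congrArg (cfc · x) (funext fun t => cl_tier h)
  exact ⟨h1, (cfc_commute_cfc _ _ _).eq.trans h1⟩

lemma rp_mem (δ : ℝ) (m : ℕ) (x : B) : 0 ≤ cfc (rp δ m) x ∧ cfc (rp δ m) x ≤ 1 :=
  ⟨cfc_nonneg fun _ _ => cl_nonneg _, cfc_le_one _ _ fun _ _ => cl_le_one _⟩

end alg

abbrev ApA (A : Type u) [CStarAlgebra A] [PartialOrder A] [StarOrderedRing A] (N : ℕ) : Prop :=
  Ap (NonUnitalStarAlgHom.id ℂ A) N False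

end Pool.Agent.Lib.MP_30b5b4_an
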