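import Pool.Agent.Lib.MP_30b5b4_an.S.K1
import Pool.Agent.Lib.MP_30b5b4_an.S.Defs
import Pool.Agent.Lib.MP_30b5b4_an.VS3

/-! Division and comparison among central sequences. -/

open scoped CStarAlgebra ComplexOrder Topology
open Filter

set_option linter.unusedSectionVars false
set_option linter.style.haveILetI false
set_option linter.unusedVariables false
set_option linter.unusedSimpArgs false
set_option synthInstance.maxSize 1000000

namespace Pool.Agent.Lib.MP_30b5b4_an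

universe u v

variable {J : Type*} {A : Type u} [NonUnitalCStarAlgebra J] [PartialOrder J] [StarOrderedRing J]
  [CStarAlgebra A] [PartialOrder A] [StarOrderedRing A] {j : J →⋆ₙₐ[ℂ] A} {N : ℕ} {δ : ℝ}

/-- Coloured division of the single elements of the ideal. -/
def NDiv (j : J →⋆ₙₐ[ℂ] A) (N : ℕ) : Prop :=
  ∀ δ : ℝ, 0 < δ → ∀ m : Fin N → ℕ, (∀ i, 0 < m i) → ∀ d ∈ Set.range j, 0 ≤ d →
    ∃ (c : ∀ i, Fin (m i) → UA A) (γ : Fin N → UA A) (x : ∀ i, Fin (4 * m i) → UA A),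
      (∀ i l, star (c i l) * c i l = γ i) ∧ (∀ i l l', l ≠ l' → star (c i l) * c i l' = 0) ∧
      (∀ i, γ i ≤ 1) ∧ (∀ i t, γ i * x i t = x i t) ∧
      (∑ i, ∑ t, star (x i t) * x i t) * cfc (rp δ 8) (dg d) = cfc (rp δ 8) (dg d) ∧
      ∑ i, ∑ t, star (x i t) * x i t ≤ 1 ∧
      (∀ i l, cfc (rp δ 1) (dg d) * c i l = c i l ∧ c i l * cfc (rp δ 1) (dg d) = c i l) ∧
      ∀ i t, x i t * cfc (rp δ 1) (dg d) = x i t

section loc
variable {c : CA A} {M : MU c.F} {w : Fin M.N → UA A}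

lemma loc_l (hδ : 0 < δ) (h : ∀ i, cfc (rp δ 1) (dg (M.blk c.φ i)) * w i = w i) :
    M.Loc (cφ c) δ w :=
  .of (cφ_oz c) hδ (rp_cont δ 1) (fun t ht => rp_zero hδ one_pos ht) h

lemma loc_r (hδ : 0 < δ) (h : ∀ i, w i * cfc (rp δ 1) (dg (M.blk c.φ i)) = w i) :
    M.Loc (cφ c) δ fun i => star (w i) :=
  loc_l hδ fun i => by simpa only [star_mul, IsSelfAdjoint.cfc.star_eq] using congrArg star (h i)

lemma amp_rp (M : MU c.F) (hδ : 0 < δ) :
    cfc (rp δ 8) (cφ c 1) = M.amp (cφ c) δ fun i => cfc (rp δ 8) (dg (M.blk c.φ i)) :=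
  (MU.amp_cfc (cφ_oz c) hδ (rp_cont δ 8) fun t ht => rp_zero hδ (by norm_num) ht).symm

end loc

lemma exists_delta (N : ℕ) : ∃ δ : ℝ, 0 < δ ∧ N * (9 * δ) ≤ 1 / 4 :=
  ⟨1 / (36 * (N + 1)), by positivity, by
    rw [mul_one_div, mul_div_assoc', div_le_div_iff₀ (by positivity) (by norm_num)]; linarith⟩

theorem Ap.divP (hI : Ap j N False) (hj : Idl j) {N' : ℕ} (hn : NDiv j N') {e : UA A}
    (he : e ∈ Iw j) : DivP (Fin N × Fin N') e := by
  intro m hm S hS
  obtain ⟨δ, hδ, hN⟩ := exists_delta N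
  obtain ⟨n, s, -, rfl⟩ := hS.fin_param
  obtain ⟨c, ι, _, b, Y, Z, c1, y1, y2, -, y3⟩ := hI.cen hj hδ hN s he
  choose b' hb using fun a => Ult.surj (b a)
  haveI : Fact (Continuous (Gf δ)) := ⟨Gf_cont hδ⟩
  haveI : Fact (Continuous (rp δ 8)) := ⟨rp_cont _ _⟩
  have := transfer (fun g : (Fin N → ℕ → CA A) × (ι → UA A) =>
    ∃ W : (Σ k, Fin (m k)) → UA A, (∀ l, ‖W l‖ ≤ 1) ∧
    ∃ X : (Σ k, Fin (4 * m k)) → UA A, (∀ l, ‖X l‖ ≤ 1) ∧
      (∀ k l l', star (W ⟨k, l⟩) * W ⟨k, l⟩ = star (W ⟨k, l'⟩) * W ⟨k, l'⟩) ∧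
      (∀ k l l', l ≠ l' → star (W ⟨k, l⟩) * W ⟨k, l'⟩ = 0) ∧
      (∀ k l t, star (W ⟨k, l⟩) * W ⟨k, l⟩ * X ⟨k, t⟩ = X ⟨k, t⟩) ∧
      (∀ i, (∑ i', ∑ t, star (X ⟨(i, i'), t⟩) * X ⟨(i, i'), t⟩) * cf (rp δ 8) (uφ (g.1 i) 1) =
        cf (rp δ 8) (uφ (g.1 i) 1)) ∧
      (∀ k l a, Commute (W ⟨k, l⟩) (PT (g.1 k.1) δ (g.2 a))) ∧
      ∀ k t a, Commute (X ⟨k, t⟩) (PT (g.1 k.1) δ (g.2 a)))
    (h := by
      refine Clo.ex1 _ (h := Clo.ex1 _ (h := ?_))
      iterate 5 refine Clo.and _ _ (h := inferInstance) (h' := ?_)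
      infer_instance)
    ((Stage.pi fun i => Stage.col (c i)).prod (Stage.pi fun a => Stage.mk (b' a)))
    (Eventually.of_forall fun k => by
      have M := fun i => (exists_MU (c i k).F).some
      choose w γ x h1 h2 h3 h4 h5 h6 h7 h8 using fun i l => hn δ hδ (fun i' => m (i, i'))
        (fun i' => hm _) ((M i).blk (c i k).φ l) (c1 i k _) (MU.blk_nonneg (c i k).oz l)
      have o := fun i => cφ_oz (c i k)
      have l1 := fun i i' l => loc_l hδ fun b => (h7 i b i' l).1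
      have l2 := fun i i' l => loc_r hδ fun b => (h7 i b i' l).2
      have l3 : ∀ i i' t, (M i).Loc (cφ (c i k)) δ fun b => x i b i' t := fun i i' t => by
        have := (l2 i i' ⟨0, hm _⟩).mul (w' := fun b => w i b i' ⟨0, hm _⟩ * x i b i' t)
        simpa only [← mul_assoc, h1, h4] using this
      have l4 := fun i i' t => loc_r hδ fun b => h8 i b i' t
      refine ⟨fun p => (M p.1.1).amp (cφ (c p.1.1 k)) δ fun b => w p.1.1 b p.1.2 p.2,
        fun p => MU.amp_norm (o _) hδ (l1 _ _ _) zero_le_one fun b =>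
          norm_le_one_of_star_mul (h1 _ _ _ _ ▸ h3 _ _ _),
        fun p => (M p.1.1).amp (cφ (c p.1.1 k)) δ fun b => x p.1.1 b p.1.2 p.2,
        fun p => MU.amp_norm (o _) hδ (l3 _ _ _) zero_le_one fun b =>
          norm_le_one_of_star_mul (le_trans ?_ (h6 p.1.1 b)), fun p l l' => ?_,
        fun p l l' h => ?_, fun p l t => ?_, fun i => ?_, fun p l a => ?_, fun p t a => ?_⟩
      · exact (Finset.single_le_sum (f := fun t => star (x p.1.1 b p.1.2 t) * x p.1.1 b p.1.2 t)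
          (fun _ _ => star_mul_self_nonneg _) (Finset.mem_univ _)).trans
          (Finset.single_le_sum (f := fun i' => ∑ t, star (x p.1.1 b i' t) * x p.1.1 b i' t)
            (fun _ _ => Finset.sum_nonneg fun _ _ => star_mul_self_nonneg _) (Finset.mem_univ _))
      · simp only [MU.amp_star, MU.amp_mul (o _) _ (l1 _ _ _), h1]
      · simp only [MU.amp_star, MU.amp_mul (o _) _ (l1 _ _ _), h2 _ _ _ _ _ h, MU.amp_zero]
      · simp only [MU.amp_star, MU.amp_mul (o _) _ (l1 _ _ _), MU.amp_mul (o _) _ (l3 _ _ _), h1,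
          h4]
      · simp only [MU.amp_star, MU.amp_mul (o _) _ (l3 _ _ _), ← MU.amp_sum, cf_const,
          amp_rp (M i) hδ]
        rw [MU.amp_mul (o _) _ (loc_l hδ fun b => rp_tier (by norm_num) _)]
        simp only [h5]
      · simp only [PT_const]; exact MU.amp_comm (o _) (l1 _ _ _) (l2 _ _ _) _
      · simp only [PT_const]; exact MU.amp_comm (o _) (l3 _ _ _) (l4 _ _ _) _)
  simp only [hb, cf_uφ (rp δ 8)] at this
  obtain ⟨W, w0, X, -, w1, w2, w3, w4, w5, w6⟩ := this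
  have e1 : ∀ (V V' U : UA A), star (V * U) * (V' * U) = star U * (star V * V' * U) :=
    fun V V' U => by rw [star_mul]; simp only [mul_assoc]
  refine ⟨fun k l => W ⟨k, l⟩ * Z k.1, fun k => star (W ⟨k, ⟨0, hm k⟩⟩ * Z k.1) *
    (W ⟨k, ⟨0, hm k⟩⟩ * Z k.1), fun k t => X ⟨k, t⟩ * Y k.1, fun k l => (y3 _ _ (w5 k l)).2.1,
    fun k t => (y3 _ _ (w6 k t)).1, fun k l => by simp only [e1, w1 k l ⟨0, hm k⟩], fun k l l' h => by
      rw [e1, w2 k l l' h, zero_mul, mul_zero], fun k => ?_, fun k t => ?_, ?_⟩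
  · refine le_one_of_norm (star_mul_self_nonneg _) ?_
    have := (norm_mul_le _ _).trans (mul_le_one₀ (w0 ⟨k, ⟨0, hm k⟩⟩) (norm_nonneg _) (y2 k.1).2)
    rw [CStarRing.norm_star_mul_self]
    exact mul_le_one₀ this (norm_nonneg _) this
  · beta_reduce
    rw [e1, mul_assoc, mul_assoc, (y3 _ _ (w6 k t)).2.2.1, ← mul_assoc _ (X _), w3,
      (y3 _ _ (w6 k t)).2.2.2]
  · rw [Fintype.sum_prod_type]
    simp only [e1, ← Finset.mul_sum, ← Finset.sum_mul]
    have : ∀ i, (∑ i', ∑ t, star (X ⟨(i, i'), t⟩) * X ⟨(i, i'), t⟩) * Y i = Y i := fun i => by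
      rw [← (y2 i).1, ← mul_assoc, w4]
    simp only [this, y1]

theorem Smp.divP (hs : Smp j) (hj : Idl j) (hv : Hv j) (hI : Ap j N False) {N' : ℕ}
    (hA : ApA A N') {e : UA A} (he : e ∈ Iw j) : DivP (Fin N × Fin N') e :=
  hI.divP hj (fun δ hδ m hm d hd d0 => hs.ndiv' hj hv hA hδ m hm hd d0) he

theorem Ap.cmp (hI : Ap j N False) (hj : Idl j) (hδ : 0 < δ) (hN : N * (9 * δ) ≤ 1 / 4)
    {lam ρ : Type} [Finite lam] [Finite ρ] (Q : (lam → UA A) → Prop) [hQ : Clo Q]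
    (a b : ρ → lam) (R : ℕ)
    (H : ∀ T D : Finset A, (∀ d ∈ D, d ∈ Set.range j ∧ 0 ≤ d ∧ d ≤ 1) → ∃ x : lam → UA A,
      (∀ l, ‖x l‖ ≤ 1) ∧ Q x ∧ (∀ l, x l ∈ Cn (dg '' (T : Set A))) ∧
      ∀ d ∈ D, ∀ r, BL δ (dg d) (x (a r)) (x (b r)) R)
    {S : Set (UA A)} (hS : S.Finite) {e : UA A} (he : e ∈ S) (he' : e ∈ Iw j) :
    ∃ x : lam → UA A, (∀ l, ‖x l‖ ≤ 1) ∧ Q x ∧ (∀ l, x l ∈ Cn S) ∧
      ∀ r, Dom S e (x (a r)) (x (b r)) (N * R) := by
  classical
  obtain ⟨n, s, -, rfl⟩ := hS.fin_param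
  obtain ⟨c, ι, _, v, Y, Z, c1, y1, y2, y4, y3⟩ := hI.cen hj hδ hN s he'
  choose v' hv using fun a => Ult.surj (v a)
  choose s' hs using fun a => Ult.surj (s a)
  haveI : Fact (Continuous (Gf δ)) := ⟨Gf_cont hδ⟩
  haveI : Fact (Continuous (rp δ 8)) := ⟨rp_cont _ _⟩
  haveI : Clo fun p : (((Fin N → ℕ → CA A) × (ι → UA A) × (Fin n → UA A)) × (lam → UA A)) ×
    (ρ × Fin N × Fin R → UA A) => Q p.1.2 := Clo.comp Q _
  have := transfer (fun g : (Fin N → ℕ → CA A) × (ι → UA A) × (Fin n → UA A) =>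
    ∃ x : lam → UA A, (∀ l, ‖x l‖ ≤ 1) ∧ ∃ W : ρ × Fin N × Fin R → UA A, (∀ l, ‖W l‖ ≤ 1) ∧
      Q x ∧ (∀ l, x l ∈ Cn (Set.range g.2.2)) ∧ (∀ l m, Commute (x l) (g.2.1 m)) ∧
      (∀ l i, Commute (x l) (uT (g.1 i) 1) ∧ Commute (x l) (uφ (g.1 i) 1)) ∧
      (∀ r i, (∑ t, star (W (r, i, t)) * W (r, i, t)) * (cf (rp δ 8) (uφ (g.1 i) 1) * x (a r)) =
        cf (rp δ 8) (uφ (g.1 i) 1) * x (a r)) ∧ (∀ r i t, x (b r) * W (r, i, t) = W (r, i, t)) ∧
      ∀ r i t m, Commute (W (r, i, t)) (PT (g.1 i) δ (g.2.1 m)))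
    ((Stage.pi fun i => Stage.col (c i)).prod ((Stage.pi fun a => Stage.mk (v' a)).prod
      (Stage.pi fun a => Stage.mk (s' a))))
    (Eventually.of_forall fun k => by
      have M := fun i => (exists_MU (c i k).F).some
      have o := fun i => cφ_oz (c i k)
      obtain ⟨x, x1, x2, x3, x4⟩ := H
        (Finset.univ.image (fun l => Bdd.ev k (s' l)) ∪ Finset.univ.image (fun l => Bdd.ev k (v' l))
          ∪ Finset.univ.biUnion fun i => Finset.univ.image fun l =>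
            (c i k).φ (Module.finBasis ℂ (c i k).F l))
        (Finset.univ.biUnion fun i => Finset.univ.image fun l => (M i).blk (c i k).φ l) (by
          simp only [Finset.mem_biUnion, Finset.mem_image, Finset.mem_univ, true_and]
          rintro _ ⟨i, l, rfl⟩
          exact ⟨c1 i k _, MU.blk_nonneg (c i k).oz l,
            (MU.blk_le (c i k).oz l).trans (c i k).one⟩)
      choose w h1 h2 h3 using fun i l r => x4 ((M i).blk (c i k).φ l) (by
        simp only [Finset.mem_biUnion, Finset.mem_image, Finset.mem_univ, true_and]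
        exact ⟨i, l, rfl⟩) r
      have x5 : ∀ l i y, Commute (x l) (cφ (c i k) y) := fun l i y => by
        rw [← (Module.finBasis ℂ (c i k).F).sum_repr y, map_sum]
        refine Commute.sum_right _ _ _ fun p _ => ?_
        rw [map_smul]
        refine (Cn_comm (x3 l) ⟨_, ?_, rfl⟩).smul_right _
        simp only [Finset.coe_union, Finset.coe_biUnion, Finset.coe_image, Finset.coe_univ,
          Set.mem_union, Set.mem_iUnion]
        exact Or.inr ⟨i, trivial, p, trivial, rfl⟩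
      have l1 := fun i r t => loc_l hδ fun l => (h3 i l r t).2.1
      have l2 := fun i r t => loc_r hδ fun l => (h3 i l r t).2.2
      refine ⟨x, x1, fun p => (M p.2.1).amp (cφ (c p.2.1 k)) δ fun l => w p.2.1 l p.1 p.2.2,
        fun p => MU.amp_norm (o _) hδ (l1 _ _ _) zero_le_one fun l =>
          norm_le_one_of_star_mul (le_trans ?_ (h2 p.2.1 l p.1)), x2,
        fun l => Cn_mono ?_ (x3 l), fun l m => Cn_comm (x3 l) ⟨_, by simp, rfl⟩, fun l i => ?_,
        fun r i => ?_, fun r i t => ?_, fun r i t m => ?_⟩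
      · exact Finset.single_le_sum (f := fun t => star (w p.2.1 l p.1 t) * w p.2.1 l p.1 t)
          (fun _ _ => star_mul_self_nonneg _) (Finset.mem_univ _)
      · rintro _ ⟨l, rfl⟩
        exact ⟨_, by simp, rfl⟩
      · simp only [uφ_const_one]
        rw [← map_one dg, uT_const]
        exact ⟨x5 l i _, x5 l i _⟩
      · simp only [MU.amp_star, MU.amp_mul (o _) _ (l1 _ _ _), ← MU.amp_sum, cf_const,
          amp_rp (M i) hδ, MU.amp_mul' (o i) (x5 _ i)]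
        rw [MU.amp_mul (o _) _ (loc_l hδ fun b => rp_tier (by norm_num) _).mul]
        simp only [h1]
      · simp only [MU.mul_amp (x5 _ i), (h3 _ _ _ _).1]
      · simp only [PT_const]; exact MU.amp_comm (o _) (l1 _ _ _) (l2 _ _ _) _)
  simp only [hv, hs, cf_uφ (rp δ 8)] at this
  obtain ⟨x, x1, W, -, x2, x3, x4, x5, w1, w2, w3⟩ := this
  refine ⟨x, x1, x2, x3, fun r => ⟨fun t => W (r, finProdFinEquiv.symm t) *
    Y (finProdFinEquiv.symm t).1, fun t => (y3 _ _ (w3 r _ _)).1, ?_, fun t => by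
      rw [← mul_assoc, w2]⟩⟩
  rw [finProdFinEquiv.symm.sum_comp fun p => star (W (r, p) * Y p.1) * (W (r, p) * Y p.1),
    Fintype.sum_prod_type]
  have a1 : ∀ i, (∑ t, star (W (r, i, t)) * W (r, i, t)) * (Y i * (e * x (a r))) =
      Y i * (e * x (a r)) := fun i => by
    rw [← (Cn_comm (x3 _) he).eq, ← mul_assoc (Y i),
      ← (y4 _ (fun i => (x5 _ i).1) (x4 _) i).eq, ← (y2 i).1, ← mul_assoc (x _),
      ← ((x5 _ i).2.symm.cfc_real _).eq, mul_assoc _ (Y i), ← mul_assoc, w1]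
  calc _ = ∑ i, star (Y i) * ((∑ t, star (W (r, i, t)) * W (r, i, t)) * (Y i * (e * x (a r)))) := by
        simp only [star_mul, Finset.sum_mul, Finset.mul_sum, mul_assoc]
    _ = _ := by
        simp only [a1]
        simp only [← mul_assoc, ← Finset.sum_mul, y1]

end Pool.Agent.Lib.MP_30b5b4_an
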