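import Pool.Agent.Lib.MP_30b5b4_an.S.A2
import Pool.Agent.Lib.MP_30b5b4_an.Tr

/-! Comparison inside the multiplicity algebra of a block. -/

open scoped CStarAlgebra ComplexOrder Topology
open Filter

set_option linter.unusedSectionVars false
set_option linter.style.haveILetI false
set_option linter.unusedVariables false
set_option linter.unusedSimpArgs false
set_option synthInstance.maxSize 1000000

namespace Pool.Agent.Lib.MP_30b5b4_an

universe u v

section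
variable {B : Type u} [CStarAlgebra B]

lemma Sub.absorb {S : Set B} {e u y : B} (he : ∀ x ∈ Cn S, Commute x e) {b c d K : ℕ}
    (h : Sub S e ((d + c) • {u}) (b • {y} + c • {u})) (h' : Dom S e u y K) :
    Sub S e (((c * K + 1) * d) • {u}) (((c * K + 1) * (b + 1)) • {y}) := by
  have h1 := Sub.cut he (m₄ := 0) (h.iter he (c * K)) (by
    rw [add_zero]; exact h'.sub.nsmul c)
  refine h1.mono ?_ ?_
  · rw [add_zero]
    exact nsmul_le_nsmul_left (Multiset.zero_le _) (Nat.le_add_right _ _)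
  · rw [smul_smul, ← add_nsmul]
    exact nsmul_le_nsmul_left (Multiset.zero_le _) (by rw [mul_add _ b, mul_one]; omega)

variable [PartialOrder B] [StarOrderedRing B]

lemma rp_fac {δ : ℝ} (hδ : 0 < δ) {m : ℕ} (hm : 0 < m) {x : B} (hx : IsSelfAdjoint x) :
    ∃ k, cfc (rp δ m) x = x * k := by
  have := Gf_cont hδ
  refine ⟨cfc (fun t => rp δ m t * Gf δ t) x, ?_⟩
  rw [id_mul_cfc (by fun_prop) hx]
  refine congrArg (cfc · x) (funext fun t => ?_)
  rcases le_total t δ with h | h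
  · rw [rp_zero hδ hm h, zero_mul, mul_zero]
  · rw [Gf, max_eq_left h, mul_left_comm, mul_inv_cancel₀ (hδ.trans_le h).ne', mul_one]

lemma rp_half {δ : ℝ} (hδ : 0 < δ) (x : B) :
    cfc (rp (δ / 2) 1) x * cfc (rp δ 1) x = cfc (rp δ 1) x := by
  rw [cfc_mul' (rp_cont _ _) (rp_cont _ _)]
  refine congrArg (cfc · x) (funext fun t => ?_)
  rcases le_total t δ with h | h
  · rw [rp_zero hδ one_pos h, mul_zero]
  · have : 2 ≤ t / (δ / 2) := by rw [le_div_iff₀ (half_pos hδ)]; linarith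
    rw [rp, cl_of_one_le (by push_cast; linarith), one_mul]

end

variable {J : Type*} {A : Type u} [NonUnitalCStarAlgebra J] [PartialOrder J] [StarOrderedRing J]
  [CStarAlgebra A] [PartialOrder A] [StarOrderedRing A] {j : J →⋆ₙₐ[ℂ] A} {N : ℕ}

lemma Dom.transfer {s s' : BA A} {R : ℕ}
    (h : ∀ᶠ k in (om : Filter ℕ), Dom ∅ 1 (dg (Bdd.ev k s)) (dg (Bdd.ev k s')) R) :
    Dom ∅ 1 (Ult.mk s) (Ult.mk s') R := by
  obtain ⟨x, -, x1, x2⟩ := MP_30b5b4_an.transfer (fun g : UA A × UA A => ∃ x : Fin R → UA A,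
      (∀ t, ‖x t‖ ≤ 1) ∧ (∑ t, star (x t) * x t) * g.1 = g.1 ∧ ∀ t, g.2 * x t = x t)
    ((Stage.mk s).prod (Stage.mk s')) (h.mono fun k ⟨V, _, h1, h2⟩ => by
      obtain ⟨n, -, -, n1, n2⟩ := exists_norm V
      rw [one_mul] at h1
      exact ⟨fun t => V t * n, n1, (n2 _ h1).2, fun t => by rw [← mul_assoc, h2]⟩)
  exact ⟨x, fun t => mem_Cn_empty _, by rw [one_mul]; exact x1, x2⟩

lemma Smp.dom' (hs : Smp j) {x g g' z y : A} (g0 : 0 ≤ g) (hg' : ∃ c, j c = g') (hg : g' * g = g)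
    (hx : g * x = x) (hz : ∃ c, j c = z) (z0 : z ≠ 0) (hy : y * z = z) :
    ∃ K, Dom ∅ 1 x y K := by
  obtain ⟨K, V, h1, h2⟩ := hs.sub g0 hg' hg hx hz z0 hy
  exact ⟨K, V, fun t => mem_Cn_empty _, by rw [one_mul]; exact h1, h2⟩

theorem Smp.block (hj : Idl j) (hs : Smp j)
    (hc : ∀ {x' x y y' : UA A}, star x = x → star y = y → x * x' = x' → y' * y = y →
      ∀ {a b C : ℕ}, 0 < a → 2 * b ≤ a * C → Sub ∅ 1 (a • {x}) (b • {y}) →
        Dom ∅ 1 x' y' (N * C))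
    {δ : ℝ} (hδ : 0 < δ) {d : A}
    (hd : d ∈ Set.range j) (d0 : 0 ≤ d) {S : Set (UA A)} {e p p' : UA A} (hS : dg d ∈ S)
    (he : e ∈ S) (he' : e * cfc (rp δ 1) (dg d) = cfc (rp δ 1) (dg d)) (m1 : p ∈ Cn S)
    (m2 : p' ∈ Cn S) (p0 : 0 ≤ p) (p1 : p ≤ 1) (hp : p' * p = p) {r P : ℕ} (hr : 0 < r)
    (h : Sub S e ((r + r) • {1}) (P • {p} + r • {1}))
    (hY : cfc (rp δ 8) d ≠ 0 → ∃ Y, Y ≠ 0 ∧ p * Y = Y ∧ cfc (rp δ 2) (dg d) * Y = Y) :
    BL δ (dg d) 1 p' (N * (4 * P + 2)) := by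
  have ds := d0.isSelfAdjoint
  have Ds : IsSelfAdjoint (dg d : UA A) := ds.map dg
  have hu : ∀ m, dg (cfc (rp δ m) d) = cfc (rp δ m) (dg d : UA A) := fun m =>
    hom_cfc dg (rp_cont _ _) ds
  by_cases u0 : cfc (rp δ 8) d = 0
  · exact ⟨0, by simp [← hu, u0], by simp, by simp⟩
  obtain ⟨Y, Y0, Y1, Y2⟩ := hY u0
  have heS : ∀ x ∈ Cn S, Commute x e := fun x hx => Cn_comm hx he
  have one : ∀ x ∈ Cn (∅ : Set A), Commute x 1 := fun x _ => Commute.one_right x
  have one' : ∀ x ∈ Cn (∅ : Set (UA A)), Commute x 1 := fun x _ => Commute.one_right x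
  have uj : ∀ m, 0 < m → ∃ c, j c = cfc (rp δ m) d := fun m hm =>
    hj.cfc_mem hd (rp_cont _ _) (rp_zero hδ hm hδ.le)
  have cu : ∀ m, ∀ x ∈ Cn S, Commute x (cfc (rp δ m) (dg d)) := fun m x hx =>
    ((Cn_comm hx hS).symm.cfc_real _).symm
  have half : (0 : ℝ) < δ / 2 := half_pos hδ
  have q0 : (0 : ℝ) < 1 / 4 := by norm_num
  have f1 : rp (1 / 4) 2 1 = 1 := cl_of_one_le (by norm_num)
  obtain ⟨K, hK⟩ := hs.dom' (x := cfc (rp δ 2) d * cfc (rp δ 2) d) (rp_unit δ 1 d).1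
    (hj.cfc_mem hd (rp_cont (δ / 2) 1) (rp_zero half one_pos half.le)) (rp_half hδ d)
    (by rw [← mul_assoc, rp_tier (by norm_num)]) (uj 8 (by norm_num)) u0
    (rp_tier (m := 7) (by norm_num) d)
  have s2 := (h.iter heS (2 * K)).mul (f₀ := cfc (rp δ 4) (dg d)) (f₁ := cfc (rp δ 3) (dg d))
    (f₂ := cfc (rp δ 2) (dg d)) IsSelfAdjoint.cfc.star_eq (rp_tier (by norm_num) _)
    (rp_tier (by norm_num) _) (cu 2) fun z hz => by
      rw [Multiset.mem_singleton.1 (Multiset.mem_of_mem_nsmul hz), mul_one, mul_one,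
        ← rp_tier (m := 1) (m' := 4) (by norm_num), ← mul_assoc, he']
  have s3 := (hK.sub.hom dg).nsmul r
  simp only [Multiset.map_nsmul, Multiset.map_add, Multiset.map_singleton, mul_one, map_mul, hu,
    smul_smul] at s2 s3
  have s4 := Sub.cut one' (m₄ := 0) s2 (by rw [add_zero]; exact s3)
  rw [add_zero] at s4
  set z := cfc (rp δ 2) (dg d) * p * cfc (rp δ 2) (dg d) with hz
  have U2 := rp_unit δ 2 (dg d : UA A)
  have z0 : 0 ≤ z := by
    simpa only [U2.1.star_eq] using star_left_conjugate_nonneg p0 (cfc (rp δ 2) (dg d))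
  have z1 : z ≤ 1 := by
    have := star_left_conjugate_le_conjugate p1 (cfc (rp δ 2) (dg d))
    rw [U2.1.star_eq, mul_one] at this
    exact this.trans (mul_unit U2.1 U2.2 U2.1 U2.2 (Commute.refl _)).2
  have zI : z ∈ Iw j := by
    obtain ⟨c, hc⟩ := uj 2 two_pos
    rw [hz, ← hu, ← hc]
    exact hj.Iw_left _ (dg_mem_Iw c)
  obtain ⟨y, yL, y0, y1, hy⟩ := hj.unit_lift zI z0 z1
  have ys := y0.isSelfAdjoint
  have c7 : IsSelfAdjoint (cst (cfc (rp δ 7) d) : BA A) := IsSelfAdjoint.cfc.map cst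
  have s5 := s4.map_tgt (cfc (rp (1 / 4) 2)) fun q hq V hV => by
    refine cfc_mul_eq_self ?_ hV (rp_cont _ _) f1
    rcases Multiset.mem_add.1 hq with h | h <;>
      rw [Multiset.mem_singleton.1 (Multiset.mem_of_mem_nsmul h)]
    exacts [z0.isSelfAdjoint, .cfc]
  have s6 := Sub.stage (u := cfc (rp δ 4) d) (g := cfc (rp δ 5) d) (u₁ := cfc (rp δ 6) d)
    IsSelfAdjoint.cfc.star_eq (rp_unit _ _ _).1 (rp_tier (by norm_num) _)
    (by rw [mul_assoc, rp_tier (by norm_num), rp_tier (by norm_num)]) (a := (2 * K + 1) * r + r)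
    (((2 * K + 1) * P) • {(cfc (rp (1 / 4) 2) y, cfc (rp (1 / 4) 1) y)} +
      (r * K) • {(cfc (rp (1 / 4) 2) (cst (cfc (rp δ 7) d)), cst (cfc (rp δ 6) d))})
    (fun q hq => by
      rcases Multiset.mem_add.1 hq with h | h <;>
        rw [Multiset.mem_singleton.1 (Multiset.mem_of_mem_nsmul h)]
      · exact rp_tier (by norm_num) _
      · obtain ⟨k, hk⟩ := rp_fac q0 two_pos c7
        simp only
        rw [hk, ← mul_assoc, ← map_mul, rp_tier (by norm_num)])
    (by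
      simp only [Multiset.map_nsmul, Multiset.map_add, Multiset.map_singleton] at s5 ⊢
      rwa [hom_cfc _ (rp_cont _ _) ys, hom_cfc _ (rp_cont _ _) c7, hy, ← dg_apply, hu, hu])
  have zY : z * Y = Y := by rw [hz, mul_assoc, mul_assoc, Y2, Y1, Y2]
  have s7 : ∀ᶠ k in (om : Filter ℕ), Bdd.ev k (cfc (rp (1 / 4) 2) y) ≠ 0 := by
    refine Ultrafilter.eventually_not.2 fun h0 => Y0 ?_
    have h1 := Ult.norm_le_of_eventually (r := 0) (h0.mono fun k hk => by rw [hk, norm_zero])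
    rw [norm_le_zero_iff, hom_cfc _ (rp_cont _ _) ys, hy] at h1
    rw [← cfc_mul_eq_self z0.isSelfAdjoint zY (rp_cont _ _) f1, h1, zero_mul]
  obtain ⟨V, -, V1, V2⟩ := Dom.transfer (s := cst (cfc (rp δ 8) d))
    (s' := cfc (rp (1 / 4 / 2) 1) y) (R := N * (4 * P + 2)) ((s6.and s7).mono fun k ⟨h1, h2⟩ => by
      simp only [Multiset.map_nsmul, Multiset.map_add, Multiset.map_singleton] at h1
      obtain ⟨K', hK'⟩ := hs.dom' (x := cfc (rp δ 6) d) (rp_unit δ 5 d).1 (uj 4 (by norm_num))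
        (rp_tier (by norm_num) _) (rp_tier (by norm_num) _)
        (cfc_mem_sub hj.isClosed_Lf (rp_cont _ _) (rp_zero q0 two_pos q0.le) yL k) h2
        (y := Bdd.ev k (cfc (rp (1 / 4) 1) y)) (by rw [← map_mul, rp_tier (by norm_num)])
      have h3 := (Sub.absorb one (d := (K + 2) * r) (c := r * K) (b := (2 * K + 1) * P)
        (by rw [show (K + 2) * r + r * K = (2 * K + 1) * r + r by ring]; exact h1) hK').hom dg
      simp only [Multiset.map_nsmul, Multiset.map_singleton] at h3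
      refine hc (IsSelfAdjoint.cfc.map dg).star_eq
        ((IsSelfAdjoint.cfc.map (Bdd.ev k)).map dg).star_eq ?_ ?_ (by positivity) ?_ h3
      · rw [← map_mul]
        exact congrArg dg (rp_tier (by norm_num) d)
      · rw [← map_mul, ← map_mul, rp_half q0]
      · rw [mul_left_comm, mul_assoc (r * K * K' + 1)]
        refine Nat.mul_le_mul_left _ (le_trans ?_
          (Nat.mul_le_mul_right _ (Nat.le_mul_of_pos_right (K + 2) hr)))
        nlinarith [Nat.zero_le (K * P)])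
  rw [one_mul, ← dg_apply, hu] at V1
  rw [hom_cfc _ (rp_cont _ _) ys, hy] at V2
  obtain ⟨k, hk⟩ := rp_fac (δ := 1 / 4 / 2) (by norm_num) one_pos z0.isSelfAdjoint
  have core : ∀ x, x * z = z → ∀ t, x * V t = V t := fun x hx t => by
    rw [← V2 t, hk, ← mul_assoc, ← mul_assoc, hx]
  obtain ⟨n, -, n1, -, n2⟩ := exists_norm V
  have U7 := rp_unit δ 7 (dg d : UA A)
  have e1 : ∑ t, star (V t * n * cfc (rp δ 7) (dg d)) * (V t * n * cfc (rp δ 7) (dg d)) =
      star (cfc (rp δ 7) (dg d)) * (∑ t, star (V t * n) * (V t * n)) * cfc (rp δ 7) (dg d) := by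
    simp only [Finset.mul_sum, Finset.sum_mul, star_mul, mul_assoc]
  refine ⟨fun t => V t * n * cfc (rp δ 7) (dg d), ?_, ?_, fun t => ⟨?_, ?_, ?_⟩⟩
  · rw [e1, mul_one, mul_assoc, rp_tier (by norm_num), mul_assoc, (n2 _ V1).2, U7.1.star_eq,
      rp_tier (by norm_num)]
  · rw [e1]
    refine (star_left_conjugate_le_conjugate n1 _).trans ?_
    rw [U7.1.star_eq, mul_one]
    exact (mul_unit U7.1 U7.2 U7.1 U7.2 (Commute.refl _)).2
  · rw [← mul_assoc, ← mul_assoc, core p' (by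
      rw [hz, ← mul_assoc, ← mul_assoc, (cu 2 p' m2).eq, mul_assoc _ p' p, hp])]
  · rw [← mul_assoc, ← mul_assoc, core _ (by
      rw [hz, ← mul_assoc, ← mul_assoc, rp_tier (by norm_num)])]
  · rw [mul_assoc, (rp_tier2 δ (by norm_num) _).2]

end Pool.Agent.Lib.MP_30b5b4_an
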