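import Pool.Agent.Lib.MP_30b5b4_an.S.Defs
import Pool.Agent.Lib.MP_30b5b4_an.Simp
import Pool.Agent.Lib.MP_30b5b4_an.Tr

/-! Two orthogonal central elements that are full with a uniform constant. -/

open scoped CStarAlgebra ComplexOrder Topology
open Filter

set_option linter.unusedSectionVars false
set_option linter.style.haveILetI false
set_option linter.unusedVariables false
set_option linter.unusedSimpArgs false
set_option synthInstance.maxSize 1000000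

namespace Pool.Agent.Lib.MP_30b5b4_an

universe u v

variable {J : Type*} {A : Type u} [NonUnitalCStarAlgebra J] [PartialOrder J] [StarOrderedRing J]
  [CStarAlgebra A] [PartialOrder A] [StarOrderedRing A] {j : J →⋆ₙₐ[ℂ] A} {N : ℕ}

lemma dg_eq_zero {a : A} (h : (dg a : UA A) = 0) : a = 0 := by
  have := Ult.tendsto_norm (cst a)
  rw [← dg_apply, h, norm_zero] at this
  simpa using this

/-- the relations between the unit and the two orthogonal elements -/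
def Two (x : Option Bool → UA A) : Prop :=
  x none = 1 ∧ (∀ b, 0 ≤ x (some b) ∧ x (some b) ≤ 1) ∧ x (some true) * x (some false) = 0

instance : Clo (Two (A := A)) := by unfold Two; infer_instance

/-- The hypothesis of the comparison theorem. -/
lemma Idl.two_blocks (hj : Idl j) {δ : ℝ} (hδ : 0 < δ) {r P R : ℕ}
    (h2 : ∀ e ∈ Iw j, ∀ {S : Set (UA A)}, S.Finite → e ∈ S → ∀ {β : Type} [Finite β]
      (y : β → UA A), (∀ b, y b ∈ S) → (∀ b, y b ≠ 0) → (∀ b, e * y b = y b) →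
      ∃ p p' : Bool → UA A, (∀ i, p i ∈ Cn S ∧ 0 ≤ p i ∧ p i ≤ 1 ∧ p' i ∈ Cn S ∧ 0 ≤ p' i ∧
        p' i ≤ 1 ∧ p' i * p i = p i) ∧ p' true * p' false = 0 ∧
        (∀ i, Sub S e ((r + r) • {1}) (P • {p i} + r • {1})) ∧
        ∀ i b, ∃ z, y b * z ≠ 0 ∧ p i * (y b * z) = y b * z)
    (hb : ∀ {d : A}, d ∈ Set.range j → 0 ≤ d → ∀ {S : Set (UA A)} {e p p' : UA A}, dg d ∈ S →
      e ∈ S → e * cfc (rp δ 1) (dg d) = cfc (rp δ 1) (dg d) → p ∈ Cn S → p' ∈ Cn S → 0 ≤ p →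
      p ≤ 1 → p' * p = p → Sub S e ((r + r) • {1}) (P • {p} + r • {1}) →
      (cfc (rp δ 8) d ≠ 0 → ∃ Y, Y ≠ 0 ∧ p * Y = Y ∧ cfc (rp δ 2) (dg d) * Y = Y) →
      BL δ (dg d) 1 p' R)
    (T D : Finset A) (hD : ∀ d ∈ D, d ∈ Set.range j ∧ 0 ≤ d ∧ d ≤ 1) :
    ∃ x : Option Bool → UA A, (∀ l, ‖x l‖ ≤ 1) ∧ Two x ∧ (∀ l, x l ∈ Cn (dg '' (T : Set A))) ∧
      ∀ d ∈ D, ∀ b, BL δ (dg d) (x none) (x (some b)) R := by
  have hc : ∀ m, ∀ d ∈ D, (dg (cfc (rp δ m) d) : UA A) = cfc (rp δ m) (dg d) := fun m d hd =>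
    hom_cfc dg (rp_cont _ _) (hD d hd).2.1.isSelfAdjoint
  obtain ⟨e, -, e1, -, -, e2⟩ := hj.tier (ι := Empty) Empty.elim
    (fun d : D => (cfc (rp δ 1) (dg d.1) : UA A)) fun d => by
      obtain ⟨c, h⟩ := hj.cfc_mem (hD d d.2).1 (rp_cont δ 1) (rp_zero hδ one_pos hδ.le)
      rw [← hc 1 d d.2, ← h]
      exact dg_mem_Iw c
  let β := {d : D // cfc (rp δ 8) d.1 ≠ 0}
  obtain ⟨n, ⟨f⟩⟩ := Finite.exists_equiv_fin β
  let y : Fin n → UA A := fun b => cfc (rp δ 8) (dg (f.symm b).1.1)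
  let S : Set (UA A) := insert e (dg '' (T : Set A) ∪ dg '' (D : Set A) ∪ Set.range y)
  obtain ⟨p, p', p1, p2, p3, p4⟩ := h2 e e1 (S := S)
    ((((T.finite_toSet.image _).union (D.finite_toSet.image _)).union (Set.finite_range y)).insert e)
    (Set.mem_insert _ _) y (fun b => Or.inr (Or.inr ⟨b, rfl⟩))
    (fun b h => (f.symm b).2 (dg_eq_zero ((hc 8 _ (f.symm b).1.2).trans h))) fun b => by
      simp only [y]
      rw [← rp_tier (by norm_num : 1 < 8), ← mul_assoc, e2 (f.symm b).1]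
  refine ⟨fun o => o.elim 1 p', ?_, ⟨rfl, fun b => ⟨(p1 b).2.2.2.2.1, (p1 b).2.2.2.2.2.1⟩, p2⟩, ?_,
    fun d hd b => ?_⟩
  · rintro (_ | b)
    exacts [norm_one_le' _, (CStarAlgebra.norm_le_one_iff_of_nonneg _ (p1 b).2.2.2.2.1).2
      (p1 b).2.2.2.2.2.1]
  · rintro (_ | b)
    exacts [one_mem _, Cn_mono (fun x hx => Or.inr (Or.inl (Or.inl hx))) (p1 b).2.2.2.1]
  · refine hb (hD d hd).1 (hD d hd).2.1 (S := S) (Or.inr (Or.inl (Or.inr ⟨d, hd, rfl⟩)))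
      (Set.mem_insert _ _) (e2 ⟨d, hd⟩) (p1 b).1 (p1 b).2.2.2.1 (p1 b).2.1 (p1 b).2.2.1
      (p1 b).2.2.2.2.2.2 (p3 b) fun h0 => ?_
    obtain ⟨z, z1, z2⟩ := p4 b (f ⟨⟨d, hd⟩, h0⟩)
    refine ⟨_, z1, z2, ?_⟩
    simp only [y, Equiv.symm_apply_apply]
    rw [← mul_assoc, rp_tier (by norm_num)]

/-- From the comparison theorem to full orthogonal elements. -/
lemma full2_of {e : UA A} {C : ℕ} (h : ∀ {S : Set (UA A)}, S.Finite → e ∈ S →
    ∃ x : Option Bool → UA A, Two x ∧ (∀ l, x l ∈ Cn S) ∧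
      ∀ b, Dom S e (x none) (x (some b)) C) : Full2 e C := fun S hS he => by
  obtain ⟨x, ⟨x1, x2, x3⟩, x4, x5⟩ := h hS he
  exact ⟨fun b => x (some b), fun b => ⟨x4 _, x2 b⟩, x3, fun b => x1 ▸ x5 b⟩

lemma exists_del (N : ℕ) : ∃ δ : ℝ, 0 < δ ∧ N * (9 * δ) ≤ 1 / 4 := by
  refine ⟨1 / (36 * (N + 1)), by positivity, ?_⟩
  rw [mul_one_div, ← mul_div_assoc, div_le_div_iff₀ (by positivity) (by positivity)]
  linarith

end Pool.Agent.Lib.MP_30b5b4_an
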