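import Pool.Agent.Lib.MP_30b5b4_an.S.D
import Pool.Agent.Lib.MP_30b5b4_an.S.H
import Pool.Agent.Lib.MP_30b5b4_an.S.K
import Pool.Agent.Lib.MP_30b5b4_an.S.L1
import Pool.Agent.Lib.MP_30b5b4_an.S.L2a

/-! Two orthogonal central elements that are full with a uniform constant. -/

open scoped CStarAlgebra ComplexOrder Topology

set_option linter.unusedSectionVars false

namespace Pool.Agent.Lib.MP_30b5b4_an

universe u v

variable {J : Type*} {A : Type u} [NonUnitalCStarAlgebra J] [PartialOrder J] [StarOrderedRing J]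
  [CStarAlgebra A] [PartialOrder A] [StarOrderedRing A] {j : J →⋆ₙₐ[ℂ] A} {N N' : ℕ}

theorem Smp.divP' (hj : Idl j) (hs : Smp j) (hv : Hv j) (hI : Ap j N False) (hA : ApA A N')
    {e : UA A} (he : e ∈ Iw j) : DivP (Fin N × Fin N') e :=
  hI.divP hj (fun _ h m hm _ hd d0 => hA.ndiv hj hs hv h m hm hd d0) he

theorem Smp.full2 (hj : Idl j) (hs : Smp j) (hv : Hv j) (hI : Ap j N False) (hA : ApA A N') :
    ∃ C, ∀ e ∈ Iw j, Full2 e C := by
  obtain ⟨r, P, hr, h⟩ := exists_two.{u} (Fin N × Fin N')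
  obtain ⟨δ, hδ, hN⟩ := exists_del N
  refine ⟨N * (N' * (4 * P + 2)), fun e he => full2_of fun hS he' => ?_⟩
  obtain ⟨x, -, hx⟩ := hI.cmp hj hδ hN Two (fun _ : Bool => none) some _
    (hj.two_blocks hδ (fun e he _ hS he' _ _ y => h (hs.divP' hj hv hI hA he) hS he' y)
      fun hd d0 _ _ _ _ a1 a2 a3 a4 a5 a6 a7 a8 a9 a10 => hs.block hj
        (fun a b c d _ _ _ e f g => hA.cmp0 a b c d e f g) hδ hd d0 a1 a2 a3 a4 a5 a6 a7 a8 hr a9 a10)
    hS he' he
  exact ⟨x, hx⟩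

end Pool.Agent.Lib.MP_30b5b4_an
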