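import Pool.Agent.Lib.MP_30b5b4_an.S.L3a
import Pool.Agent.Lib.MP_30b5b4_an.S.G3b
import Pool.Agent.Lib.MP_30b5b4_an.S.L2

/-! Simple ideals of finite nuclear dimension have slots. -/

open scoped CStarAlgebra ComplexOrder Topology
open Filter

set_option linter.unusedSectionVars false
set_option linter.style.haveILetI false
set_option linter.unusedVariables false
set_option linter.unusedSimpArgs false
set_option synthInstance.maxSize 1000000

namespace Pool.Agent.Lib.MP_30b5b4_an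

universe u v

variable {J : Type*} {A : Type u} [NonUnitalCStarAlgebra J] [PartialOrder J] [StarOrderedRing J]
  [CStarAlgebra A] [PartialOrder A] [StarOrderedRing A] {j : J →⋆ₙₐ[ℂ] A} {N : ℕ}

instance Clo.sys {Γ : Type v} [Env Γ] {K : Type} [Fintype K] (Φ : Γ → K → K → UA A) (w : Γ → UA A)
    [hΦ : ∀ l m, Nt fun g => Φ g l m] [hw : Nt w] : Clo fun g => Sys (Φ g) (w g) :=
  Clo.of_iff (Q := fun g => (∀ l m, star (Φ g l m) = Φ g m l) ∧
    (∀ l m m', Φ g l m * Φ g m m' = w g * Φ g l m') ∧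
    (∀ l m l' m', m ≠ l' → Φ g l m * Φ g l' m' = 0) ∧ ∑ l, Φ g l l = w g ∧ 0 ≤ w g ∧ w g ≤ 1)
    fun g => ⟨fun h => ⟨h.1, h.2, h.3, h.4, h.5, h.6⟩,
      fun h => ⟨h.1, h.2.1, h.2.2.1, h.2.2.2.1, h.2.2.2.2.1, h.2.2.2.2.2⟩⟩

/-- a local unit for the first tiers of finitely many constants of the ideal -/
lemma Idl.unit_rp (hj : Idl j) {δ : ℝ} (hδ : 0 < δ) (D : Finset A)
    (hD : ∀ d ∈ D, d ∈ Set.range j ∧ 0 ≤ d) :
    ∃ e ∈ Iw j, ∀ d ∈ D, e * cfc (rp δ 1) (dg d) = cfc (rp δ 1) (dg d) := by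
  obtain ⟨e, -, e1, -, -, e2⟩ := hj.tier (ι := Empty) Empty.elim
    (fun d : D => cfc (rp δ 1) (dg (d : A))) fun d => by
      obtain ⟨c, hc⟩ := hj.cfc_mem (hD d d.2).1 (rp_cont δ 1) (rp_zero hδ one_pos hδ.le)
      rw [← hom_cfc dg (rp_cont δ 1) (hD d d.2).2.isSelfAdjoint, ← hc]
      exact dg_mem_Iw c
  exact ⟨e, e1, fun d hd => e2 ⟨d, hd⟩⟩

theorem Ap.slots (hI : Ap j N False) (hj : Idl j) (hA : ApA A N)
    (hw : ∀ (K : Type) [Fintype K] [Nonempty K], ∃ C, ∀ e ∈ Iw j, Weak K e C)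
    {e : UA A} (he : e ∈ Iw j) : Slots e := by
  classical
  intro I _ hI2 S hS
  obtain ⟨i₀⟩ : Nonempty I := Fintype.card_pos_iff.1 (by omega)
  let K := I × Fin ((N + 1) * ((N + 1) * 2))
  let o : K := (i₀, ⟨0, by positivity⟩)
  haveI : Nonempty K := ⟨o⟩
  obtain ⟨C, hC⟩ := hw K
  have n0 : (0 : ℝ) < (N + 1 : ℕ) := by positivity
  obtain ⟨δ, hδ, hN⟩ : ∃ δ : ℝ, 0 < δ ∧ (N + 1 : ℕ) * (9 * δ) ≤ 1 / 4 :=
    ⟨1 / (36 * (N + 1 : ℕ)), by positivity, le_of_eq (by field_simp; norm_num)⟩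
  obtain ⟨x, -, ⟨x1, x2, x3, x4, x5, x6, x7⟩, x8, x9⟩ := (hI.mono N.le_succ).cmp hj hδ hN
    (lam := K × K ⊕ Fin 4) (ρ := Unit) (fun x => Sys (fun l m => x (.inl (l, m))) (x (.inr 0)) ∧
      star (x (.inr 1)) = x (.inr 1) ∧ star (x (.inr 2)) = x (.inr 2) ∧
      x (.inr 1) * x (.inr 1) + x (.inr 2) * x (.inr 2) = 1 ∧ x (.inr 0) * x (.inr 1) = x (.inr 1) ∧
      (∀ l m, Commute (x (.inr 1)) (x (.inl (l, m)))) ∧ x (.inl (o, o)) * x (.inr 3) = x (.inr 3))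
    (fun _ => .inr 2) (fun _ => .inr 3) ((N + 1) * 2) (fun T D hD => by
      obtain ⟨f, f1, f2⟩ := hj.unit_rp hδ D fun d hd => ⟨(hD d hd).1, (hD d hd).2.1⟩
      let S₀ : Set (UA A) := insert f (dg '' (T : Set A) ∪ dg '' (D : Set A))
      obtain ⟨Φ, w, h1, h2, h3⟩ := (hC f f1).stack o (C * Fintype.card K + 1) (S := S₀)
        (((T.finite_toSet.image _).union (D.finite_toSet.image _)).insert _) (Set.mem_insert _ _)
      obtain ⟨Ψ, u, ν, μ, E, p, p₀, s1, s2, s3, s4, s5, s6, s7, s8, s9, s10, s11, s12, s13, s14,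
        s15, s16, s17⟩ := h1.sharp' o
      obtain ⟨m1, m2, m3, m4, m5, m6⟩ := s2 S₀ h2
      refine ⟨Sum.elim (fun l => Ψ l.1 l.2) ![u, ν, μ, p], ?_, ⟨s1, s3, s4, s5, s6, s7, s8⟩,
        fun l => Cn_mono (T := S₀) (Set.subset_union_left.trans (Set.subset_insert _ _)) ?_,
        fun d hd _ => (hA.mono N.le_succ).blW δ (S := S₀)
          (Set.mem_insert_of_mem _ (Or.inr ⟨d, hd, rfl⟩)) (f2 d hd) m4 m5 m6 s11 s13 s14 s10 s9 s12
          (Nat.succ_pos _) (by omega) h3⟩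
      · rintro (l | l)
        · exact s1.norm_le _ _
        · fin_cases l
          exacts [norm_le_one_of s1.w0 s1.w1, s15, s16, s17]
      · rcases l with l | l
        · exact m1 _ _
        · fin_cases l
          exacts [s1.mem m1, m2, m3, m5]) (hS.insert e) (Set.mem_insert _ _) he
  obtain ⟨c, y, γ, h1, h2, h3⟩ := slot_alg' x1 o (Set.mem_insert e S) (fun l m => x8 _) (x8 _) (x8 _)
    x2 x3 x4 x5 x6 x7 (x9 ())
  exact ⟨c, y, γ, h1, fun l => Cn_mono (Set.subset_insert _ _) (h2 l),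
    fun s => Cn_mono (Set.subset_insert _ _) (h3 s)⟩

theorem Smp.slots (hj : Idl j) (hs : Smp j) (hv : Hv j) (hI : Ap j N False) (hA : ApA A N)
    {e : UA A} (he : e ∈ Iw j) : Slots e := by
  obtain ⟨C, hC⟩ := hs.full2 hj hv hI hA
  exact hI.slots hj hA (fun K _ _ =>
    ⟨_, fun e he => (hs.divP' hj hv hI hA he).weak (hC e he) K⟩) he

end Pool.Agent.Lib.MP_30b5b4_an
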