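import Pool.Agent.Lib.MP_30b5b4_an.S.Q3
import Pool.Agent.Lib.MP_30b5b4_an.S.L3

/-! The formula for extensions whose ideal is built from finitely many pieces. -/

open scoped CStarAlgebra ComplexOrder

namespace Pool.Agent.Lib.MP_30b5b4_an

universe u v

theorem slotSt : SlotSt.{u, v} := by
  intro J A _ _ _ _ _ _ j N hj hs hv hI hA e he _ _
  exact hs.slots hj hv hI hA he

theorem Ext.built {I E D : Type*} [NonUnitalCStarAlgebra I] [PartialOrder I] [StarOrderedRing I]
    [NonUnitalCStarAlgebra E] [PartialOrder E] [StarOrderedRing E]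
    [NonUnitalCStarAlgebra D] [PartialOrder D] [StarOrderedRing D]
    {ι : I →⋆ₙₐ[ℂ] E} {π : E →⋆ₙₐ[ℂ] D} (h : Ext ι π) (hI : Built I) :
    nucDim E = Max.max (nucDim I) (nucDim D) :=
  h.built' (smpSt_of slotSt) hI

end Pool.Agent.Lib.MP_30b5b4_an
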