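import Pool.Agent.Lib.MP_30b5b4_an.S.P2a

/-! Approximations pass to quotients. -/

open scoped CStarAlgebra ComplexOrder Topology
open Filter

set_option linter.unusedSectionVars false
set_option linter.style.haveILetI false
set_option linter.unusedVariables false
set_option linter.unusedSimpArgs false

namespace Pool.Agent.Lib.MP_30b5b4_an

universe u v

variable {A : Type u} {D : Type v} [CStarAlgebra A] [PartialOrder A] [StarOrderedRing A]
  [CStarAlgebra D] [PartialOrder D] [StarOrderedRing D]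

lemma uquot (c : ℕ → CA A) (π : A →⋆ₐ[ℂ] D) : ∃ d : ℕ → CA D, ∀ a, Vis c (dg a) →
    sT d (π a) = Ult.mk (Bdd.map (fun _ => lin π) (fun _ => hom_norm_le π) (bT c (cst a))) := by
  let ρ : ∀ k, (c k).F →ₗ[ℂ] D := fun k => lin π ∘ₗ (c k).φ
  have ρ0 : ∀ k, OZ (ρ k) := fun k => (c k).oz.map π fun _ => rfl
  have ρ1 : ∀ k, ρ k 1 ≤ 1 := fun k => by simpa [ρ] using hom_mono π (c k).one
  choose E L e0 e1 l0 l1 l2 l3 l4 l5 using fun k => (ρ0 k).exists_expect (ρ1 k)
  have e2 := fun k => (e0 k).norm_le (e1 k)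
  have s0 : ∀ k, 0 ≤ (c k).ψ 1 := fun k => (c k).cp.one_nonneg
  have s1 : ∀ k, (c k).ψ 1 ≤ 1 := fun k =>
    le_one_of_norm (s0 k) (((c k).le 1).trans (norm_one_le' _))
  let d : ℕ → CA D := fun k =>
    { F := (c k).F
      ψ := cj (sq ((c k).ψ 1)) (E k)
      φ := ρ k
      cp := (e0 k).cj _
      le := ((e0 k).cj _).norm_le (by
        refine (star_left_conjugate_le_conjugate (e1 k) _).trans ?_
        rw [mul_one, sq_star, sq_mul_sq (s0 k)]
        exact s1 k)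
      oz := ρ0 k
      one := ρ1 k
      mem := fun _ => ⟨_, rfl⟩ }
  refine ⟨d, fun a ha => ?_⟩
  let Ψ : A → Bdd fun k => (c k).F := fun x => Bdd.of (fun k => (c k).ψ x) ‖x‖ fun k => (c k).le x
  let e : Bdd fun k => (c k).F := Bdd.of (fun k => E k (π a)) _ fun k => e2 k _
  let l : Bdd fun k => (c k).F := Bdd.of L 1 l1
  have S0 : 0 ≤ Ψ 1 := Bdd.nonneg s0
  have lc : ∀ z, Commute l z := fun z => Bdd.ext fun k => by simpa [l] using (l2 k _).eq
  have l6 : ∀ k y, E k (ρ k y) = L k * y := fun k y => by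
    rw [← mul_one (ρ k y), l4, (l2 k y).eq, mul_assoc, l3]
  have t : ∀ {x y : BA A}, Ult.mk x = Ult.mk y →
      Tendsto (fun k => ‖Bdd.ev k (x - y)‖) om (𝓝 0) := fun {x y} h => by
    have := Ult.tendsto_norm (x - y)
    rwa [map_sub, h, sub_self, norm_zero] at this
  obtain ⟨v1, v2⟩ := ha
  rw [← map_one Ult.mk, dg_apply, uT_mk, uT_mk, ← map_mul] at v1 v2
  have a1 : Ult.mk (l * Ψ a - l * Ψ 1 * e) = 0 := Ult.mk_eq_zero_of_le (t v1) fun k => by
    refine le_trans (le_of_eq (congrArg _ ?_)) ((e2 k _).trans (hom_norm_le π _))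
    simp only [map_sub, map_mul, l, Ψ, e, Bdd.ev_of, ev_bT, ev_cst, map_one]
    rw [← l6, ← l4]
    rfl
  have a2 : Ult.mk (l * Ψ a - l * e * Ψ 1) = 0 := Ult.mk_eq_zero_of_le (t v2) fun k => by
    refine le_trans (le_of_eq (congrArg _ ?_)) ((e2 k _).trans (hom_norm_le π _))
    have := congrArg star (l4 k ((c k).ψ 1) (star (π a)))
    rw [← (e0 k).map_star, star_mul, star_star, ← (ρ0 k).cp.map_star, star_mul, star_mul, l0,
      ← (e0 k).map_star, star_star, (s0 k).star_eq, ← mul_assoc, ← (l2 k _).eq] at this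
    simp only [map_sub, map_mul, l, Ψ, e, Bdd.ev_of, ev_bT, ev_cst, map_one]
    rw [← l6, mul_assoc, ← this]
    rfl
  rw [map_sub, sub_eq_zero] at a1 a2
  have a3 : Commute (Ult.mk (sq (Ψ 1))) (Ult.mk (l * e)) := by
    rw [hom_sq _ S0]
    refine Commute.cfc_real ?_ _
    change _ * _ = _ * _
    rw [← map_mul, ← map_mul, ← a2, a1, ← mul_assoc, (lc _).eq]
  have a4 : Ult.mk (l * (sq (Ψ 1) * e * sq (Ψ 1) - Ψ a)) = 0 := by
    rw [mul_sub, map_sub, a2, ← mul_assoc, ← mul_assoc, (lc _).eq, mul_assoc _ l, map_mul, map_mul,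
      a3.eq, mul_assoc, ← map_mul Ult.mk (sq _), sq_mul_sq S0, ← map_mul, sub_self]
  have a5 := Ult.tendsto_norm (l * (sq (Ψ 1) * e * sq (Ψ 1) - Ψ a))
  rw [a4, norm_zero] at a5
  rw [sT, ← sub_eq_zero, ← map_sub]
  refine Ult.mk_eq_zero_of_le a5 fun k => ?_
  rw [map_mul, map_sub (Bdd.ev k), map_sub (Bdd.ev k), map_mul, map_mul, hom_sq _ S0]
  refine le_trans (le_of_eq (congrArg _ ?_)) (l5 k _)
  rw [map_sub]
  congr 1
  change ρ k (star _ * _ * _) = _
  rw [sq_star]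
  rfl

theorem Ap.quot {N : ℕ} {p : Prop} (hA : Ap (NonUnitalStarAlgHom.id ℂ A) N p) (π : A →⋆ₐ[ℂ] D)
    (hπ : Function.Surjective π) : Ap (NonUnitalStarAlgHom.id ℂ D) N False := by
  intro S ε hε
  choose a ha using fun b : S => hπ b
  obtain ⟨c, -, c2, c3, -⟩ := hA.ultra ⟨Function.injective_id, fun a b => ⟨a * b, rfl⟩⟩ (w := 1)
    (fun _ => ⟨_, rfl⟩) zero_le_one le_rfl (fun b => dg (a b)) (by simp)
  choose d hd using fun i => uquot (c i) π
  obtain ⟨T, hT⟩ := Ult.exists_map (A := fun _ => A) (fun _ => lin π) fun _ => hom_norm_le π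
  obtain ⟨e, he⟩ := sT_finish d S (ε := ε) fun b hb => by
    have h1 := congrArg T (c3 ⟨b, hb⟩)
    simp only [map_sum, dg_apply, uT_mk, hT, ← hd _ _ (c2 _ ⟨b, hb⟩), ha] at h1
    rw [h1, dg_apply, ← map_sub, show Bdd.map (fun _ => lin π) (fun _ => hom_norm_le π)
      (cst (a ⟨b, hb⟩)) = cst b from Bdd.ext fun k => ha ⟨b, hb⟩]
    simpa using hε
  exact ⟨e, False.elim, he⟩

lemma NucDimLE.quot_unit {E D : Type*} [NonUnitalCStarAlgebra E] [PartialOrder E]
    [StarOrderedRing E] [NonUnitalCStarAlgebra D] [PartialOrder D] [StarOrderedRing D] {n : ℕ}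
    (h : NucDimLE E n) (π : E →⋆ₙₐ[ℂ] D) (hπ : Function.Surjective π) : NucDimLE D⁺¹ n :=
  ((h.unitization.ap _).quot (Unitization.starMap π)
    (Unitization.starMap_surjective hπ)).nucDimLE Function.injective_id

end Pool.Agent.Lib.MP_30b5b4_an
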