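import Pool.Agent.Lib.MP_30b5b4_an.S.Q1
import Pool.Agent.Lib.MP_30b5b4_an.S.P2

/-! From good ideals to the formula for extensions. -/

open scoped CStarAlgebra ComplexOrder Topology
open Filter

set_option linter.unusedSectionVars false
set_option linter.style.haveILetI false
set_option linter.unusedVariables false
set_option linter.unusedSimpArgs false

namespace Pool.Agent.Lib.MP_30b5b4_an

universe u v

lemma NucDimLE.of_unit {E : Type*} [NonUnitalCStarAlgebra E] [PartialOrder E] [StarOrderedRing E]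
    {n : ℕ} (h : NucDimLE E⁺¹ n) : NucDimLE E n :=
  ((h.ap _).ideal (idl_inc E) (fstS E) fstS_ker).nucDimLE (idl_inc E).inj

/-- The reduction of the simple case to ideals without minimal projections and two colours. -/
theorem Smp.good_of {J : Type*} {A : Type u} [NonUnitalCStarAlgebra J] [PartialOrder J]
    [StarOrderedRing J] [CStarAlgebra A] [PartialOrder A] [StarOrderedRing A] {j : J →⋆ₙₐ[ℂ] A}
    (hj : Idl j) (hs : Smp j)
    (H : Hv j → ∀ (A' : Type u) [CStarAlgebra A'] [PartialOrder A'] [StarOrderedRing A']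
      (π : A →⋆ₐ[ℂ] A'), Function.Surjective π → (∀ a, π a = 0 → ∃ b, j b = a) → ∀ m N : ℕ, 2 ≤ N →
      Ap j (m + 1) False → Ap (NonUnitalStarAlgHom.id ℂ A) (m + 1) False →
      Ap (NonUnitalStarAlgHom.id ℂ A') N False → Ap (NonUnitalStarAlgHom.id ℂ A) N False) :
    Good j := by
  rcases hs.hv_or_rr hj with hv | hr
  · intro A' _ _ _ π hπ hk n hI hD
    have h := (idl_self A).main_sum hj (fun x => ⟨j x, rfl⟩) (idl_self A') π (fun a => (hk a).1) hπ
      (fun a => ⟨π a, rfl⟩) hI hD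
    rcases n with _ | n
    · exact h
    · rw [Nat.add_right_comm] at h
      exact H hv A' π hπ (fun a => (hk a).1) _ _ (by omega) (hI.mono (by omega)) h hD
  · exact hr.good hj

variable {I E D : Type*} [NonUnitalCStarAlgebra I] [PartialOrder I] [StarOrderedRing I]
  [NonUnitalCStarAlgebra E] [PartialOrder E] [StarOrderedRing E]
  [NonUnitalCStarAlgebra D] [PartialOrder D] [StarOrderedRing D]
  {ι : I →⋆ₙₐ[ℂ] E} {π : E →⋆ₙₐ[ℂ] D}

theorem NucDimLE.of_surj {n : ℕ} (h : NucDimLE E n) (π : E →⋆ₙₐ[ℂ] D)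
    (hπ : Function.Surjective π) : NucDimLE D n := (h.quot_unit π hπ).of_unit

theorem Ext.quot (h : Ext ι π) {n : ℕ} (hE : NucDimLE E n) : NucDimLE D n := hE.of_surj π h.surj

theorem quotSt : QuotSt.{v} := by
  intro I E D _ _ _ _ _ _ _ _ _ ι π h n hE
  exact h.quot hE

lemma NucDimLE.mono' {n m : ℕ} (h : NucDimLE E n) (hm : n ≤ m) : NucDimLE E m :=
  ((h.ap (inc E)).mono (Nat.succ_le_succ hm)).nucDimLE (idl_inc E).inj

theorem Ext.of_good (h : Ext ι π) (hg : Good ((inc E).comp ι)) {n : ℕ} (hI : NucDimLE I n)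
    (hD : NucDimLE D n) : NucDimLE E n := by
  obtain ⟨Q, _, p, p1, p2⟩ := h.idl.exists_quot
  letI := CStarAlgebra.spectralOrder Q
  haveI := CStarAlgebra.spectralOrderedRing Q
  obtain ⟨ρ, hρ⟩ := exists_induced (Unitization.starMap π) (Unitization.starMap_surjective h.surj) p
    fun a ha => (p2 a).2 (h.ker a ha)
  have h1 := (hD.unitization.ap _).quot ρ fun y => by
    obtain ⟨a, rfl⟩ := p1 y
    exact ⟨_, hρ a⟩
  exact ((hg Q p p1 p2 n (hI.ap _) h1).nucDimLE Function.injective_id).of_unit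

theorem Ext.eq_of_good (h : Ext ι π) (hg : Good ((inc E).comp ι)) :
    nucDim E = Max.max (nucDim I) (nucDim D) := by
  refine le_antisymm ?_ (max_le (le_iInf₂ fun n hn => iInf₂_le n (h.ideal hn))
    (le_iInf₂ fun n hn => iInf₂_le n (h.quot hn)))
  rcases iInf_cases (NucDimLE I) with h1 | ⟨n, hn, h1⟩
  · rw [nucDim.eq_def I, h1]; simp
  rcases iInf_cases (NucDimLE D) with h2 | ⟨m, hm, h2⟩
  · rw [nucDim.eq_def D, h2]; simp
  rw [nucDim.eq_def I, nucDim.eq_def D, h1, h2, ← Nat.mono_cast.map_max]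
  exact iInf₂_le _ (h.of_good hg (hn.mono' (le_max_left _ _)) (hm.mono' (le_max_right _ _)))

theorem Ext.built' {I : Type v} {E : Type u} [NonUnitalCStarAlgebra I] [PartialOrder I]
    [StarOrderedRing I] [NonUnitalCStarAlgebra E] [PartialOrder E] [StarOrderedRing E]
    {ι : I →⋆ₙₐ[ℂ] E} {π : E →⋆ₙₐ[ℂ] D} (hS : SmpSt.{u, v}) (h : Ext ι π) (hI : Built I) :
    nucDim E = Max.max (nucDim I) (nucDim D) :=
  h.eq_of_good (hI.good' quotSt hS h.idl)

end Pool.Agent.Lib.MP_30b5b4_an
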