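import Pool.Agent.Lib.MP_30b5b4_an.Merge

/-! The quotient of a unital algebra by an ideal. -/

open scoped CStarAlgebra ComplexOrder Topology
open Filter

set_option linter.unusedSectionVars false
set_option linter.style.haveILetI false
set_option linter.unusedVariables false
set_option linter.unusedSimpArgs false

namespace Pool.Agent.Lib.MP_30b5b4_an

universe u v

variable {J : Type*} {A : Type u} [NonUnitalCStarAlgebra J] [PartialOrder J] [StarOrderedRing J]
  [CStarAlgebra A] [PartialOrder A] [StarOrderedRing A] {j : J →⋆ₙₐ[ℂ] A}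

namespace Quo

noncomputable def qn (j : J →⋆ₙₐ[ℂ] A) (a : A) : ℝ := Metric.infDist a (Set.range j)

lemma qn_nonneg (a : A) : 0 ≤ qn j a := Metric.infDist_nonneg

lemma qn_le (a : A) (b : J) : qn j a ≤ ‖a - j b‖ := by
  rw [← dist_eq_norm]
  exact Metric.infDist_le_dist_of_mem ⟨b, rfl⟩

lemma qn_le_norm (a : A) : qn j a ≤ ‖a‖ := by simpa using qn_le (j := j) a 0

lemma qn_lt (a : A) {ε : ℝ} (hε : 0 < ε) : ∃ b, ‖a - j b‖ < qn j a + ε := by
  obtain ⟨_, ⟨b, rfl⟩, hb⟩ := (Metric.infDist_lt_iff (s := Set.range j) (x := a)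
    (r := qn j a + ε) ⟨_, 0, rfl⟩).1 (lt_add_of_pos_right _ hε)
  exact ⟨b, by rwa [← dist_eq_norm]⟩

lemma qn_map {a a' : A} {C : ℝ} (hC : 0 ≤ C) (h : ∀ b, ∃ b', ‖a' - j b'‖ ≤ C * ‖a - j b‖) :
    qn j a' ≤ C * qn j a := by
  refine le_of_forall_pos_le_add fun ε hε => ?_
  obtain ⟨b, hb⟩ := qn_lt (j := j) a (ε := ε / (C + 1)) (by positivity)
  obtain ⟨b', hb'⟩ := h b
  have h1 : C * (ε / (C + 1)) ≤ ε := by
    rw [mul_div_assoc', div_le_iff₀ (by positivity)]; nlinarith
  nlinarith [qn_le (j := j) a' b', mul_le_mul_of_nonneg_left hb.le hC]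

lemma qn_sub (a : A) (b : J) : qn j (a - j b) = qn j a := by
  apply le_antisymm
  · simpa using qn_map (j := j) (a := a) (a' := a - j b) zero_le_one fun c =>
      ⟨c - b, by simp [map_sub]⟩
  · simpa using qn_map (j := j) (a := a - j b) (a' := a) zero_le_one fun c =>
      ⟨b + c, by simp [map_add, sub_sub]⟩

lemma qn_add (a a' : A) : qn j (a + a') ≤ qn j a + qn j a' := by
  refine le_of_forall_pos_le_add fun ε hε => ?_
  obtain ⟨b, hb⟩ := qn_lt (j := j) a (half_pos hε)
  obtain ⟨b', hb'⟩ := qn_lt (j := j) a' (half_pos hε)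
  have h1 := qn_le (j := j) (a + a') (b + b')
  rw [map_add, add_sub_add_comm] at h1
  linarith [norm_add_le (a - j b) (a' - j b')]

lemma qn_smul (c : ℂ) (a : A) : qn j (c • a) ≤ ‖c‖ * qn j a :=
  qn_map (norm_nonneg _) fun b => ⟨c • b, by rw [map_smul, ← smul_sub, norm_smul]⟩

lemma qn_star_le (a : A) : qn j (star a) ≤ qn j a := by
  simpa using qn_map (j := j) (a := a) (a' := star a) zero_le_one fun b =>
    ⟨star b, by rw [map_star, ← star_sub, norm_star, one_mul]⟩

lemma qn_star (a : A) : qn j (star a) = qn j a :=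
  le_antisymm (qn_star_le a) (by simpa using qn_star_le (j := j) (star a))

lemma qn_neg (a : A) : qn j (-a) = qn j a := by
  have h : ∀ a, qn j (-a) ≤ qn j a := fun a => by simpa using qn_smul (j := j) (-1) a
  exact le_antisymm (h a) (by simpa using h (-a))

lemma qn_mul (hj : Idl j) (a a' : A) : qn j (a * a') ≤ qn j a * qn j a' := by
  have h1 : ∀ x : A, qn j (x * a') ≤ ‖x‖ * qn j a' := fun x =>
    qn_map (norm_nonneg _) fun b => by
      obtain ⟨c, hc⟩ := hj.left x b
      exact ⟨c, by rw [hc, ← mul_sub]; exact norm_mul_le _ _⟩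
  refine le_of_forall_pos_le_add fun ε hε => ?_
  have h0 := qn_nonneg (j := j) a'
  obtain ⟨b, hb⟩ := qn_lt (j := j) a (ε := ε / (qn j a' + 1)) (by positivity)
  obtain ⟨c, hc⟩ := hj.right a' b
  have h2 := h1 (a - j b)
  rw [sub_mul, ← hc, qn_sub] at h2
  have h3 : ε / (qn j a' + 1) * qn j a' ≤ ε := by
    rw [div_mul_eq_mul_div, div_le_iff₀ (by positivity)]; nlinarith
  nlinarith [mul_le_mul_of_nonneg_right hb.le h0]

lemma qn_cstar (hj : Idl j) (a : A) : qn j a * qn j a ≤ qn j (star a * a) := by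
  refine le_of_forall_pos_le_add fun ε hε => ?_
  obtain ⟨b, hb⟩ := qn_lt (j := j) (star a * a) (half_pos hε)
  obtain ⟨t, t0, t1, -, t2⟩ := hj.exists_qc_unitary ∅ (by simp) {b} (half_pos hε)
  have t3 := t2 b (by simp)
  have hn := NonUnitalStarAlgHom.norm_map j hj.inj
  have e0 := nu_nonneg j t0
  have e1 : j t ≤ 1 := le_one_of_norm e0 (by rwa [hn])
  have e2 : ‖1 - j t‖ ≤ 1 := norm_le_one_of (sub_nonneg.2 e1) (sub_le_self _ e0)
  obtain ⟨c, hc⟩ := hj.left a t
  have h1 := qn_le (j := j) a c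
  rw [hc, ← mul_one_sub] at h1
  have h2 : ‖a * (1 - j t)‖ * ‖a * (1 - j t)‖ =
      ‖(1 - j t) * (star a * a - j b) * (1 - j t) - j (t * b - b) * (1 - j t)‖ := by
    rw [← CStarRing.norm_star_mul_self, star_mul, (sub_nonneg.2 e1).star_eq, map_sub, map_mul]
    congr 1
    noncomm_ring
  have h3 : ‖(1 - j t) * (star a * a - j b) * (1 - j t)‖ ≤ 1 * ‖star a * a - j b‖ * 1 :=
    norm_mul₃_le.trans (by gcongr)
  have h4 : ‖j (t * b - b) * (1 - j t)‖ ≤ ε / 2 * 1 :=
    (norm_mul_le _ _).trans (by rw [hn]; gcongr)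
  have h5 := mul_le_mul h1 h1 (qn_nonneg a) (norm_nonneg _)
  rw [h2] at h5
  linarith [norm_sub_le ((1 - j t) * (star a * a - j b) * (1 - j t)) (j (t * b - b) * (1 - j t))]

def Pre (hj : Idl j) : Type u := A

variable (hj : Idl j)

noncomputable instance : Ring (Pre hj) := inferInstanceAs (Ring A)
noncomputable instance : StarRing (Pre hj) := inferInstanceAs (StarRing A)
noncomputable instance : Algebra ℂ (Pre hj) := inferInstanceAs (Algebra ℂ A)

noncomputable def semi : RingSeminorm (Pre hj) where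
  toFun x := qn j x
  map_zero' := le_antisymm ((qn_le_norm (j := j) (0 : A)).trans_eq norm_zero) (qn_nonneg _)
  add_le' x y := qn_add (j := j) x y
  neg' x := qn_neg (j := j) x
  mul_le' x y := qn_mul hj x y

noncomputable instance : SeminormedRing (Pre hj) := (semi hj).toSeminormedRing

noncomputable instance : NormedAlgebra ℂ (Pre hj) where
  norm_smul_le c x := qn_smul (j := j) c x

lemma norm_star' (x : Pre hj) : ‖star x‖ = ‖x‖ := qn_star (j := j) x

def Q : Type u := SeparationQuotient (Pre hj)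

noncomputable instance : NormedRing (Q hj) :=
  inferInstanceAs (NormedRing (SeparationQuotient (Pre hj)))
noncomputable instance : NormedAlgebra ℂ (Q hj) :=
  inferInstanceAs (NormedAlgebra ℂ (SeparationQuotient (Pre hj)))

noncomputable def mk0 (x : A) : Q hj := SeparationQuotient.mk (X := Pre hj) x

lemma mk0_surj : Function.Surjective (mk0 hj) := SeparationQuotient.surjective_mk (X := Pre hj)

lemma norm_mk0 (x : A) : ‖mk0 hj x‖ = qn j x := rfl

noncomputable instance : Star (Q hj) where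
  star := SeparationQuotient.lift (fun x : Pre hj => SeparationQuotient.mk (X := Pre hj) (star x))
    fun x y h => by
      apply SeparationQuotient.mk_eq_mk.2
      rw [Metric.inseparable_iff, dist_eq_norm] at h ⊢
      rw [← h, ← norm_star', star_sub, star_star, star_star]

lemma star_mk0 (x : A) : star (mk0 hj x) = mk0 hj (star x) := rfl
lemma mk0_add (x y : A) : mk0 hj (x + y) = mk0 hj x + mk0 hj y := rfl
lemma mk0_mul (x y : A) : mk0 hj (x * y) = mk0 hj x * mk0 hj y := rfl
lemma mk0_smul (c : ℂ) (x : A) : mk0 hj (c • x) = c • mk0 hj x := rfl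

noncomputable instance : StarRing (Q hj) where
  star_involutive x := by
    obtain ⟨x, rfl⟩ := mk0_surj hj x
    rw [star_mk0, star_mk0, star_star]
  star_mul x y := by
    obtain ⟨x, rfl⟩ := mk0_surj hj x
    obtain ⟨y, rfl⟩ := mk0_surj hj y
    rw [← mk0_mul, star_mk0, star_mk0, star_mk0, star_mul, mk0_mul]
  star_add x y := by
    obtain ⟨x, rfl⟩ := mk0_surj hj x
    obtain ⟨y, rfl⟩ := mk0_surj hj y
    rw [← mk0_add, star_mk0, star_mk0, star_mk0, star_add, mk0_add]

instance : StarModule ℂ (Q hj) where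
  star_smul c x := by
    obtain ⟨x, rfl⟩ := mk0_surj hj x
    rw [← mk0_smul, star_mk0, star_mk0, star_smul, mk0_smul]

instance : CStarRing (Q hj) where
  norm_mul_self_le x := by
    obtain ⟨x, rfl⟩ := mk0_surj hj x
    rw [star_mk0, ← mk0_mul, norm_mk0, norm_mk0]
    exact qn_cstar hj x

noncomputable def mkL : A →ₗ[ℂ] Q hj where
  toFun := mk0 hj
  map_add' := mk0_add hj
  map_smul' := mk0_smul hj

lemma mk0_eq_zero (x : A) : mk0 hj x = 0 ↔ ∃ b, j b = x := by
  rw [← norm_eq_zero, norm_mk0]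
  exact (hj.isClosed_range.mem_iff_infDist_zero ⟨_, 0, rfl⟩).symm

lemma exists_lift (x : Q hj) {ε : ℝ} (hε : 0 < ε) : ∃ y, mk0 hj y = x ∧ ‖y‖ ≤ ‖x‖ + ε := by
  obtain ⟨x, rfl⟩ := mk0_surj hj x
  obtain ⟨b, hb⟩ := qn_lt (j := j) x hε
  refine ⟨x - j b, ?_, hb.le⟩
  change mkL hj _ = mkL hj _
  rw [map_sub, sub_eq_self]
  exact (mk0_eq_zero hj _).2 ⟨b, rfl⟩

instance : CompleteSpace (Q hj) := by
  apply NormedAddCommGroup.completeSpace_of_summable_imp_tendsto
  intro f hf
  choose y hy1 hy2 using fun n => exists_lift hj (f n) (ε := (1 / 2 : ℝ) ^ n) (by positivity)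
  have h1 : Summable fun n => ‖y n‖ :=
    Summable.of_nonneg_of_le (fun _ => norm_nonneg _) hy2 (hf.add summable_geometric_two)
  have hc : Continuous (mkL hj) :=
    AddMonoidHomClass.continuous_of_bound _ 1 fun x => by
      rw [one_mul]; exact qn_le_norm x
  refine ⟨mkL hj (∑' n, y n), ?_⟩
  have h2 := (hc.tendsto _).comp h1.of_norm.hasSum.tendsto_sum_nat
  refine h2.congr fun n => ?_
  simp only [Function.comp, map_sum]
  exact Finset.sum_congr rfl fun i _ => hy1 i

noncomputable instance : CStarAlgebra (Q hj) where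

noncomputable def mk : A →⋆ₐ[ℂ] Q hj where
  toFun := mk0 hj
  map_one' := rfl
  map_mul' := mk0_mul hj
  map_zero' := rfl
  map_add' := mk0_add hj
  commutes' c := by
    rw [Algebra.algebraMap_eq_smul_one, Algebra.algebraMap_eq_smul_one]; rfl
  map_star' x := (star_mk0 hj x).symm

end Quo

theorem Idl.exists_quot (hj : Idl j) : ∃ (Q : Type u) (_ : CStarAlgebra Q) (π : A →⋆ₐ[ℂ] Q),
    Function.Surjective π ∧ ∀ a, π a = 0 ↔ ∃ b, j b = a :=
  ⟨Quo.Q hj, inferInstance, Quo.mk hj, Quo.mk0_surj hj, Quo.mk0_eq_zero hj⟩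

lemma exists_induced {A A' A'' : Type*} [CStarAlgebra A] [CStarAlgebra A'] [CStarAlgebra A'']
    (π : A →⋆ₐ[ℂ] A') (hπ : Function.Surjective π) (π' : A →⋆ₐ[ℂ] A'')
    (h : ∀ a, π a = 0 → π' a = 0) : ∃ ρ : A' →⋆ₐ[ℂ] A'', ∀ a, ρ (π a) = π' a := by
  choose s hs using hπ
  have key : ∀ a, π' (s (π a)) = π' a := fun a => by
    rw [← sub_eq_zero, ← map_sub]
    exact h _ (by rw [map_sub, hs, sub_self])
  have k2 : ∀ y a, π a = y → π' (s y) = π' a := fun y a ha => ha ▸ key a
  exact ⟨{ toFun := fun y => π' (s y)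
           map_one' := by rw [k2 1 1 (map_one π), map_one]
           map_mul' := fun x y => by
             rw [k2 (x * y) (s x * s y) (by rw [map_mul, hs, hs]), map_mul]
           map_zero' := by rw [k2 0 0 (map_zero π), map_zero]
           map_add' := fun x y => by
             rw [k2 (x + y) (s x + s y) (by rw [map_add, hs, hs]), map_add]
           commutes' := fun c => by
             rw [k2 _ (algebraMap ℂ A c) (AlgHomClass.commutes π c), AlgHomClass.commutes]
           map_star' := fun x => by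
             rw [k2 (star x) (star (s x)) (by rw [map_star, hs]), map_star] }, key⟩

end Pool.Agent.Lib.MP_30b5b4_an
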