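import Pool.Agent.Lib.MP_30b5b4_an.Tr

/-! Approximations pass to ideals. -/

open scoped CStarAlgebra ComplexOrder Topology
open Filter

set_option linter.unusedSectionVars false
set_option linter.style.haveILetI false
set_option linter.unusedVariables false
set_option linter.unusedSimpArgs false

namespace Pool.Agent.Lib.MP_30b5b4_an

universe u v

variable {J : Type*} {A : Type u} {A' : Type v} [NonUnitalCStarAlgebra J] [PartialOrder J]
  [StarOrderedRing J] [CStarAlgebra A] [PartialOrder A] [StarOrderedRing A] [CStarAlgebra A']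
  [PartialOrder A'] [StarOrderedRing A'] {j : J →⋆ₙₐ[ℂ] A} {N : ℕ}

lemma cfc_Gf_one {B : Type*} [CStarAlgebra B] [PartialOrder B] [StarOrderedRing B] {x : B}
    (x0 : 0 ≤ x) (x1 : x ≤ 1) : cfc (Gf 1) x = 1 := by
  rw [← cfc_const_one ℝ x]
  exact cfc_congr fun t ht => by simp [Gf, (spec_mem x0 x1 ht).2]

/-- A colour that sees `e` and `F`, cut down to the support of `e`. -/
lemma URep.of_unit (c : ℕ → CA A) {F : Set (UA A)} (hF : ∀ a ∈ F, ‖a‖ ≤ 1) {e : UA A}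
    (e0 : 0 ≤ e) (e1 : e ≤ 1) (h1 : Vis c e) (h2 : ∀ a ∈ F, Vis c a)
    (h3 : ∀ a ∈ F, e * a = a ∧ a * e = a) : URep F (uT c 1 * e) := by
  intro η hη
  obtain ⟨d, hd⟩ := umod c (k := Gf 1) (f := Gf 1) (Gf_cont one_pos) (Gf_cont one_pos)
    (fun _ => Gf_nonneg one_pos) (fun t => by rw [mul_comm]; exact mul_Gf_le one_pos)
    (fun t => by
      have a1 : t * Gf 1 t ≤ 1 := mul_Gf_le one_pos
      have a2 : 0 ≤ Gf 1 t := Gf_nonneg one_pos
      have a3 : Gf 1 t ≤ 1 := inv_le_one_of_one_le₀ (le_max_right _ _)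
      nlinarith) e0 e1
  have hd' : ∀ a, uT d a = uT c (sq e * a * sq e) := fun a => by
    rw [hd, cfc_Gf_one (uφ_oz c).cp.one_nonneg (uφ_one c),
      cfc_Gf_one (uψ_spec c).1.one_nonneg (uψ_one c), one_mul, one_mul, mul_one, uT_apply]
  obtain ⟨d', d1, d2⟩ := ucut d (half_pos hη)
  refine ⟨d', _, by rwa [hd', mul_one, sq_mul_sq e0, h1.1] at d1, fun a ha => ?_⟩
  have b1 : sq e * a = a := cfc_mul_eq_self e0.isSelfAdjoint (h3 a ha).1 (by fun_prop) (by simp)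
  have b2 : a * sq e = a := mul_cfc_eq_zero' e0.isSelfAdjoint (h3 a ha).2 (by fun_prop) (by simp)
  have b3 := d2 a
  rw [hd', b1, b2, (h2 a ha).1] at b3
  rw [mul_assoc, (h3 a ha).1]
  nlinarith [hF a ha, norm_nonneg a]

theorem Ap.ideal {d : Prop} (hA : Ap (NonUnitalStarAlgHom.id ℂ A) N d) (hj : Idl j)
    (π : A →⋆ₐ[ℂ] A') (hπ : ∀ a, π a = 0 ↔ ∃ b, j b = a) : Ap j N False := by
  classical
  refine Ap.of_ball fun S ε hε hS => ?_
  let s : S → UA A := fun a => dg (j a)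
  have s1 : ∀ a ∈ Set.range s, ‖a‖ ≤ 1 := by
    rintro _ ⟨a, rfl⟩
    exact (hom_norm_le _ _).trans ((NonUnitalStarAlgHom.norm_apply_le j _).trans (hS a a.2))
  obtain ⟨e, e1, e2, e0, e3, e4⟩ := hj.tier s s fun a => dg_mem_Iw _
  obtain ⟨W, w1, w2, w0, -, w4⟩ := hj.tier (fun _ : Unit => e) (fun _ : Unit => e) fun _ => e2
  have w5 : W * e = e := w4 ()
  have w6 : e * W = e := by simpa [e0.star_eq, w0.star_eq] using congrArg star w5
  have e5 : ∀ a ∈ Set.range s, e * a = a ∧ a * e = a := by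
    rintro _ ⟨a, rfl⟩
    exact ⟨e4 a, by rw [← (Cn_comm e3 ⟨a, rfl⟩).eq, e4]⟩
  obtain ⟨w, hw, rfl⟩ := mem_Iw.1 w2
  obtain ⟨c, -, c1, c2, -⟩ := hA.ultra ⟨Function.injective_id, fun a b => ⟨a * b, rfl⟩⟩ (w := 1)
    (fun k => ⟨_, rfl⟩) zero_le_one le_rfl (κ := Option S) (fun o => o.elim e s) (by simp)
  set η := ε / (3 * N + 1) with hη
  have hη0 : 0 < η := by positivity
  choose d hd using fun i => (URep.of_unit (c i) s1 e0 (le_one_of_norm e0 e1) (c1 i none)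
    (by rintro _ ⟨a, rfl⟩; exact c1 i (some a)) e5).finish π hπ s1 hw w1
    (by rw [w0.star_eq, mul_assoc, mul_sub, ← mul_assoc e, w6, w6, mul_one, sub_self, mul_zero])
    hη0
  refine sT_finish d S fun a ha => ?_
  have a0 : dg (j a) ∈ Set.range s := ⟨⟨a, ha⟩, rfl⟩
  have a1 : ∑ i, uT (c i) 1 * dg (j a) = dg (j a) := by
    refine Eq.trans ?_ (c2 (some ⟨a, ha⟩))
    exact Finset.sum_congr rfl fun i _ => (c1 i (some ⟨a, ha⟩)).1.symm
  have a2 : ∑ i, Ult.mk w * (uT (c i) 1 * e * dg (j a)) * star (Ult.mk w) = dg (j a) := by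
    simp only [mul_assoc _ e, (e5 _ a0).1]
    rw [← Finset.sum_mul, ← Finset.mul_sum, a1, w0.star_eq, ← (e5 _ a0).1, ← mul_assoc, w5,
      (e5 _ a0).1, ← (e5 _ a0).2, mul_assoc, w6]
  conv_lhs => rw [← a2, ← Finset.sum_sub_distrib]
  refine ((norm_sum_le _ _).trans (Finset.sum_le_sum fun i _ => hd i a a0)).trans_lt ?_
  have a3 : (3 * N + 1) * η = ε := by rw [hη]; field_simp
  simp only [Finset.sum_const, Finset.card_univ, Fintype.card_fin, nsmul_eq_mul]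
  nlinarith

section
variable {I E D : Type*} [NonUnitalCStarAlgebra I] [PartialOrder I] [StarOrderedRing I]
  [NonUnitalCStarAlgebra E] [PartialOrder E] [StarOrderedRing E]
  [NonUnitalCStarAlgebra D] [PartialOrder D] [StarOrderedRing D]
  {ι : I →⋆ₙₐ[ℂ] E} {π : E →⋆ₙₐ[ℂ] D}

lemma Ext.ker_iff (h : Ext ι π) (a : E⁺¹) :
    Unitization.starMap π a = 0 ↔ ∃ b, (inc E).comp ι b = a := by
  refine ⟨h.ker a, ?_⟩
  rintro ⟨b, rfl⟩
  change Unitization.starMap π ((ι b : E) : E⁺¹) = 0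
  rw [Unitization.starMap_inr, (h.ex _).2 ⟨b, rfl⟩, Unitization.inr_zero]

theorem Ext.ideal (h : Ext ι π) {n : ℕ} (hE : NucDimLE E n) : NucDimLE I n :=
  ((hE.unitization.ap _).ideal h.idl (Unitization.starMap π) h.ker_iff).nucDimLE h.idl.inj

end

end Pool.Agent.Lib.MP_30b5b4_an
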