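import Pool.Agent.Lib.MP_30b5b4_an.DefsB
import Pool.Agent.Lib.MP_30b5b4_an.Simp
import Pool.Agent.Lib.MP_30b5b4_an.S.Defs
import Pool.Agent.Lib.MP_30b5b4_an.S.P1
import Pool.Agent.Lib.MP_30b5b4_an.S.P3

/-! The induction over the ideal. -/

open scoped CStarAlgebra ComplexOrder Topology
open Filter

set_option linter.unusedSectionVars false
set_option linter.style.haveILetI false
set_option linter.unusedVariables false
set_option linter.unusedSimpArgs false

namespace Pool.Agent.Lib.MP_30b5b4_an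

universe u v

/-- The ideal `j` is good: approximations of the quotient lift. -/
def Good {J : Type*} {A : Type u} [NonUnitalCStarAlgebra J] [CStarAlgebra A] [PartialOrder A]
    [StarOrderedRing A] (j : J →⋆ₙₐ[ℂ] A) : Prop :=
  ∀ (A' : Type u) [CStarAlgebra A'] [PartialOrder A'] [StarOrderedRing A'] (π : A →⋆ₐ[ℂ] A'),
    Function.Surjective π → (∀ a, π a = 0 ↔ ∃ b, j b = a) → ∀ n, Ap j (n + 1) False →
      ApA A' (n + 1) → ApA A (n + 1)

/-- Nuclear dimension passes to quotients. -/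
def QuotSt : Prop :=
  ∀ (I E D : Type v) [NonUnitalCStarAlgebra I] [PartialOrder I] [StarOrderedRing I]
    [NonUnitalCStarAlgebra E] [PartialOrder E] [StarOrderedRing E] [NonUnitalCStarAlgebra D]
    [PartialOrder D] [StarOrderedRing D] (ι : I →⋆ₙₐ[ℂ] E) (π : E →⋆ₙₐ[ℂ] D), Ext ι π →
    ∀ n, NucDimLE E n → NucDimLE D n

/-- Simple ideals are good. -/
def SmpSt : Prop :=
  ∀ (J : Type v) (A : Type u) [NonUnitalCStarAlgebra J] [PartialOrder J] [StarOrderedRing J]
    [CStarAlgebra A] [PartialOrder A] [StarOrderedRing A] (j : J →⋆ₙₐ[ℂ] A), Idl j → Smp j → Good j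

lemma idl_self (A : Type u) [CStarAlgebra A] [PartialOrder A] [StarOrderedRing A] :
    Idl (NonUnitalStarAlgHom.id ℂ A) :=
  ⟨Function.injective_id, fun a b => ⟨a * b, rfl⟩⟩

section
variable {J : Type*} {A : Type u} [NonUnitalCStarAlgebra J] [PartialOrder J] [StarOrderedRing J]
  [CStarAlgebra A] [PartialOrder A] [StarOrderedRing A] {j : J →⋆ₙₐ[ℂ] A}

theorem RR.good (hj : Idl j) (h : RR j) : Good j := fun A' _ _ _ π hπ hk n hI hD =>
  (idl_self A).main_rr hj (fun x => ⟨j x, rfl⟩) (idl_self A') π (fun a => (hk a).1) hπ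
    (fun a => ⟨π a, rfl⟩) (hI.apH hj h) hD

end

lemma exists_induced' {A A' A'' : Type*} [NonUnitalCStarAlgebra A] [NonUnitalCStarAlgebra A']
    [NonUnitalCStarAlgebra A''] (π : A →⋆ₙₐ[ℂ] A') (hπ : Function.Surjective π)
    (π' : A →⋆ₙₐ[ℂ] A'') (h : ∀ a, π a = 0 → π' a = 0) :
    ∃ ρ : A' →⋆ₙₐ[ℂ] A'', ∀ a, ρ (π a) = π' a := by
  choose s hs using hπ
  have key : ∀ a, π' (s (π a)) = π' a := fun a => by
    rw [← sub_eq_zero, ← map_sub]
    exact h _ (by rw [map_sub, hs, sub_self])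
  have k2 : ∀ y a, π a = y → π' (s y) = π' a := fun y a ha => ha ▸ key a
  exact ⟨{ toFun := fun y => π' (s y)
           map_smul' := fun c x => by
             rw [k2 (c • x) (c • s x) (by rw [map_smul, hs]), map_smul]; rfl
           map_mul' := fun x y => by
             rw [k2 (x * y) (s x * s y) (by rw [map_mul, hs, hs]), map_mul]
           map_zero' := by rw [k2 0 0 (map_zero π), map_zero]
           map_add' := fun x y => by
             rw [k2 (x + y) (s x + s y) (by rw [map_add, hs, hs]), map_add]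
           map_star' := fun x => by
             rw [k2 (star x) (star (s x)) (by rw [map_star, hs]), map_star] }, key⟩

section
variable {I J D : Type v} {A : Type u} [NonUnitalCStarAlgebra I] [PartialOrder I]
  [StarOrderedRing I] [NonUnitalCStarAlgebra J] [PartialOrder J] [StarOrderedRing J]
  [NonUnitalCStarAlgebra D] [PartialOrder D] [StarOrderedRing D] [CStarAlgebra A] [PartialOrder A]
  [StarOrderedRing A] {ι : I →⋆ₙₐ[ℂ] J} {p : J →⋆ₙₐ[ℂ] D} {j : J →⋆ₙₐ[ℂ] A}

lemma Ext.idl_comp (h : Ext ι p) (hj : Idl j) : Idl (j.comp ι) := by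
  refine ⟨hj.inj.comp h.inj, fun a b => ?_⟩
  obtain ⟨c, hc⟩ := hj.left a (ι b)
  have h1 : 0 ≤ (‖a‖ ^ 2) • (star (ι b) * ι b) - star c * c := by
    apply nonneg_of_map_nonneg j hj.inj
    rw [map_sub, ← Complex.coe_smul, map_smul, Complex.coe_smul, map_mul, map_mul, map_star,
      map_star, hc, star_mul, sub_nonneg, mul_assoc, ← mul_assoc (star a), ← mul_assoc]
    have := star_left_conjugate_le_conjugate
      (CStarAlgebra.star_mul_le_algebraMap_norm_sq (a := a)) (j (ι b))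
    rwa [Algebra.algebraMap_eq_smul_one, mul_smul_comm, mul_one, smul_mul_assoc] at this
  have h2 := nu_nonneg ((inc D).comp p) h1
  have h3 : (inc D).comp p (ι b) = 0 := by
    rw [NonUnitalStarAlgHom.comp_apply, (h.ex _).2 ⟨b, rfl⟩, map_zero]
  rw [map_sub, ← Complex.coe_smul, map_smul, map_mul, map_mul, map_star, map_star, h3, mul_zero,
    smul_zero, sub_nonneg] at h2
  obtain ⟨d, hd⟩ := (h.ex c).1 ((idl_inc D).inj ((eq_zero_of_star_mul_self_nonpos h2).trans
    (map_zero _).symm))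
  exact ⟨d, by rw [NonUnitalStarAlgHom.comp_apply, hd, hc]; rfl⟩

theorem Good.trans (hQ : QuotSt.{v}) (h : Ext ι p) (hj : Idl j)
    (h1 : Idl (j.comp ι) → Good (j.comp ι))
    (h2 : ∀ (B : Type u) [CStarAlgebra B] [PartialOrder B] [StarOrderedRing B]
      (j' : D →⋆ₙₐ[ℂ] B), Idl j' → Good j') : Good j := by
  intro A' _ _ _ π hπ hk n hI hD
  have hi := h.idl_comp hj
  obtain ⟨B, _, q, q1, q2⟩ := hi.exists_quot
  letI := CStarAlgebra.spectralOrder B
  haveI := CStarAlgebra.spectralOrderedRing B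
  obtain ⟨j', hj'⟩ := exists_induced' p h.surj ((q : A →⋆ₙₐ[ℂ] B).comp j) fun a ha => by
    obtain ⟨b, rfl⟩ := (h.ex a).1 ha
    exact (q2 _).2 ⟨b, rfl⟩
  replace hj' : ∀ a, j' (p a) = q (j a) := hj'
  obtain ⟨ρ, hρ⟩ := exists_induced q q1 π fun a ha => by
    obtain ⟨b, rfl⟩ := (q2 a).1 ha
    exact (hk _).2 ⟨ι b, rfl⟩
  have i1 : Idl j' := by
    refine ⟨(injective_iff_map_eq_zero j').2 fun y hy => ?_, fun a y => ?_⟩
    · obtain ⟨x, rfl⟩ := h.surj y
      obtain ⟨b, hb⟩ := (q2 _).1 ((hj' x).symm.trans hy)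
      exact (h.ex x).2 ⟨b, hj.inj hb⟩
    · obtain ⟨x, rfl⟩ := h.surj y
      obtain ⟨a, rfl⟩ := q1 a
      obtain ⟨c, hc⟩ := hj.left a x
      exact ⟨p c, by rw [hj', hj', hc, map_mul]⟩
  have hJ := hI.nucDimLE hj.inj
  refine h1 hi B q q1 q2 n ((h.ideal hJ).ap _) (h2 B j' i1 A' ρ (fun y => ?_) (fun a => ?_) n
    ((hQ _ _ _ ι p h n hJ).ap _) hD)
  · obtain ⟨a, rfl⟩ := hπ y
    exact ⟨q a, hρ a⟩
  · obtain ⟨a, rfl⟩ := q1 a
    rw [hρ, hk]
    constructor
    · rintro ⟨b, rfl⟩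
      exact ⟨p b, hj' b⟩
    · rintro ⟨y, hy⟩
      obtain ⟨x, rfl⟩ := h.surj y
      obtain ⟨b, hb⟩ := (q2 (a - j x)).1 (by rw [map_sub, ← hj', hy, sub_self])
      exact ⟨ι b + x, by rw [map_add]; exact eq_sub_iff_add_eq.1 hb⟩

end

section ideals
variable {J : Type v} [NonUnitalCStarAlgebra J] [PartialOrder J] [StarOrderedRing J]

lemma ideal_smul {K : TwoSidedIdeal J} (hK : IsClosed (K : Set J)) (c : ℂ) {x : J} (hx : x ∈ K) :
    c • x ∈ K := by
  have h := CStarAlgebra.increasingApproximateUnit J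
  haveI := h.neBot
  exact hK.mem_of_tendsto ((h.tendsto_mul_right x).const_smul c) (Eventually.of_forall fun e => by
    rw [← smul_mul_assoc]; exact K.mul_mem_left _ _ hx)

lemma ideal_star {K : TwoSidedIdeal J} (hK : IsClosed (K : Set J)) {x : J} (hx : x ∈ K) :
    star x ∈ K := by
  refine hK.closure_subset (Metric.mem_closure_iff.2 fun ε hε => ?_)
  have hη : 0 < ε ^ 2 / 2 := by positivity
  set η := ε ^ 2 / 2 with hη'
  have g1 := Gf_cont hη
  have y0 : 0 ≤ inc J (star x * x) := nu_nonneg _ (star_mul_self_nonneg x)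
  obtain ⟨c, hc⟩ := (idl_inc J).cfc_mem ⟨star x * x, rfl⟩ (f := fun t => Gf η t * t * Gf η t)
    (by fun_prop) (by simp)
  refine ⟨c * (star x * x) * star x, K.mul_mem_right _ _ (K.mul_mem_left _ _
    (K.mul_mem_left _ _ hx)), ?_⟩
  rw [dist_eq_norm, ← NonUnitalStarAlgHom.norm_map _ (idl_inc J).inj, map_sub, map_mul, map_mul,
    hc, cfc_mul_id (by fun_prop) y0.isSelfAdjoint, ← one_sub_mul]
  have e1 : 1 - cfc (fun s => Gf η s * s * Gf η s * s) (inc J (star x * x)) =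
      cfc (fun s => 1 - Gf η s * s * Gf η s * s) (inc J (star x * x)) := by
    rw [cfc_sub _ _ _ (by fun_prop) (by fun_prop), cfc_const_one ℝ _]
  rw [e1]
  refine (sq_lt_sq₀ (norm_nonneg _) hε.le).1 ?_
  rw [pow_two, ← CStarRing.norm_self_mul_star, star_mul, IsSelfAdjoint.cfc.star_eq, mul_assoc,
    ← mul_assoc (inc J _), ← map_star, star_star, ← map_mul,
    id_mul_cfc (by fun_prop) y0.isSelfAdjoint, cfc_mul' (by fun_prop) (by fun_prop)]
  refine (norm_cfc_le hη.le fun t ht => ?_).trans_lt (by rw [hη']; linarith [sq_pos_of_pos hε])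
  have t0 := spectrum_nonneg_of_nonneg y0 ht
  have e2 : Gf η t * t * Gf η t * t = (t * Gf η t) ^ 2 := by ring
  rw [e2]
  rcases Gf_cases hη t0 with h | ⟨h1, h2, h3⟩
  · simp [h, hη.le]
  · have h4 : 0 ≤ 1 - (t * Gf η t) ^ 2 := by nlinarith
    have h5 : 1 - (t * Gf η t) ^ 2 ≤ 1 := by nlinarith
    rw [Real.norm_of_nonneg (by positivity)]
    nlinarith [mul_le_mul h5 (mul_le_mul h1 h5 h4 hη.le) (mul_nonneg t0 h4) zero_le_one]

lemma exists_ext {K : TwoSidedIdeal J} (hK : IsClosed (K : Set J)) :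
    ∃ (I D : Type v) (_ : NonUnitalCStarAlgebra I) (_ : NonUnitalCStarAlgebra D)
      (ι : I →⋆ₙₐ[ℂ] J) (p : J →⋆ₙₐ[ℂ] D), Function.Injective ι ∧ Function.Surjective p ∧
      (∀ x, p x = 0 ↔ x ∈ Set.range ι) ∧ ∀ x, x ∈ Set.range ι ↔ x ∈ K := by
  let S : NonUnitalStarSubalgebra ℂ J :=
    { carrier := K
      add_mem' := K.add_mem
      zero_mem' := K.zero_mem
      mul_mem' := fun _ hb => K.mul_mem_left _ _ hb
      smul_mem' := fun c _ hx => ideal_smul hK c hx
      star_mem' := ideal_star hK }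
  haveI : IsClosed (S : Set J) := hK
  letI := CStarAlgebra.spectralOrder S
  haveI := CStarAlgebra.spectralOrderedRing S
  let ι : S →⋆ₙₐ[ℂ] J := NonUnitalStarSubalgebraClass.subtype S
  have hi : Idl ((inc J).comp ι) := ⟨(idl_inc J).inj.comp Subtype.val_injective, fun a b =>
    ⟨⟨_, K.add_mem (ideal_smul hK a.fst b.2) (K.mul_mem_left a.snd _ b.2)⟩, inc_mul a b⟩⟩
  obtain ⟨B, _, q, q1, q2⟩ := hi.exists_quot
  obtain ⟨χ, hχ⟩ := exists_induced q q1 (fstS J) fun a ha => by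
    obtain ⟨b, rfl⟩ := (q2 a).1 ha
    exact (fstS_ker _).2 ⟨_, rfl⟩
  let r : J →⋆ₙₐ[ℂ] B := (q : J⁺¹ →⋆ₙₐ[ℂ] B).comp (inc J)
  haveI : IsClosed (NonUnitalStarAlgHom.range r : Set B) := by
    convert (isClosed_singleton (x := (0 : ℂ))).preimage (hom_cont χ)
    ext y
    obtain ⟨a, rfl⟩ := q1 y
    constructor
    · rintro ⟨x, hx⟩
      change q (inc J x) = q a at hx
      change χ (q a) = 0
      rw [← hx, hχ]
      exact (fstS_ker _).2 ⟨_, rfl⟩
    · intro ha
      obtain ⟨b, rfl⟩ := (fstS_ker a).1 ((hχ a).symm.trans ha)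
      exact ⟨b, rfl⟩
  have e : ∀ x, x ∈ Set.range ι ↔ x ∈ K := fun x =>
    ⟨by rintro ⟨b, rfl⟩; exact b.2, fun hx => ⟨⟨x, hx⟩, rfl⟩⟩
  refine ⟨S, NonUnitalStarAlgHom.range r, inferInstance, inferInstance, ι,
    NonUnitalStarAlgHom.rangeRestrict r, Subtype.val_injective, ?_, fun x => ?_, e⟩
  · rintro ⟨_, x, rfl⟩
    exact ⟨x, rfl⟩
  · rw [Subtype.ext_iff]
    refine (q2 (inc J x)).trans ⟨?_, ?_⟩
    · rintro ⟨b, hb⟩
      exact ⟨b, (idl_inc J).inj hb⟩
    · rintro ⟨b, rfl⟩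
      exact ⟨b, rfl⟩

lemma fewer {α β : Type*} {s : Set α} {t : Set β} (ht : t.Finite) {f : α → β}
    (hf : Set.MapsTo f s t) (hi : Set.InjOn f s) {b : β} (hb : b ∈ t) (hn : ∀ a ∈ s, f a ≠ b) :
    s.Finite ∧ s.ncard < t.ncard :=
  ⟨ht.of_injOn hf hi, (Set.ncard_le_ncard_of_injOn f (t := t \ {b})
    (fun a ha => ⟨hf ha, hn a ha⟩) hi ht.sdiff).trans_lt
      (Set.ncard_sdiff_singleton_lt_of_mem hb ht)⟩

variable {I D : Type v} [NonUnitalCStarAlgebra I] [PartialOrder I] [StarOrderedRing I]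
  [NonUnitalCStarAlgebra D] [PartialOrder D] [StarOrderedRing D] {ι : I →⋆ₙₐ[ℂ] J}
  {p : J →⋆ₙₐ[ℂ] D}

lemma Ext.map_ideal (h : Ext ι p) {L : TwoSidedIdeal I} (hL : IsClosed (L : Set I)) :
    ∃ L' : TwoSidedIdeal J, (L' : Set J) = ι '' L := by
  have hu := CStarAlgebra.increasingApproximateUnit I
  haveI := hu.neBot
  have hi := NonUnitalStarAlgHom.isometry ι h.inj
  have z : ∀ b, p (ι b) = 0 := fun b => (h.ex _).2 ⟨b, rfl⟩
  refine ⟨TwoSidedIdeal.mk' (ι '' L) ⟨0, L.zero_mem, map_zero ι⟩ ?_ ?_ ?_ ?_,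
    TwoSidedIdeal.coe_mk' ..⟩
  · rintro _ _ ⟨a, ha, rfl⟩ ⟨b, hb, rfl⟩
    exact ⟨a + b, L.add_mem ha hb, map_add ι a b⟩
  · rintro _ ⟨a, ha, rfl⟩
    exact ⟨-a, L.neg_mem ha, map_neg ι a⟩
  · rintro x _ ⟨a, ha, rfl⟩
    choose f hf using fun e => (h.ex (x * ι e)).1 (by rw [map_mul, z, mul_zero])
    refine ⟨f a, hL.mem_of_tendsto (f := fun e => f e * a) (b := CStarAlgebra.approximateUnit I)
      (hi.isEmbedding.tendsto_nhds_iff.2 ?_)
      (Eventually.of_forall fun e => L.mul_mem_left _ _ ha), hf a⟩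
    rw [hf]
    refine (((hi.continuous.tendsto a).comp (hu.tendsto_mul_right a)).const_mul x).congr fun e => ?_
    simp only [Function.comp, map_mul, hf, mul_assoc]
  · rintro _ x ⟨a, ha, rfl⟩
    choose f hf using fun e => (h.ex (ι e * x)).1 (by rw [map_mul, z, zero_mul])
    refine ⟨f a, hL.mem_of_tendsto (f := fun e => a * f e) (b := CStarAlgebra.approximateUnit I)
      (hi.isEmbedding.tendsto_nhds_iff.2 ?_)
      (Eventually.of_forall fun e => L.mul_mem_right _ _ ha), hf a⟩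
    rw [hf]
    refine (((hi.continuous.tendsto a).comp (hu.tendsto_mul_left a)).mul_const x).congr fun e => ?_
    simp only [Function.comp, map_mul, hf, mul_assoc]

lemma Ext.fewer_ideal (h : Ext ι p) (hJ : FinIdeals J) {x : J} (hx : x ∉ Set.range ι) :
    FinIdeals I ∧ {K : TwoSidedIdeal I | IsClosed (K : Set I)}.ncard <
      {K : TwoSidedIdeal J | IsClosed (K : Set J)}.ncard := by
  choose! f hf using fun L : TwoSidedIdeal I => h.map_ideal (L := L)
  refine fewer hJ (f := f) (fun L hL => ?_) (fun L hL L' hL' e => ?_) (b := ⊤) isClosed_univ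
    fun L hL e => hx ?_
  · change IsClosed (f L : Set J)
    rw [hf L hL]
    exact (NonUnitalStarAlgHom.isometry ι h.inj).isClosedEmbedding.isClosedMap _ hL
  · exact SetLike.coe_injective (h.inj.image_injective (by rw [← hf L hL, ← hf L' hL', e]))
  · have : x ∈ (f L : Set J) := e ▸ TwoSidedIdeal.mem_top _
    rw [hf L hL] at this
    exact Set.image_subset_range _ _ this

lemma Ext.fewer_quot (h : Ext ι p) (hJ : FinIdeals J) {x : J} (hx : x ∈ Set.range ι) (x0 : x ≠ 0) :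
    FinIdeals D ∧ {K : TwoSidedIdeal D | IsClosed (K : Set D)}.ncard <
      {K : TwoSidedIdeal J | IsClosed (K : Set J)}.ncard := by
  have hc : Continuous p := AddMonoidHomClass.continuous_of_bound p 1 fun a => by
    rw [one_mul]; exact NonUnitalStarAlgHom.norm_apply_le p a
  have e : ∀ L : TwoSidedIdeal D, (TwoSidedIdeal.comap p L : Set J) = p ⁻¹' L := fun L =>
    Set.ext fun _ => TwoSidedIdeal.mem_comap p
  refine fewer hJ (f := fun L => TwoSidedIdeal.comap p L) (fun L hL => ?_)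
    (fun L hL L' hL' e' => ?_) (b := ⊥) isClosed_singleton fun L hL e' => x0 ?_
  · change IsClosed (TwoSidedIdeal.comap p L : Set J)
    rw [e]
    exact IsClosed.preimage hc hL
  · exact SetLike.coe_injective (h.surj.preimage_injective (by
      rw [← e, ← e]; exact congrArg _ e'))
  · refine (TwoSidedIdeal.mem_bot _).1 (e' ▸ (TwoSidedIdeal.mem_comap p).2 ?_)
    rw [(h.ex x).2 hx]
    exact L.zero_mem

end ideals

theorem fin_good (hQ : QuotSt.{v}) (hS : SmpSt.{u, v}) (m : ℕ) :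
    ∀ (J : Type v) [NonUnitalCStarAlgebra J] [PartialOrder J] [StarOrderedRing J], FinIdeals J →
      {K : TwoSidedIdeal J | IsClosed (K : Set J)}.ncard < m → ∀ (A : Type u) [CStarAlgebra A]
      [PartialOrder A] [StarOrderedRing A] (j : J →⋆ₙₐ[ℂ] A), Idl j → Good j := by
  induction m with
  | zero => exact fun J _ _ _ _ h => absurd h (Nat.not_lt_zero _)
  | succ m ih =>
    intro J _ _ _ hJ hm A _ _ _ j hj
    by_cases hs : ∀ K : TwoSidedIdeal J, IsClosed (K : Set J) → K = ⊥ ∨ K = ⊤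
    · exact hS J A j hj (smp_of_simple hs j)
    push Not at hs
    obtain ⟨K, hK, k0, k1⟩ := hs
    obtain ⟨I, D, _, _, ι, p, a1, a2, a3, a4⟩ := exists_ext hK
    letI := CStarAlgebra.spectralOrder I
    haveI := CStarAlgebra.spectralOrderedRing I
    letI := CStarAlgebra.spectralOrder D
    haveI := CStarAlgebra.spectralOrderedRing D
    have h : Ext ι p := ⟨a1, a2, a3⟩
    obtain ⟨x, x1, x0⟩ := SetLike.exists_of_lt (bot_lt_iff_ne_bot.2 k0)
    obtain ⟨y, -, y1⟩ := SetLike.exists_of_lt (lt_top_iff_ne_top.2 k1)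
    obtain ⟨b1, b2⟩ := h.fewer_ideal hJ (mt (a4 y).1 y1)
    obtain ⟨c1, c2⟩ := h.fewer_quot hJ ((a4 x).2 x1) (mt (TwoSidedIdeal.mem_bot _).2 x0)
    exact Good.trans hQ h hj (ih I b1 (by omega) A _) (ih D c1 (by omega))

theorem FinIdeals.good' (hQ : QuotSt.{v}) (hS : SmpSt.{u, v}) {J : Type v}
    [NonUnitalCStarAlgebra J] [PartialOrder J] [StarOrderedRing J] (h : FinIdeals J) {A : Type u}
    [CStarAlgebra A] [PartialOrder A] [StarOrderedRing A] {j : J →⋆ₙₐ[ℂ] A} (hj : Idl j) :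
    Good j :=
  fin_good hQ hS _ J h (Nat.lt_succ_self _) A j hj

theorem Built.good' (hQ : QuotSt.{v}) (hS : SmpSt.{u, v}) {J : Type v} [NonUnitalCStarAlgebra J]
    (h : Built J) : ∀ [PartialOrder J] [StarOrderedRing J] {A : Type u} [CStarAlgebra A]
      [PartialOrder A] [StarOrderedRing A] {j : J →⋆ₙₐ[ℂ] A}, Idl j → Good j := by
  induction h with
  | fin J h => exact fun hj => h.good' hQ hS hj
  | rr J h => exact fun hj => (h.rr _).good hj
  | ext I J D ι p a1 a2 a3 _ _ ih1 ih2 =>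
    intro _ _ A _ _ _ j hj
    letI := CStarAlgebra.spectralOrder I
    haveI := CStarAlgebra.spectralOrderedRing I
    letI := CStarAlgebra.spectralOrder D
    haveI := CStarAlgebra.spectralOrderedRing D
    exact Good.trans hQ ⟨a1, a2, a3⟩ hj ih1 fun B _ _ _ j' => ih2

end Pool.Agent.Lib.MP_30b5b4_an
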