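import Pool.Agent.Lib.MP_30b5b4_an.Amp
import Pool.Agent.Lib.MP_30b5b4_an.VS1

/-! From the blocks of the colours of an ideal to central sequences. -/

open scoped CStarAlgebra ComplexOrder Topology
open Filter

set_option linter.unusedSectionVars false
set_option linter.style.haveILetI false
set_option linter.unusedVariables false
set_option linter.unusedSimpArgs false
set_option synthInstance.maxSize 1000000

namespace Pool.Agent.Lib.MP_30b5b4_an

universe u v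

variable {J : Type*} {A : Type u} [NonUnitalCStarAlgebra J] [PartialOrder J] [StarOrderedRing J]
  [CStarAlgebra A] [PartialOrder A] [StarOrderedRing A] {j : J →⋆ₙₐ[ℂ] A} {N : ℕ} {δ : ℝ}

/-- the normalised image of `b` under a colour -/
noncomputable abbrev PT (d : ℕ → CA A) (δ : ℝ) (b : UA A) : UA A := cf (Gf δ) (uφ d 1) * uT d b

lemma cf_uφ (f : ℝ → ℝ) (d : ℕ → CA A) : cf f (uφ d 1) = cfc f (uφ d 1) :=
  cf_eq f (uφ_oz d).cp.one_nonneg.isSelfAdjoint

lemma PT_one (d : ℕ → CA A) : PT d δ 1 = sh d δ := by rw [PT, cf_uφ, sh]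

lemma Vis.PT_eq {d : ℕ → CA A} {b : UA A} (h : Vis d b) : PT d δ b = sh d δ * b := by
  rw [PT, cf_uφ, sh, mul_assoc, ← h.1]

/-- a constant colour as a map into the ultrapower -/
noncomputable def cφ (c : CA A) : c.F →ₗ[ℂ] UA A := lin dg ∘ₗ c.φ

lemma cφ_apply (c : CA A) (y : c.F) : cφ c y = dg (c.φ y) := rfl

lemma cφ_oz (c : CA A) : OZ (cφ c) := ⟨(lin_cp dg).comp c.oz.cp fun _ => rfl, fun x y => by
  simp only [cφ_apply, ← map_mul dg, c.oz.mul x y]⟩

lemma cf_const (f : ℝ → ℝ) (c : CA A) : cf f (uφ (fun _ => c) 1) = cfc f (cφ c 1) := by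
  rw [cf_uφ, uφ_const_one, cφ_apply]

lemma PT_const (c : CA A) (a : A) : PT (fun _ => c) δ (dg a) = piM (cφ c) δ (c.ψ a) := by
  rw [PT, cf_const, uT_const]; rfl

lemma sh_sa (d : ℕ → CA A) : IsSelfAdjoint (sh d δ) :=
  (IsSelfAdjoint.commute_iff IsSelfAdjoint.cfc (uT_cp d).one_nonneg.isSelfAdjoint).1
    (((uφ_oz d).commute _).cfc_real _)

lemma le_sh (d : ℕ → CA A) (hδ : 0 < δ) (h1 : δ ≤ 1) : uT d 1 ≤ sh d δ := by
  have i0 := (uφ_oz d).cp.one_nonneg
  have := Gf_cont hδ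
  rw [← sub_nonneg, sh, ← sub_one_mul]
  refine Commute.mul_nonneg (sub_nonneg.2 (one_le_cfc _ _ fun t ht => ?_)) (uT_cp d).one_nonneg
    ((((uφ_oz d).commute _).cfc_real _).sub_left (Commute.one_left _))
  exact (one_le_inv₀ (hδ.trans_le (le_max_right _ _))).2 (max_le (spec_mem i0 (uφ_one d) ht).2 h1)

lemma Vis.lemA {d : ℕ → CA A} {b W : UA A} (hb : Vis d b) (w1 : Commute W (sh d δ))
    (w2 : Commute W (sh d δ * b)) {θ : ℝ} (hθ : 0 < θ) :
    Commute (W * cfc (rp θ 1) (sh d δ)) b := by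
  have := Gf_cont hθ
  have c : Commute (sh d δ) b := hb.commute _
  have e : cfc (fun t => rp θ 1 t * Gf θ t) (sh d δ) * sh d δ = cfc (rp θ 1) (sh d δ) := by
    rw [cfc_mul_id (by fun_prop) (sh_sa d)]
    simp only [rp_Gf hθ one_pos]
  change _ * _ = _ * _
  calc _ = W * cfc (fun t => rp θ 1 t * Gf θ t) (sh d δ) * (sh d δ * b) := by
        rw [← e]; simp only [mul_assoc]
    _ = cfc (rp θ 1) (sh d δ) * b * W := by
        rw [← (w1.symm.cfc_real _).eq, mul_assoc, w2.eq, ← e]; simp only [mul_assoc]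
    _ = _ := by rw [(c.cfc_real _).eq, mul_assoc, (w1.symm.cfc_real _).eq]

lemma rp_one {δ t : ℝ} (hδ : 0 < δ) {m : ℕ} (h : (m + 1) * δ ≤ t) : rp δ m t = 1 :=
  cl_of_one_le (by linarith [(le_div_iff₀ hδ).2 h])

theorem Ap.cen (hI : Ap j N False) (hj : Idl j) (hδ : 0 < δ) (hN : N * (9 * δ) ≤ 1 / 4) {n : ℕ}
    (s : Fin n → UA A) {e : UA A} (he : e ∈ Iw j) :
    ∃ (c : Fin N → ℕ → CA A) (ι : Type) (_ : Fintype ι) (b : ι → UA A) (Y Z : Fin N → UA A),
      (∀ i k x, ∃ a, j a = (c i k).φ x) ∧ (∑ i, star (Y i) * Y i) * e = e ∧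
      (∀ i, cfc (rp δ 8) (uφ (c i) 1) * Y i = Y i ∧ ‖Z i‖ ≤ 1) ∧
      (∀ z, (∀ i, Commute z (uT (c i) 1)) → (∀ m, Commute z (b m)) → ∀ i, Commute z (Y i)) ∧
      ∀ i W, (∀ m, Commute W (PT (c i) δ (b m))) → W * Y i ∈ Cn (Set.range s) ∧
        W * Z i ∈ Cn (Set.range s) ∧ Z i * (W * Y i) = W * Y i ∧
        star (Z i) * (W * Y i) = W * Y i := by
  obtain ⟨t, t1, t2, t0, t3, t4⟩ := hj.tier s (fun _ : Unit => e) fun _ => he
  have ts := t0.isSelfAdjoint
  have g8 := Gf_cont (show (0 : ℝ) < 1 / 8 by norm_num)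
  obtain ⟨f, hf⟩ : ∃ f : ℕ → UA A, ∀ m, f m = cfc (rp (1 / 8) m) t := ⟨_, fun _ => rfl⟩
  have f0 : ∀ m, star (f m) = f m := fun m => by rw [hf]; exact IsSelfAdjoint.cfc.star_eq
  have f1 : ∀ {m m'}, m < m' → f m * f m' = f m' := fun h => by rw [hf, hf, rp_tier h]
  have f2 : ∀ {m m'}, m < m' → f m' * f m = f m' := fun h => by
    simpa only [star_mul, f0] using congrArg star (f1 h)
  have f3 : ∀ m, f m ∈ Cn (Set.range s) := fun m => by
    rw [hf]; exact cfc_mem_cl (Cn_closed _) _ t3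
  have f4 : f 4 * e = e := by
    rw [hf]; exact cfc_mul_eq_self ts (t4 ()) (rp_cont _ _) (rp_one (by norm_num) (by norm_num))
  have f5 : f 1 ∈ Iw j := by
    have := hj.Iw_left (cfc (fun s => rp (1 / 8) 1 s * Gf (1 / 8) s) t) t2
    rw [cfc_mul_id (by fun_prop) ts] at this
    simpa only [hf, rp_Gf (show (0 : ℝ) < 1 / 8 by norm_num) one_pos] using this
  obtain ⟨w, w1, w2, w3, w4⟩ := hj.unit_lift f5 (hf 1 ▸ (rp_unit _ _ _).1)
    (hf 1 ▸ (rp_unit _ _ _).2)
  let s' : Fin n × Bool → UA A := fun p => cond p.2 (s p.1) (star (s p.1))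
  have s1 : ∀ m p, Commute (f m) (s' p) := by
    rintro m ⟨l, _ | _⟩
    exacts [Cn_comm' (f3 m) ⟨l, rfl⟩, Cn_comm (f3 m) ⟨l, rfl⟩]
  let v : Fin n × Bool ⊕ Fin 3 → UA A := Sum.elim (fun p => f 2 * s' p) fun m => f (m + 2)
  obtain ⟨c, c1, c2, c3, -⟩ := hI.ultra hj w1 w2 w3 v (by
    rw [w4]
    rintro (p | m)
    · simp only [v, Sum.elim_inl]
      exact ⟨by rw [← mul_assoc, f1 one_lt_two], by rw [(s1 2 p).eq, mul_assoc, f2 one_lt_two]⟩
    · exact ⟨f1 (by omega), f2 (by omega)⟩)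
  have c2' : ∀ i m, Vis (c i) (v m) := c2
  have c4 : ∀ i, Commute (uT (c i) 1) (f 4) := fun i =>
    (c2 i (.inr 2)).1.symm.trans (c2 i (.inr 2)).2
  obtain ⟨y, -, y2, y3, y4, y5⟩ := parts c (e := f 4) (f0 4) (by
    rw [Finset.sum_mul]
    exact (Finset.sum_congr rfl fun i _ => (c2 i (.inr 2)).1.symm).trans (c3 (.inr 2))) c4
    (θ := 9 * δ) (by positivity) (by simpa using hN)
  have cn : ∀ V m, 2 < m → (∀ p, Commute V (v p)) → V * f m ∈ Cn (Set.range s) := by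
    intro V m hm hV
    have : ∀ p, Commute (s' p) (V * f m) := fun p => by
      have a1 : Commute V (f 2 * s' p) := hV (.inl p)
      have a2 : Commute V (f 2) := hV (.inr 0)
      change _ * _ = _ * _
      calc s' p * (V * f m) = f 2 * s' p * V * f m := by
            conv_lhs => rw [← f1 hm, ← mul_assoc V, a2.eq]
            rw [(s1 2 p).eq]; simp only [mul_assoc]
        _ = _ := by rw [← a1.eq, mul_assoc, mul_assoc (f 2), ← (s1 m p).eq, ← mul_assoc (f 2),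
            f1 hm, mul_assoc]
    refine mem_Cn.2 ?_
    rintro _ ⟨l, rfl⟩
    exact ⟨this (l, true), this (l, false)⟩
  have d3 : 0 < 3 * δ := by positivity
  refine ⟨c, Option _, inferInstance, fun o => o.elim 1 v, fun i => y i * f 4,
    fun i => cfc (rp (3 * δ) 1) (sh (c i) δ) * f 3, c1, ?_, fun i => ⟨?_, ?_⟩,
    fun z h1 h2 i => (y4 z (fun i => (h1 i).symm) i).symm.mul_right (h2 (some (.inr 2))),
    fun i W hW => ?_⟩
  · have : ∀ i, star (y i * f 4) * (y i * f 4) = f 4 * (star (y i) * y i * f 4) := fun i => by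
      rw [star_mul, f0]; simp only [mul_assoc]
    simp only [this, ← Finset.mul_sum, ← Finset.sum_mul]
    rw [y2, mul_assoc, f4, f4]
  · rw [← mul_assoc, (y3 _ (rp_cont δ 8) (fun t ht => rp_one hδ (by push_cast; linarith)) i).1]
  · refine (norm_mul_le _ _).trans (mul_le_one₀ ?_ (norm_nonneg _) ?_)
    · exact norm_le_one_of (rp_unit _ _ _).1 (rp_unit _ _ _).2
    · rw [hf]; exact norm_le_one_of (rp_unit _ _ _).1 (rp_unit _ _ _).2
  have w0 : Commute W (sh (c i) δ) := PT_one (δ := δ) (c i) ▸ hW none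
  have w5 : ∀ p, Commute W (sh (c i) δ * v p) := fun p =>
    (c2' i p).PT_eq (δ := δ) ▸ hW (some p)
  have a1 : ∀ p, Commute (W * y i) (v p) := fun p => y5 δ hδ _ (fun i => c2' i p) i W w0 (w5 p)
  have δ1 : δ ≤ 1 := by
    have : (1 : ℝ) ≤ N := by exact_mod_cast i.pos
    nlinarith
  have a2 : cfc (rp (3 * δ) 1) (sh (c i) δ) * y i = y i := by
    have := cfc_orth_of_le (uT_cp (c i)).one_nonneg.isSelfAdjoint (sh_sa _) (le_sh _ hδ δ1)
      ((((uφ_oz (c i)).commute _).cfc_real _).symm.mul_right (Commute.refl _))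
      (f := fun t => 1 - rp (3 * δ) 1 t) (g := rp (3 * δ) 2) (by fun_prop) (by fun_prop)
      (θ := 6 * δ) (fun t ht => by rw [rp_one d3 (by push_cast; linarith), sub_self])
      fun t ht => cl_of_nonpos (by
        have := (div_le_iff₀ d3).2 (show t ≤ 2 * (3 * δ) by linarith)
        push_cast; linarith)
    rw [cfc_sub _ _ _, cfc_const_one ℝ _ (sh_sa _), sub_mul, one_mul, sub_eq_zero] at this
    rw [← (y3 _ (rp_cont (3 * δ) 2) (fun t ht => rp_one d3 (by push_cast; linarith)) i).2,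
      ← mul_assoc, ← this]
  have a3 : cfc (rp (3 * δ) 1) (sh (c i) δ) * (W * (y i * f 4)) = W * (y i * f 4) := by
    rw [← mul_assoc, (w0.symm.cfc_real _).eq, mul_assoc, ← mul_assoc _ (y i), a2]
  have a4 : f 3 * (W * (y i * f 4)) = W * (y i * f 4) := by
    have : Commute (W * y i) (f 3) := a1 (.inr 1)
    rw [← mul_assoc W, ← mul_assoc, ← this.eq, mul_assoc, f1 (by norm_num)]
  refine ⟨?_, ?_, by rw [mul_assoc, a4, a3], ?_⟩
  · rw [← mul_assoc]; exact cn _ 4 (by norm_num) a1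
  · rw [← mul_assoc]; exact cn _ 3 (by norm_num) fun p => (c2' i p).lemA w0 (w5 p) d3
  · rw [star_mul, f0, IsSelfAdjoint.cfc.star_eq, mul_assoc, a3, a4]

end Pool.Agent.Lib.MP_30b5b4_an
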