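import Pool.Agent.Lib.MP_30b5b4_an.S.Defs

/-! The calculus of supports and cores: the algebraic part. -/

open scoped CStarAlgebra ComplexOrder Topology
open Filter

set_option linter.unusedSectionVars false
set_option linter.style.haveILetI false
set_option linter.unusedVariables false
set_option linter.unusedSimpArgs false

namespace Pool.Agent.Lib.MP_30b5b4_an

universe u v

section index
variable {X : Type*}

lemma map_univ_eq_sum {α : Type*} [Fintype α] (z : α → X) :
    Finset.univ.val.map z = ∑ i, ({z i} : Multiset X) := by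
  rw [Finset.sum, ← Multiset.sum_map_singleton (Finset.univ.val.map z), Multiset.map_map]
  rfl

lemma map_univ_sumElim {α β : Type*} [Fintype α] [Fintype β] (z : α → X) (z' : β → X) :
    Finset.univ.val.map (Sum.elim z z') = Finset.univ.val.map z + Finset.univ.val.map z' := by
  simp only [map_univ_eq_sum, Fintype.sum_sum_type, Sum.elim_inl, Sum.elim_inr]

lemma map_univ_const (α : Type*) [Fintype α] (x : X) :
    Finset.univ.val.map (fun _ : α => x) = Fintype.card α • ({x} : Multiset X) := by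
  rw [map_univ_eq_sum, Finset.sum_const, Finset.card_univ]

lemma map_univ_unit (x : X) : Finset.univ.val.map (fun _ : Unit => x) = ({x} : Multiset X) := by
  rw [map_univ_const]; simp

lemma map_univ_fin (R : ℕ) (x : X) :
    Finset.univ.val.map (fun _ : Fin R => x) = R • ({x} : Multiset X) := by
  rw [map_univ_const, Fintype.card_fin]

lemma map_univ_empty (z : Empty → X) : Finset.univ.val.map z = 0 := by simp

lemma exists_index (m : Multiset X) : ∃ (n : ℕ) (z : Fin n → X), Finset.univ.val.map z = m := by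
  induction m using Quotient.inductionOn with
  | h l => exact ⟨l.length, l.get, by rw [Fin.univ_val_map, List.ofFn_get]; rfl⟩

lemma exists_reindex {α β : Type*} [Fintype α] [Fintype β] {z : α → X} {z' : β → X}
    (h : Finset.univ.val.map z = Finset.univ.val.map z') : ∃ σ : α ≃ β, ∀ i, z' (σ i) = z i := by
  classical
  have hc : ∀ x, Fintype.card {a // z a = x} = Fintype.card {b // z' b = x} := fun x => by
    have := congrArg (Multiset.count x) h
    rw [Multiset.count_map, Multiset.count_map] at this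
    rw [Fintype.card_subtype, Fintype.card_subtype]
    simp only [eq_comm (b := x)]
    exact this
  exact ⟨Equiv.ofFiberEquiv fun x => Fintype.equivOfCardEq (hc x),
    fun i => Equiv.ofFiberEquiv_map _ i⟩

lemma mem_map_univ {α : Type*} [Fintype α] (z : α → X) (i : α) : z i ∈ Finset.univ.val.map z :=
  Multiset.mem_map_of_mem _ (Finset.mem_univ i)

end index

section
variable {B : Type u} [CStarAlgebra B] {S : Set B} {e : B} {m m' m₁ m₂ m₃ m₄ m₅ : Multiset B}

lemma mem_Cn_empty (x : B) : x ∈ Cn (∅ : Set B) := mem_Cn.2 fun _ h => h.elim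

lemma SubF.sub {α β : Type} [Fintype α] [Fintype β] {z : α → B} {q : β → B} {V : β → α → B}
    (h : SubF S e z q V) : Sub S e (Finset.univ.val.map z) (Finset.univ.val.map q) :=
  ⟨α, β, _, _, z, q, V, rfl, rfl, h⟩

lemma Sub.elim (h : Sub S e m m') {α β : Type} [Fintype α] [Fintype β] {z : α → B} {q : β → B}
    (hz : Finset.univ.val.map z = m) (hq : Finset.univ.val.map q = m') :
    ∃ V, SubF S e z q V := by
  obtain ⟨α₀, β₀, _, _, z₀, q₀, V, h1, h2, h⟩ := h
  obtain ⟨σ, hσ⟩ := exists_reindex (hz.trans h1.symm)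
  obtain ⟨τ, hτ⟩ := exists_reindex (hq.trans h2.symm)
  refine ⟨fun j i => V (τ j) (σ i), fun j i => h.mem _ _, fun i => ?_, fun i i' hi => ?_,
    fun j i => ?_⟩
  · rw [τ.sum_comp fun j => star (V j (σ i)) * V j (σ i), ← hσ]
    exact h.diag _
  · rw [τ.sum_comp fun j => star (V j (σ i)) * V j (σ i'), ← hσ]
    exact h.off _ _ (σ.injective.ne hi)
  · rw [← hτ]; exact h.rng _ _

/-- Passing through the middle layer does not change the Gram matrix. -/
lemma SubF.through (he : ∀ x ∈ Cn S, Commute x e) {γ δ β : Type} [Fintype γ] [Fintype β]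
    {r : γ → B} {y : δ → B} {q : β → B} {W : β → γ ⊕ δ → B} (h : SubF S e (Sum.elim r y) q W)
    (a b : γ → B) (hb : ∀ j, b j ∈ Cn S) (hr : ∀ j, r j * b j = b j) :
    (∑ k, star (∑ j, W k (.inl j) * a j) * ∑ j, W k (.inl j) * b j) * e =
      (∑ j, star (a j) * b j) * e := by
  classical
  have h1 : ∀ j, b j * e = e * r j * b j := fun j => by rw [mul_assoc, hr, (he _ (hb j)).eq]
  have h2 : ∀ j j', (∑ k, star (W k (.inl j)) * W k (.inl j')) * (b j' * e) =
      if j = j' then b j' * e else 0 := fun j j' => by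
    rw [h1, ← mul_assoc]
    split_ifs with hj
    · subst hj; rw [show e * r j = e * Sum.elim r y (.inl j) from rfl, h.diag]
    · rw [show e * r j' = e * Sum.elim r y (.inl j') from rfl,
        h.off _ _ fun hh => hj (Sum.inl_injective hh), zero_mul]
  have h3 : (∑ k, star (∑ j, W k (.inl j) * a j) * ∑ j, W k (.inl j) * b j) * e =
      ∑ j, ∑ j', star (a j) * ((∑ k, star (W k (.inl j)) * W k (.inl j')) * (b j' * e)) := by
    simp only [star_sum, star_mul, Finset.sum_mul, Finset.mul_sum, mul_assoc]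
    conv_lhs => enter [2, k]; rw [Finset.sum_comm]
    rw [Finset.sum_comm]
    exact Finset.sum_congr rfl fun j _ => Finset.sum_comm
  rw [h3, Finset.sum_mul]
  refine Finset.sum_congr rfl fun j _ => ?_
  simp only [h2, mul_ite, mul_zero, Finset.sum_ite_eq, Finset.mem_univ, if_true, mul_assoc]

lemma Sub.cut (he : ∀ x ∈ Cn S, Commute x e) (h : Sub S e m₁ (m₂ + m₃))
    (h' : Sub S e (m₃ + m₄) m₅) : Sub S e (m₁ + m₄) (m₂ + m₅) := by
  obtain ⟨n₁, z, rfl⟩ := exists_index m₁
  obtain ⟨n₂, p, rfl⟩ := exists_index m₂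
  obtain ⟨n₃, r, rfl⟩ := exists_index m₃
  obtain ⟨n₄, y, rfl⟩ := exists_index m₄
  obtain ⟨n₅, q, rfl⟩ := exists_index m₅
  obtain ⟨V, hV⟩ := h.elim rfl (map_univ_sumElim p r)
  obtain ⟨W, hW⟩ := h'.elim (map_univ_sumElim r y) rfl
  rw [← map_univ_sumElim, ← map_univ_sumElim]
  have key : ∀ i i', (∑ j, star (V (.inl j) i) * V (.inl j) i' +
      ∑ k, star (∑ j, W k (.inl j) * V (.inr j) i) * ∑ j, W k (.inl j) * V (.inr j) i') *
      (e * z i') = (∑ j, star (V j i) * V j i') * (e * z i') := fun i i' => by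
    rw [Fintype.sum_sum_type, add_mul, add_mul, add_right_inj, ← mul_assoc, hW.through he _ _
      (fun j => hV.mem (.inr j) i') (fun j => hV.rng (.inr j) i'), mul_assoc]
  refine SubF.sub (V := Sum.elim (fun j => Sum.elim (V (.inl j)) 0)
    fun k => Sum.elim (fun i => ∑ j, W k (.inl j) * V (.inr j) i) fun i => W k (.inr i))
    ⟨?_, ?_, ?_, ?_⟩
  · rintro (j | k) (i | i)
    · exact hV.mem _ _
    · exact zero_mem _
    · exact sum_mem (t := Finset.univ) fun j _ => mul_mem (hW.mem k (.inl j)) (hV.mem (.inr j) i)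
    · exact hW.mem _ _
  · rintro (i | i)
    · simp only [Fintype.sum_sum_type, Sum.elim_inl, Sum.elim_inr]
      rw [key, hV.diag]
    · simpa [Fintype.sum_sum_type] using hW.diag (.inr i)
  · rintro (i | i) (i' | i') hi
    · simp only [Fintype.sum_sum_type, Sum.elim_inl, Sum.elim_inr]
      rw [key, hV.off _ _ fun hh => hi (by rw [hh])]
    · have : ∀ j, (∑ k, star (W k (.inl j)) * W k (.inr i')) * (e * y i') = 0 := fun j =>
        hW.off (.inl j) (.inr i') (by simp)
      have h3 : (∑ k, star (∑ j, W k (.inl j) * V (.inr j) i) * W k (.inr i')) * (e * y i') =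
          ∑ j, star (V (.inr j) i) *
            ((∑ k, star (W k (.inl j)) * W k (.inr i')) * (e * y i')) := by
        simp only [star_sum, star_mul, Finset.sum_mul, Finset.mul_sum, mul_assoc]
        exact Finset.sum_comm
      simp only [Fintype.sum_sum_type, Sum.elim_inl, Sum.elim_inr, Pi.zero_apply, mul_zero,
        Finset.sum_const_zero, zero_add]
      rw [h3]; simp only [this, mul_zero, Finset.sum_const_zero]
    · have : ∀ j, (∑ k, star (W k (.inr i)) * W k (.inl j)) * (e * r j) = 0 := fun j =>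
        hW.off (.inr i) (.inl j) (by simp)
      have h1 : ∀ j, V (.inr j) i' * (e * z i') = e * r j * (V (.inr j) i' * z i') := fun j => by
        rw [← mul_assoc, (he _ (hV.mem _ _)).eq, mul_assoc e (r j), ← mul_assoc (r j),
          show r j = Sum.elim p r (.inr j) from rfl, hV.rng, mul_assoc]
      have h3 : (∑ k, star (W k (.inr i)) * ∑ j, W k (.inl j) * V (.inr j) i') * (e * z i') =
          ∑ j, (∑ k, star (W k (.inr i)) * W k (.inl j)) * (V (.inr j) i' * (e * z i')) := by
        simp only [Finset.sum_mul, Finset.mul_sum, mul_assoc]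
        exact Finset.sum_comm
      simp only [Fintype.sum_sum_type, Sum.elim_inl, Sum.elim_inr, Pi.zero_apply, star_zero,
        zero_mul, Finset.sum_const_zero, zero_add]
      rw [h3]
      refine Finset.sum_eq_zero fun j _ => ?_
      rw [h1, ← mul_assoc, this, zero_mul]
    · simpa [Fintype.sum_sum_type] using hW.off (.inr i) (.inr i') fun hh => hi (by rw [Sum.inr_injective hh])
  · rintro (j | k) (i | i)
    · exact hV.rng (.inl j) i
    · exact mul_zero _
    · simp only [Sum.elim_inl, Sum.elim_inr, Finset.mul_sum, ← mul_assoc, hW.rng]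
    · exact hW.rng k _

lemma Sub.zero (S : Set B) (e : B) (m : Multiset B) : Sub S e 0 m := by
  obtain ⟨n, q, rfl⟩ := exists_index m
  rw [← map_univ_empty (Empty.elim : Empty → B)]
  exact SubF.sub (V := fun _ i => i.elim) ⟨fun _ i => i.elim, fun i => i.elim, fun i => i.elim,
    fun _ i => i.elim⟩

lemma Sub.add (h : Sub S e m₁ m₂) (h' : Sub S e m₃ m₄) : Sub S e (m₁ + m₃) (m₂ + m₄) := by
  obtain ⟨α, β, _, _, z, q, V, rfl, rfl, hV⟩ := h
  obtain ⟨α', β', _, _, z', q', W, rfl, rfl, hW⟩ := h'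
  rw [← map_univ_sumElim, ← map_univ_sumElim]
  refine SubF.sub (V := Sum.elim (fun j => Sum.elim (V j) 0) fun k => Sum.elim 0 (W k))
    ⟨?_, ?_, ?_, ?_⟩
  · rintro (j | k) (i | i)
    exacts [hV.mem _ _, zero_mem _, zero_mem _, hW.mem _ _]
  · rintro (i | i)
    · simpa [Fintype.sum_sum_type] using hV.diag i
    · simpa [Fintype.sum_sum_type] using hW.diag i
  · rintro (i | i) (i' | i') hi
    · simpa [Fintype.sum_sum_type] using hV.off i i' fun hh => hi (by rw [hh])
    · simp [Fintype.sum_sum_type]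
    · simp [Fintype.sum_sum_type]
    · simpa [Fintype.sum_sum_type] using hW.off i i' fun hh => hi (by rw [hh])
  · rintro (j | k) (i | i)
    exacts [hV.rng _ _, mul_zero _, mul_zero _, hW.rng _ _]

lemma Sub.mono (h : Sub S e m m') (h1 : m₁ ≤ m) (h2 : m' ≤ m₂) : Sub S e m₁ m₂ := by
  obtain ⟨t, rfl⟩ := Multiset.le_iff_exists_add.1 h1
  obtain ⟨t', rfl⟩ := Multiset.le_iff_exists_add.1 h2
  have h3 : Sub S e m₁ m' := by
    obtain ⟨n₁, z, rfl⟩ := exists_index m₁
    obtain ⟨n₂, y, rfl⟩ := exists_index t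
    obtain ⟨n₃, q, rfl⟩ := exists_index m'
    obtain ⟨V, hV⟩ := h.elim (map_univ_sumElim z y) rfl
    exact SubF.sub (V := fun j i => V j (.inl i)) ⟨fun j i => hV.mem _ _, fun i => hV.diag (.inl i),
      fun i i' hi => hV.off (.inl i) (.inl i') (Sum.inl_injective.ne hi), fun j i => hV.rng _ _⟩
  simpa using h3.add (Sub.zero S e t')

lemma Sub.trans (he : ∀ x ∈ Cn S, Commute x e) (h : Sub S e m₁ m₂) (h' : Sub S e m₂ m₃) :
    Sub S e m₁ m₃ := by
  simpa using Sub.cut (m₂ := 0) (m₄ := 0) he (by simpa using h) (by simpa using h')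

lemma Sub.nsmul (h : Sub S e m m') (n : ℕ) : Sub S e (n • m) (n • m') := by
  induction n with
  | zero => simpa using Sub.zero S e 0
  | succ n ih => rw [succ_nsmul, succ_nsmul]; exact ih.add h

lemma Sub.sum {ι : Type*} (s : Finset ι) {f g : ι → Multiset B} (h : ∀ i ∈ s, Sub S e (f i) (g i)) :
    Sub S e (∑ i ∈ s, f i) (∑ i ∈ s, g i) := by
  classical
  induction s using Finset.induction_on with
  | empty => simpa using Sub.zero S e 0
  | insert a s ha ih =>
    rw [Finset.sum_insert ha, Finset.sum_insert ha]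
    exact (h a (Finset.mem_insert_self _ _)).add (ih fun i hi => h i (Finset.mem_insert_of_mem hi))

lemma Sub.copies {ι : Type} [Fintype ι] {z q : B} (V : ι → B) (h1 : ∀ l, V l ∈ Cn S)
    (h2 : ∀ l, star (V l) * V l * (e * z) = e * z)
    (h2' : ∀ l l', l ≠ l' → star (V l) * V l' * (e * z) = 0) (h3 : ∀ l, q * V l = V l) :
    Sub S e (Fintype.card ι • {z}) {q} := by
  rw [← map_univ_const, ← map_univ_unit q]
  exact SubF.sub (V := fun _ l => V l) ⟨fun _ l => h1 l, fun l => by simpa using h2 l,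
    fun l l' hl => by simpa using h2' l l' hl, fun _ l => h3 l⟩

lemma Sub.pieces {ι : Type} [Fintype ι] {z q : B} (V : ι → B) (h1 : ∀ l, V l ∈ Cn S)
    (h2 : (∑ l, star (V l) * V l) * (e * z) = e * z) (h3 : ∀ l, q * V l = V l) :
    Sub S e {z} (Fintype.card ι • {q}) := by
  rw [← map_univ_const, ← map_univ_unit z]
  exact SubF.sub (V := fun l _ => V l) ⟨fun l _ => h1 l, fun _ => h2,
    fun _ _ hl => (hl rfl).elim, fun l _ => h3 l⟩

lemma Sub.single {z q V : B} (h1 : V ∈ Cn S) (h2 : star V * V * (e * z) = e * z) (h3 : q * V = V) :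
    Sub S e {z} {q} := by
  simpa using Sub.pieces (ι := Unit) (fun _ => V) (fun _ => h1) (by simpa using h2) fun _ => h3

lemma Sub.map_src (h : Sub S e m m') (f : B → B) (hf : ∀ z ∈ m, ∃ k, e * f z = e * z * k) :
    Sub S e (m.map f) m' := by
  obtain ⟨α, β, _, _, z, q, V, rfl, rfl, hV⟩ := h
  rw [Multiset.map_map]
  refine SubF.sub (V := V) ⟨hV.mem, fun i => ?_, fun i i' hi => ?_, hV.rng⟩
  · obtain ⟨k, hk⟩ := hf _ (mem_map_univ z i)
    rw [Function.comp_apply, hk, ← mul_assoc, hV.diag]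
  · obtain ⟨k, hk⟩ := hf _ (mem_map_univ z i')
    rw [Function.comp_apply, hk, ← mul_assoc, hV.off _ _ hi, zero_mul]

lemma Sub.map_tgt (h : Sub S e m m') (g : B → B) (hg : ∀ q ∈ m', ∀ V, q * V = V → g q * V = V) :
    Sub S e m (m'.map g) := by
  obtain ⟨α, β, _, _, z, q, V, rfl, rfl, hV⟩ := h
  rw [Multiset.map_map]
  exact SubF.sub (V := V) ⟨hV.mem, hV.diag, hV.off,
    fun j i => hg _ (mem_map_univ q j) _ (hV.rng j i)⟩

lemma Sub.anti {S' : Set B} (hS : S ⊆ S') (h : Sub S' e m m') : Sub S e m m' := by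
  obtain ⟨α, β, _, _, z, q, V, rfl, rfl, hV⟩ := h
  exact SubF.sub (V := V) ⟨fun j i => StarSubalgebra.centralizer_le ℂ _ _ hS (hV.mem j i), hV.diag,
    hV.off, hV.rng⟩

lemma Sub.mul (h : Sub S e m m') {f₀ f₁ f₂ : B} (h1 : star f₁ = f₁) (h2 : f₁ * f₀ = f₀)
    (h3 : f₂ * f₁ = f₁) (h4 : ∀ x ∈ Cn S, Commute x f₂) (h5 : ∀ z ∈ m, e * z * f₀ = f₀ * z) :
    Sub ∅ 1 (m.map (f₀ * ·)) (m'.map fun q => f₂ * q * f₂) := by
  obtain ⟨α, β, _, _, z, q, V, rfl, rfl, hV⟩ := h
  rw [Multiset.map_map, Multiset.map_map]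
  have key : ∀ i i', (∑ j, star (V j i * f₁) * (V j i' * f₁)) * (1 * (f₀ * z i')) =
      f₁ * ((∑ j, star (V j i) * V j i') * (e * z i')) * f₀ := fun i i' => by
    rw [mul_assoc, mul_assoc, h5 _ (mem_map_univ z i'), one_mul, Finset.sum_mul, Finset.sum_mul,
      Finset.mul_sum]
    refine Finset.sum_congr rfl fun j _ => ?_
    rw [star_mul, h1]
    simp only [mul_assoc]
    rw [← mul_assoc f₁ f₀, h2]
  refine SubF.sub (V := fun j i => V j i * f₁) ⟨fun _ _ => mem_Cn_empty _, fun i => ?_,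
    fun i i' hi => ?_, fun j i => ?_⟩
  · simp only [Function.comp_apply]
    rw [key, hV.diag, mul_assoc, h5 _ (mem_map_univ z i), ← mul_assoc, h2, one_mul]
  · simp only [Function.comp_apply]
    rw [key, hV.off _ _ hi, mul_zero, zero_mul]
  · have h6 : f₂ * (V j i * f₁) = V j i * f₁ := by
      rw [← mul_assoc, ← (h4 _ (hV.mem j i)).eq, mul_assoc, h3]
    simp only [Function.comp_apply]
    rw [mul_assoc, h6, mul_assoc, ← mul_assoc (q j), hV.rng, h6]

lemma Sub.hom {B' : Type v} [CStarAlgebra B'] (π : B →⋆ₐ[ℂ] B') (h : Sub ∅ 1 m m') :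
    Sub ∅ 1 (m.map π) (m'.map π) := by
  obtain ⟨α, β, _, _, z, q, V, rfl, rfl, hV⟩ := h
  rw [Multiset.map_map, Multiset.map_map]
  refine SubF.sub (V := fun j i => π (V j i)) ⟨fun _ _ => mem_Cn_empty _, fun i => ?_,
    fun i i' hi => ?_, fun j i => ?_⟩
  · simpa [map_sum, map_star] using congrArg π (hV.diag i)
  · simpa [map_sum, map_star] using congrArg π (hV.off i i' hi)
  · simpa using congrArg π (hV.rng j i)

lemma Dom.sub {z p : B} {R : ℕ} (h : Dom S e z p R) : Sub S e {z} (R • {p}) := by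
  obtain ⟨V, h1, h2, h3⟩ := h
  simpa only [Fintype.card_fin] using Sub.pieces V h1 h2 h3

lemma Sub.dom {z p : B} {R : ℕ} (h : Sub S e {z} (R • {p})) : Dom S e z p R := by
  obtain ⟨V, hV⟩ := h.elim (map_univ_unit z) (map_univ_fin R p)
  exact ⟨fun t => V t (), fun t => hV.mem _ _, hV.diag (), fun t => hV.rng t ()⟩

lemma Sub.iter (he : ∀ x ∈ Cn S, Commute x e) {u y : B} {b c d : ℕ}
    (h : Sub S e ((d + c) • {u}) (b • {y} + c • {u})) (n : ℕ) :
    Sub S e (((n + 1) * d + c) • {u}) (((n + 1) * b) • {y} + c • {u}) := by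
  induction n with
  | zero => simpa only [zero_add, one_mul] using h
  | succ n ih =>
    have := Sub.cut (m₄ := ((n + 1) * d) • {u}) he h (by rwa [← add_nsmul, add_comm c])
    rw [← add_nsmul, ← add_assoc, ← add_nsmul] at this
    convert this using 2
    · ring
    · congr 1; ring

end

end Pool.Agent.Lib.MP_30b5b4_an
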