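import Pool.Agent.Lib.MP_30b5b4_an.S.A1
import Pool.Agent.Lib.MP_30b5b4_an.Simp

/-! The calculus of supports and cores: normalisation and passage to stages. -/

open scoped CStarAlgebra ComplexOrder Topology
open Filter

set_option linter.unusedSectionVars false
set_option linter.style.haveILetI false
set_option linter.unusedVariables false
set_option linter.unusedSimpArgs false

namespace Pool.Agent.Lib.MP_30b5b4_an

universe u v

section
variable {B : Type u} [CStarAlgebra B] {S : Set B} {e : B}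
variable [PartialOrder B] [StarOrderedRing B]

lemma sqrtG_conj {a : B} (ha : IsSelfAdjoint a) :
    cfc (fun t => √(Gf 1 t)) a * a * cfc (fun t => √(Gf 1 t)) a =
      cfc (fun t => t * Gf 1 t) a := by
  have gc := Gf_cont one_pos
  rw [cfc_mul_id (by fun_prop) ha, cfc_mul' (by fun_prop) (by fun_prop)]
  refine cfc_congr fun t _ => ?_
  rw [mul_right_comm, Real.mul_self_sqrt (Gf_nonneg one_pos), mul_comm]

lemma sum_norm_eq {T : Type*} [Fintype T] (V : T → B) :
    ∑ t, star (V t * cfc (fun t => √(Gf 1 t)) (∑ t, star (V t) * V t)) *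
      (V t * cfc (fun t => √(Gf 1 t)) (∑ t, star (V t) * V t)) =
      cfc (fun t => t * Gf 1 t) (∑ t, star (V t) * V t) := by
  have a0 : 0 ≤ ∑ t, star (V t) * V t := Finset.sum_nonneg fun t _ => star_mul_self_nonneg _
  rw [← sqrtG_conj a0.isSelfAdjoint]
  generalize hn : cfc (fun t => √(Gf 1 t)) (∑ t, star (V t) * V t) = n
  have n0 : star n = n := hn ▸ IsSelfAdjoint.cfc.star_eq
  simp only [star_mul, n0, Finset.mul_sum, Finset.sum_mul, mul_assoc]

/-- Normalising a column: `V t * n` with `n` a function of `∑ V t⋆ V t`. -/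
lemma exists_norm {T : Type*} [Fintype T] (V : T → B) :
    ∃ n : B, (∀ S : Set B, (∀ t, V t ∈ Cn S) → n ∈ Cn S) ∧
      ∑ t, star (V t * n) * (V t * n) ≤ 1 ∧ (∀ t, ‖V t * n‖ ≤ 1) ∧
      ∀ z, (∑ t, star (V t) * V t) * z = z → n * z = z ∧
        (∑ t, star (V t * n) * (V t * n)) * z = z := by
  have a0 : 0 ≤ ∑ t, star (V t) * V t := Finset.sum_nonneg fun t _ => star_mul_self_nonneg _
  have gc := Gf_cont one_pos
  have h1 := sum_norm_eq V
  have h2 : cfc (fun t => t * Gf 1 t) (∑ t, star (V t) * V t) ≤ 1 :=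
    cfc_le_one _ _ fun t _ => mul_Gf_le one_pos
  rw [← h1] at h2
  refine ⟨_, fun S hS => cfc_mem_cl (Cn_closed S) _
    (sum_mem fun t _ => mul_mem (star_mem (hS t)) (hS t)), h2, fun t => ?_, fun z hz => ⟨?_, ?_⟩⟩
  · have h3 := (Finset.single_le_sum (fun t _ => star_mul_self_nonneg _) (Finset.mem_univ t)).trans h2
    have h4 := (CStarAlgebra.norm_le_one_iff_of_nonneg _ (star_mul_self_nonneg _)).2 h3
    rw [CStarRing.norm_star_mul_self] at h4
    exact (abs_le_one_iff_mul_self_le_one.2 h4 |> abs_le.1).2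
  · exact cfc_mul_eq_self a0.isSelfAdjoint hz (by fun_prop) (by simp [Gf])
  · rw [h1]; exact cfc_mul_eq_self a0.isSelfAdjoint hz (by fun_prop) (by simp [Gf])

lemma unit_of_le {a₀ a : B} (ha : IsSelfAdjoint a) (h : a₀ ≤ a) (h0 : a₀ * e = e)
    (hc : Commute a e) : cfc (fun t => t * Gf 1 t) a * e = e := by
  have gc := Gf_cont one_pos
  obtain ⟨u, hu⟩ : ∃ u, u = cfc (fun t : ℝ => max (1 - t) 0) a := ⟨_, rfl⟩
  obtain ⟨w, hw⟩ : ∃ w, w = cfc (fun t : ℝ => √(max (1 - t) 0)) a := ⟨_, rfl⟩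
  have u0 : star u = u := hu ▸ IsSelfAdjoint.cfc.star_eq
  have w0 : star w = w := hw ▸ IsSelfAdjoint.cfc.star_eq
  have h1 : w * (1 - a) * w = u * u := by
    rw [hw, hu, mul_sub, mul_one, cfc_mul_id (by fun_prop) ha, ← cfc_sub _ _ a,
      cfc_mul' (by fun_prop) (by fun_prop), cfc_mul' (by fun_prop) (by fun_prop)]
    refine cfc_congr fun t _ => ?_
    rw [← mul_one_sub, mul_right_comm, Real.mul_self_sqrt (le_max_right _ _)]
    rcases le_total (1 - t) 0 with h | h
    · simp [max_eq_right h]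
    · simp [max_eq_left h]
  have h2 : w * e = e * w := hw ▸ (hc.cfc_real _).eq
  have h3 := star_left_conjugate_le_conjugate (sub_le_sub_left h 1) (w * e)
  have h4 : (1 - a₀) * (w * e) = 0 := by rw [h2, ← mul_assoc, sub_mul, one_mul, h0, sub_self, zero_mul]
  rw [mul_assoc _ (1 - a₀), h4, mul_zero] at h3
  have h5 : u * e = 0 := eq_zero_of_star_mul_self_nonpos (by
    convert h3 using 1
    rw [star_mul, star_mul, u0, w0, mul_assoc, ← mul_assoc u, ← h1]
    simp only [mul_assoc])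
  have h6 : cfc (fun t => t * Gf 1 t) a = 1 - u := by
    rw [hu, ← cfc_const_one ℝ a, ← cfc_sub _ _ a]
    refine cfc_congr fun t _ => ?_
    rcases le_total t 1 with h | h
    · simp [Gf, max_eq_right h, max_eq_left (sub_nonneg.2 h)]
    · simp [Gf, max_eq_left h, max_eq_right (sub_nonpos.2 h), (one_pos.trans_le h).ne']
  rw [h6, sub_mul, one_mul, h5, sub_zero]

lemma Sub.of_le (he : ∀ x ∈ Cn S, Commute x e) {T : Type} [Fintype T] (X q : T → B)
    (h1 : ∀ t, X t ∈ Cn S) (h2 : ∀ t, q t * X t = X t) {a₀ : B} (h3 : a₀ ≤ ∑ t, star (X t) * X t)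
    (h4 : a₀ * e = e) : Sub S e {1} (Finset.univ.val.map q) := by
  have a0 : 0 ≤ ∑ t, star (X t) * X t := Finset.sum_nonneg fun t _ => star_mul_self_nonneg _
  have a1 : ∑ t, star (X t) * X t ∈ Cn S := sum_mem fun t _ => mul_mem (star_mem (h1 t)) (h1 t)
  rw [← map_univ_unit (1 : B)]
  refine SubF.sub (V := fun t _ => X t * cfc (fun t => √(Gf 1 t)) (∑ t, star (X t) * X t))
    ⟨fun t _ => mul_mem (h1 t) (cfc_mem_cl (Cn_closed S) _ a1), fun _ => ?_,
      fun _ _ hl => (hl rfl).elim, fun t _ => by rw [← mul_assoc, h2]⟩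
  rw [sum_norm_eq, mul_one]
  exact unit_of_le a0.isSelfAdjoint h3 h4 (he _ a1)

lemma polarS {T : Type*} [Fintype T] (X : T → B) {g : B} (g0 : 0 ≤ g) {R : ℝ} (hR : 0 < R)
    (h : g * g ≤ R • (g * (∑ t, star (X t) * X t) * g)) :
    ∃ Y, ∑ t, star (X t * Y) * (X t * Y) = g * g := by
  obtain ⟨Y, hY⟩ := polarF g0 (Finset.sum_nonneg fun t _ => star_mul_self_nonneg (X t)) hR h
  refine ⟨Y, ?_⟩
  rw [← hY]
  simp only [star_mul, Finset.mul_sum, Finset.sum_mul, mul_assoc]

lemma polar_near {G H D : B} (G0 : 0 ≤ G) (H0 : 0 ≤ H) (Ds : IsSelfAdjoint D) (hs : ‖D‖ ≤ 1 / 2)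
    (e1 : G * D * G = G * H * G - G * G) : ∃ ζ, star ζ * H * ζ = G * G := by
  have e2 : -((1 / 2 : ℝ) • (1 : B)) ≤ D := by
    refine le_trans (neg_le_neg ?_) Ds.neg_algebraMap_norm_le_self
    rw [Algebra.algebraMap_eq_smul_one, ← sub_nonneg, ← sub_smul]
    exact smul_nonneg (sub_nonneg.2 hs) zero_le_one
  refine polarF G0 H0 two_pos ?_
  have h3 := sub_nonneg.2 (star_left_conjugate_le_conjugate e2 G)
  rw [G0.star_eq, e1, mul_neg, neg_mul, mul_smul_comm, mul_one, smul_mul_assoc] at h3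
  rw [← sub_nonneg]
  convert smul_nonneg (zero_le_two (α := ℝ)) h3 using 1
  module

/-- A Gram matrix close to the identity on `u` is corrected to be exactly `g * g`. -/
lemma gram_correct {a : ℕ} {β : Type*} [Fintype β] (X : β → Fin a → B) {u g : B} (hu : star u = u)
    (g0 : 0 ≤ g) (h1 : u * g = g) (D : CStarMatrix (Fin a) (Fin a) B)
    (hD : ∀ i i', D i i' = u * ((∑ j, star (X j i) * X j i') * u - if i = i' then u else 0))
    (hs : ‖D‖ ≤ 1 / 2) : ∃ ζ : Fin a → Fin a → B, ∀ i i',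
      ∑ j, star (∑ l, X j l * ζ l i) * (∑ l, X j l * ζ l i') = if i = i' then g * g else 0 := by
  obtain ⟨H, hH⟩ : ∃ H : CStarMatrix (Fin a) (Fin a) B, ∀ i i', H i i' = ∑ j, star (X j i) * X j i' :=
    ⟨CStarMatrix.ofMatrix (Matrix.of fun i i' => ∑ j, star (X j i) * X j i'), fun _ _ => rfl⟩
  have dg : ∀ x : B, ∃ G : CStarMatrix (Fin a) (Fin a) B, (∀ i i', G i i' = if i = i' then x else 0) ∧
      (∀ (Y : CStarMatrix (Fin a) (Fin a) B) i i', (G * Y) i i' = x * Y i i') ∧
      ∀ (Y : CStarMatrix (Fin a) (Fin a) B) i i', (Y * G) i i' = Y i i' * x := fun x =>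
    ⟨CStarMatrix.ofMatrix (Matrix.diagonal fun _ => x), fun i i' => Matrix.diagonal_apply _ _ _,
      fun Y i i' => Matrix.diagonal_mul (fun _ => x) Y i i',
      fun Y i i' => Matrix.mul_diagonal (fun _ => x) Y i i'⟩
  obtain ⟨G, G1, G2, G3⟩ := dg g
  obtain ⟨K, K1, K2, K3⟩ := dg (sq g)
  have form : ∀ b c : Fin a → B, ∑ i, ∑ i', star (b i) * H i i' * c i' =
      ∑ j, star (∑ l, X j l * b l) * ∑ l, X j l * c l := fun b c => by
    simp only [hH, star_sum, star_mul, Finset.sum_mul, Finset.mul_sum, mul_assoc]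
    conv_lhs => enter [2, i]; rw [Finset.sum_comm]
    rw [Finset.sum_comm]
    exact Finset.sum_congr rfl fun j _ => Finset.sum_comm
  have Hs : IsSelfAdjoint H := CStarMatrix.ext fun i i' => by
    rw [CStarMatrix.star_apply, hH, hH, star_sum]
    simp only [star_mul, star_star]
  have H0 : 0 ≤ H := matrix_nonneg H Hs fun b => by
    rw [form]; exact Finset.sum_nonneg fun j _ => star_mul_self_nonneg _
  have G0 : 0 ≤ G := by
    have : G = star K * K := CStarMatrix.ext fun i i' => by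
      rw [K3, CStarMatrix.star_apply, K1, G1]
      by_cases h : i = i'
      · simp [h, sq_star, sq_mul_sq g0]
      · simp [h, Ne.symm h]
    rw [this]; exact star_mul_self_nonneg K
  have h2 : g * u = g := by rw [← g0.star_eq, ← hu, ← star_mul, h1]
  have Ds : IsSelfAdjoint D := CStarMatrix.ext fun i i' => by
    have h3 : star (H i' i) = H i i' := CStarMatrix.star_apply_of_isSelfAdjoint Hs
    rw [CStarMatrix.star_apply, hD, hD, ← hH, ← hH, star_mul, star_sub, star_mul, h3, hu]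
    by_cases h : i = i'
    · simp [h, mul_sub, sub_mul, hu, mul_assoc]
    · simp [h, Ne.symm h, hu, mul_assoc]
  have e1 : G * D * G = G * H * G - G * G := CStarMatrix.ext fun i i' => by
    rw [G3, G2, hD, ← hH, show (G * H * G - G * G) i i' = (G * H * G) i i' - (G * G) i i' from rfl,
      G3, G2, G2, G1, ← mul_assoc, h2, mul_sub, sub_mul, mul_assoc, mul_assoc, h1, mul_assoc]
    split_ifs
    · rw [mul_assoc, h1]
    · simp [mul_assoc]
  obtain ⟨ζ, hζ⟩ := polar_near G0 H0 Ds hs e1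
  refine ⟨ζ, fun i i' => ?_⟩
  rw [← form (fun l => ζ l i) fun l => ζ l i']
  have h4 : (star ζ * H * ζ) i i' = (G * G) i i' := by rw [hζ]
  rw [G2, G1, mul_ite, mul_zero] at h4
  rw [← h4]
  simp only [CStarMatrix.mul_apply, CStarMatrix.star_apply, Finset.sum_mul]
  exact Finset.sum_comm

end

variable {A : Type u} [CStarAlgebra A] [PartialOrder A] [StarOrderedRing A]

/-- An exact relation in the ultrapower gives exact relations at most stages. -/
theorem Sub.stage {u g u₁ : A} (hu : star u = u) (g0 : 0 ≤ g) (h1 : u * g = g)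
    (h2 : g * g * u₁ = u₁) {a : ℕ} (M : Multiset (BA A × BA A)) (hM : ∀ p ∈ M, p.2 * p.1 = p.1)
    (h : Sub ∅ 1 (a • {dg u}) (M.map fun p => Ult.mk p.1)) :
    ∀ᶠ k in (om : Filter ℕ), Sub ∅ 1 (a • {u₁}) (M.map fun p => Bdd.ev k p.2) := by
  obtain ⟨n, p, rfl⟩ := exists_index M
  obtain ⟨V, hV⟩ := h.elim (map_univ_fin a (dg u)) (q := fun j => Ult.mk (p j).1)
    (by rw [Multiset.map_map]; rfl)
  choose v hv using fun j i => Ult.surj (V j i)
  obtain ⟨x, hx⟩ : ∃ x : Fin n → Fin a → BA A, ∀ j i, x j i = (p j).1 * v j i := ⟨_, fun _ _ => rfl⟩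
  have x1 : ∀ j i, Ult.mk (x j i) = V j i := fun j i => by rw [hx, map_mul, hv, hV.rng]
  have x2 : ∀ j i, (p j).2 * x j i = x j i := fun j i => by
    rw [hx, ← mul_assoc, hM _ (mem_map_univ p j)]
  obtain ⟨d, hd⟩ : ∃ d : Fin a → Fin a → BA A, ∀ i i', d i i' = cst u *
    ((∑ j, star (x j i) * x j i') * cst u - if i = i' then cst u else 0) := ⟨_, fun _ _ => rfl⟩
  have d1 : ∀ i i', Ult.mk (d i i') = 0 := fun i i' => by
    rw [hd, map_mul, map_sub, map_mul, map_sum, ← dg_apply]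
    simp only [map_mul, map_star, x1]
    split_ifs with hi
    · subst hi
      have := hV.diag i
      rw [one_mul] at this
      rw [this, ← dg_apply, sub_self, mul_zero]
    · have := hV.off i i' hi
      rw [one_mul] at this
      rw [this, map_zero, sub_self, mul_zero]
  obtain ⟨D, hD⟩ : ∃ D : ℕ → CStarMatrix (Fin a) (Fin a) A, ∀ k i i', D k i i' = Bdd.ev k (d i i') :=
    ⟨fun k => CStarMatrix.ofMatrix (Matrix.of fun i i' => Bdd.ev k (d i i')), fun _ _ _ => rfl⟩
  have D1 : Tendsto D om (𝓝 0) := by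
    refine tendsto_pi_nhds.2 fun i => tendsto_pi_nhds.2 fun i' => ?_
    have := Ult.tendsto_norm (d i i')
    rw [d1, norm_zero] at this
    simp only [hD]
    exact tendsto_zero_iff_norm_tendsto_zero.2 this
  filter_upwards [(tendsto_zero_iff_norm_tendsto_zero.1 D1).eventually
    (ge_mem_nhds (show (0 : ℝ) < 1 / 2 by norm_num))] with k hk
  obtain ⟨ζ, hζ⟩ := gram_correct (fun j i => Bdd.ev k (x j i)) hu g0 h1 (D k) (fun i i' => by
    rw [hD, hd]
    simp only [map_mul, map_sub, map_sum, map_star, apply_ite (Bdd.ev k), map_zero]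
    rfl) hk
  rw [← map_univ_fin, Multiset.map_map]
  refine SubF.sub (V := fun j i => ∑ l, Bdd.ev k (x j l) * ζ l i) ⟨fun _ _ => mem_Cn_empty _,
    fun i => ?_, fun i i' hi => ?_, fun j i => ?_⟩
  · rw [hζ, if_pos rfl, one_mul, h2]
  · rw [hζ, if_neg hi, zero_mul]
  · simp only [Function.comp_apply, Finset.mul_sum, ← mul_assoc, ← map_mul, x2]

end Pool.Agent.Lib.MP_30b5b4_an
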