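import Pool.Agent.Lib.MP_30b5b4_an.S.A1
import Pool.Agent.Lib.MP_30b5b4_an.S.A2

/-! The calculus of supports and cores (collects `A1` and `A2`). -/
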