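import Pool.Agent.Lib.MP_30b5b4_an.S.Defs
import Pool.Agent.Lib.MP_30b5b4_an.VS3

/-! Comparison and coloured division from finite nuclear dimension. -/

open scoped CStarAlgebra ComplexOrder Topology
open Filter

set_option linter.unusedSectionVars false
set_option linter.style.haveILetI false
set_option linter.unusedVariables false
set_option linter.unusedSimpArgs false

namespace Pool.Agent.Lib.MP_30b5b4_an

universe u v

variable {J : Type*} {A : Type u} [NonUnitalCStarAlgebra J] [PartialOrder J] [StarOrderedRing J]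
  [CStarAlgebra A] [PartialOrder A] [StarOrderedRing A] {j : J →⋆ₙₐ[ℂ] A} {N : ℕ}

lemma const_of_map {α B : Type*} [Fintype α] {z : α → B} {a : ℕ} {x : B}
    (h : Finset.univ.val.map z = a • ({x} : Multiset B)) :
    Fintype.card α = a ∧ ∀ i, z i = x := by
  refine ⟨?_, fun i => ?_⟩
  · simpa using congrArg Multiset.card h
  · have : z i ∈ a • ({x} : Multiset B) := h ▸ Multiset.mem_map_of_mem z (Finset.mem_univ i)
    simpa using Multiset.mem_of_mem_nsmul this

theorem ApA.cmp0 (hA : ApA A N) {x' x y y' : UA A} (x0 : star x = x) (y0 : star y = y)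
    (hx : x * x' = x') (hy : y' * y = y) {a b C : ℕ} (ha : 0 < a) (hC : 2 * b ≤ a * C)
    (h : Sub ∅ 1 (a • {x}) (b • {y})) : Dom ∅ 1 x' y' (N * C) := by
  classical
  obtain ⟨α, β, _, _, z, q, V, hz, hq, hV⟩ := h
  obtain ⟨ca, ez⟩ := const_of_map hz
  obtain ⟨cb, eq⟩ := const_of_map hq
  obtain ⟨v, -, -, v1, v2⟩ := Ap.cmp0 hA x0 y0 V (fun i i' => by
    split_ifs with h
    · subst h
      simpa [ez] using hV.diag i
    · simpa [ez] using hV.off i i' h) (fun k i => by rw [← eq k, hV.rng]) C (ca ▸ ha)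
    (by rw [ca, cb]; exact hC)
  refine ⟨fun t => v (finProdFinEquiv.symm t), fun t => mem_Cn.2 fun _ h => h.elim, ?_,
    fun t => ?_⟩
  · rw [Equiv.sum_comp finProdFinEquiv.symm fun t => star (v t) * v t, one_mul]
    exact v1 _ hx
  · have := v2 (finProdFinEquiv.symm t) (1 - y') (by rw [sub_mul, one_mul, hy, sub_self])
    rw [sub_mul, one_mul, sub_eq_zero] at this
    exact this.symm

theorem ApA.ndiv (hA : ApA A N) (hj : Idl j) (hs : Smp j) (hv : Hv j) {δ : ℝ} (hδ : 0 < δ)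
    (m : Fin N → ℕ) (hm : ∀ i, 0 < m i) {d : A} (hd : d ∈ Set.range j) (d0 : 0 ≤ d) :
    ∃ (c : ∀ i, Fin (m i) → UA A) (γ : Fin N → UA A) (x : ∀ i, Fin (4 * m i) → UA A),
      (∀ i l, star (c i l) * c i l = γ i) ∧ (∀ i l l', l ≠ l' → star (c i l) * c i l' = 0) ∧
      (∀ i, γ i ≤ 1) ∧ (∀ i t, γ i * x i t = x i t) ∧
      (∑ i, ∑ t, star (x i t) * x i t) * cfc (rp δ 8) (dg d) = cfc (rp δ 8) (dg d) ∧
      ∑ i, ∑ t, star (x i t) * x i t ≤ 1 ∧
      (∀ i l, cfc (rp δ 1) (dg d) * c i l = c i l ∧ c i l * cfc (rp δ 1) (dg d) = c i l) ∧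
      ∀ i t, x i t * cfc (rp δ 1) (dg d) = x i t :=
  hs.ndiv' hj hv hA hδ m hm hd d0

end Pool.Agent.Lib.MP_30b5b4_an
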