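import Pool.Agent.Lib.MP_30b5b4_an.Simp
import Pool.Agent.Lib.MP_30b5b4_an.S.Defs

/-! Simple ideals: domination and halving, with explicit columns. -/

open scoped CStarAlgebra ComplexOrder Topology
open Filter

set_option linter.unusedSectionVars false
set_option linter.style.haveILetI false

namespace Pool.Agent.Lib.MP_30b5b4_an

universe u

variable {J : Type*} {A : Type u} [NonUnitalCStarAlgebra J] [PartialOrder J] [StarOrderedRing J]
  [CStarAlgebra A] [PartialOrder A] [StarOrderedRing A] {j : J →⋆ₙₐ[ℂ] A}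

lemma rp_quarter {m : ℕ} (hm : m ≤ 3) : rp (1 / 4) m 1 = 1 := by
  have : (m : ℝ) ≤ 3 := by exact_mod_cast hm
  exact cl_of_one_le (by norm_num; linarith)

lemma Idl.mem_of_unit (hj : Idl j) {y y' : A} (hy : ∃ c, j c = y) (h : y * y' = y') :
    ∃ c, j c = y' := by
  obtain ⟨c, rfl⟩ := hy
  exact (hj.right y' c).imp fun _ hd => hd.trans h

theorem Smp.dom0 (hs : Smp j) (hj : Idl j) {x f y y' : A} (hf : ∃ c, j c = f) (f0 : star f = f)
    (hx : f * x = x) (hy : ∃ c, j c = y) (hy' : y * y' = y') (h0 : y' ≠ 0) :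
    ∃ (K : ℕ) (V : Fin K → A), (∑ t, star (V t) * V t) * x = x ∧ ∀ t, y * V t = V t := by
  have d : (0 : ℝ) < 1 / 4 := by norm_num
  exact hs.sub (g := cfc (rp (1 / 4) 2) f) (g' := cfc (rp (1 / 4) 1) f) (rp_unit _ _ _).1
    (hj.cfc_mem hf (rp_cont _ _) (rp_zero d one_pos d.le)) (rp_tier (by norm_num) _)
    (cfc_mul_eq_self f0 hx (rp_cont _ _) (rp_quarter (by norm_num))) (hj.mem_of_unit hy hy') h0 hy'

/-- two nonzero elements of a simple ideal are connected -/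
lemma Smp.link (hs : Smp j) {a b : A} (ha : ∃ c, j c = a) (a0 : a ≠ 0) (hb : ∃ c, j c = b)
    (b0 : b ≠ 0) : ∃ s, a * s * b ≠ 0 := by
  by_contra hn
  simp only [not_exists, not_not] at hn
  obtain ⟨a, rfl⟩ := ha
  obtain ⟨b, rfl⟩ := hb
  refine b0 ((CStarRing.star_mul_self_eq_zero_iff _).1 (norm_le_zero_iff.1
    (le_of_forall_pos_le_add fun ε hε => ?_)))
  obtain ⟨K, u, v, h⟩ := hs a (fun h => a0 (by rw [h, map_zero])) (star b) (ε / (‖j b‖ + 1))
    (by positivity)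
  have e : star (j b) * j b = (j (star b) - ∑ t, u t * j a * v t) * j b := by
    rw [sub_mul, Finset.sum_mul, Finset.sum_eq_zero fun t _ => by
      rw [mul_assoc (u t), mul_assoc (u t), hn, mul_zero], sub_zero, map_star]
  rw [e, zero_add]
  refine (norm_mul_le _ _).trans ((mul_le_mul_of_nonneg_right h (norm_nonneg _)).trans ?_)
  rw [div_mul_eq_mul_div, div_le_iff₀ (by positivity)]
  nlinarith

/-- a nonzero element `w` embeds a smaller positive element through its polar part -/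
lemma polar_part {w : A} (w0 : w ≠ 0) : ∃ g y y' : A, 0 ≤ y ∧ y ≤ 1 ∧ y' ≠ 0 ∧ y * y' = y' ∧
    star (w * g) * (w * g) * y = y ∧ ∀ z, w * z = w → star z = z → z * y = y := by
  have n0 : 0 < ‖star w * w‖ := norm_pos_iff.2 fun h =>
    w0 ((CStarRing.star_mul_self_eq_zero_iff _).1 h)
  obtain ⟨δ, hδ⟩ : ∃ δ, δ = ‖star w * w‖ / 4 := ⟨_, rfl⟩
  have d : 0 < δ := by rw [hδ]; positivity
  have h0 := star_mul_self_nonneg w
  have g1 := Gf_cont d
  have g2 : Continuous fun s => √(Gf δ s) := by fun_prop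
  refine ⟨cfc (fun s => √(Gf δ s)) (star w * w), cfc (rp δ 1) (star w * w),
    cfc (rp δ 2) (star w * w), (rp_unit _ _ _).1, (rp_unit _ _ _).2,
    rp_ne_zero d h0 (by rw [hδ]; push_cast; linarith), rp_tier (by norm_num) _, ?_,
    fun z hz z0 => ?_⟩
  · rw [star_mul, IsSelfAdjoint.cfc.star_eq, mul_assoc _ (star w), ← mul_assoc (star w),
      ← mul_assoc _ (star w * w), cfc_mul_id g2 h0.isSelfAdjoint, cfc_mul' (by fun_prop) g2,
      cfc_mul' (by fun_prop) (rp_cont _ _)]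
    congr 1; funext s
    rw [mul_right_comm (√(Gf δ s)), Real.mul_self_sqrt (Gf_nonneg d)]
    rcases le_total s δ with h | h
    · rw [rp_zero d one_pos h, mul_zero]
    · rw [Gf, max_eq_left h, inv_mul_cancel₀ (d.trans_le h).ne', one_mul]
  · have e : z * star w = star w := by rw [← z0, ← star_mul, hz]
    have := mul_cfc_eq_zero h0.isSelfAdjoint (y := 1 - z) (by
      rw [sub_mul, one_mul, ← mul_assoc, e, sub_self]) (rp_cont δ 1) (rp_zero d one_pos d.le)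
    rw [sub_mul, one_mul, sub_eq_zero] at this
    exact this.symm

/-- a common positive element embedding below finitely many nonzero elements -/
theorem Smp.common (hs : Smp j) (hj : Idl j) {x₁ : A} (h1 : ∃ c, j c = x₁) (h3 : x₁ ≠ 0) (n : ℕ)
    (a : Fin n → A) (ha : ∀ l, ∃ c, j c = a l) (a0 : ∀ l, a l ≠ 0) :
    ∃ y y' : A, (∃ c, j c = y) ∧ 0 ≤ y ∧ y ≤ 1 ∧ y' ≠ 0 ∧ y * y' = y' ∧
      ∃ r : Fin n → A, ∀ l, star (a l * r l) * (a l * r l) * y = y := by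
  induction n with
  | zero =>
    obtain ⟨δ, hδ⟩ : ∃ δ, δ = ‖star x₁ * x₁‖ / 4 := ⟨_, rfl⟩
    have n0 : 0 < ‖star x₁ * x₁‖ := norm_pos_iff.2 fun h =>
      h3 ((CStarRing.star_mul_self_eq_zero_iff _).1 h)
    have d : 0 < δ := by rw [hδ]; positivity
    obtain ⟨c, rfl⟩ := h1
    exact ⟨cfc (rp δ 1) (star (j c) * j c), cfc (rp δ 2) (star (j c) * j c),
      hj.cfc_mem (hj.left _ _) (rp_cont _ _) (rp_zero d one_pos d.le), (rp_unit _ _ _).1,
      (rp_unit _ _ _).2, rp_ne_zero d (star_mul_self_nonneg _) (by rw [hδ]; push_cast; linarith),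
      rp_tier (by norm_num) _, 0, fun l => l.elim0⟩
  | succ n ih =>
    obtain ⟨y, y', hy, y0, -, y2, y3, r, hr⟩ := ih (fun l => a l.succ) (fun l => ha _) fun l => a0 _
    have y4 : star y' * y = star y' := by rw [← y0.star_eq, ← star_mul, y3]
    obtain ⟨c, hc⟩ := hj.mem_of_unit hy y3
    obtain ⟨s, h⟩ := hs.link (ha 0) (a0 0) (b := star y') ⟨star c, by rw [map_star, hc]⟩
      (star_ne_zero.2 y2)
    obtain ⟨g, z, z', z0, z1, z2, z3, z4, z5⟩ := polar_part h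
    have z6 := z5 y (by rw [mul_assoc, y4]) y0.star_eq
    refine ⟨z, z', hj.mem_of_unit hy z6, z0, z1, z2, z3, Fin.cons (s * star y' * g) r, fun l =>
      Fin.cases ?_ (fun l => ?_) l⟩
    · simpa only [Fin.cons_zero, mul_assoc] using z4
    · rw [Fin.cons_succ, ← z6, ← mul_assoc, hr]

theorem Smp.halve0 (hs : Smp j) (hj : Idl j) (hv : Hv j) {x₁ x₂ : A} (h1 : ∃ c, j c = x₁)
    (h2 : 0 ≤ x₁) (h3 : x₁ ≠ 0) (h4 : x₂ * x₁ = x₁) (n : ℕ) :
    ∃ y y' : A, (∃ c, j c = y) ∧ 0 ≤ y ∧ y ≤ 1 ∧ y' ≠ 0 ∧ y * y' = y' ∧ ∃ V : Fin n → A,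
      (∀ l, star (V l) * V l * y = y) ∧ (∀ l l', l ≠ l' → star (V l) * V l' = 0) ∧
      ∀ l, x₂ * V l = V l := by
  obtain ⟨z, z1, z2⟩ := hv.many n h1 h2 h3
  obtain ⟨y, y', y0, y1, y2, y3, y4, r, hr⟩ := hs.common hj h1 h3 n z (fun l => (z1 l).1)
    fun l h => by simpa [h] using (z1 l).2.2.1
  refine ⟨y, y', y0, y1, y2, y3, y4, fun l => z l * r l, hr, fun l l' h => ?_, fun l => ?_⟩
  · rw [star_mul, (z1 l).2.1.star_eq, mul_assoc, ← mul_assoc (z l), z2 l l' h, zero_mul, mul_zero]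
  · have := (z1 l).2.2.2 (1 - x₂) (by rw [sub_mul, one_mul, h4, sub_self])
    rw [sub_mul, one_mul, sub_eq_zero] at this
    rw [← mul_assoc, ← this]

theorem Smp.rr (hs : Smp j) (hj : Idl j) (hv : ¬Hv j) : RR j := (hs.hv_or_rr hj).resolve_left hv

lemma E_mem_Cn {B : Type*} [CStarAlgebra B] (z : B) : z ∈ Cn (∅ : Set B) :=
  mem_Cn.2 fun _ h => h.elim

theorem Simp.dom (hj : Idl j) (hs : Smp j) {x f y y' : A} (hf : f ∈ Set.range j)
    (f0 : star f = f) (hx : f * x = x) (hy : y ∈ Set.range j) (hy' : y * y' = y') (h0 : y' ≠ 0) :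
    ∃ K, Dom ∅ 1 x y K := by
  obtain ⟨K, V, h1, h2⟩ := hs.dom0 hj hf f0 hx hy hy' h0
  exact ⟨K, V, fun _ => E_mem_Cn _, by rwa [one_mul], h2⟩

theorem Simp.halve (hj : Idl j) (hs : Smp j) (hv : Hv j) {x₁ x₂ : A} (h1 : x₁ ∈ Set.range j)
    (h2 : 0 ≤ x₁) (h3 : x₁ ≠ 0) (h4 : x₂ * x₁ = x₁) (n : ℕ) :
    ∃ y ∈ Set.range j, 0 ≤ y ∧ y ≤ 1 ∧ (∃ y', y' ≠ 0 ∧ y * y' = y') ∧
      Sub ∅ 1 (n • {y}) {x₂} := by
  obtain ⟨y, y', y0, y1, y2, y3, y4, V, v1, v2, v3⟩ := hs.halve0 hj hv h1 h2 h3 h4 n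
  refine ⟨y, y0, y1, y2, ⟨y', y3, y4⟩, Fin n, Unit, inferInstance, inferInstance, fun _ => y, fun _ => x₂, fun _ => V,
    by simp [Multiset.nsmul_singleton], by simp, fun _ _ => E_mem_Cn _, fun i => ?_,
    fun i i' h => ?_, fun _ => v3⟩
  · simpa using v1 i
  · simp [v2 i i' h]

theorem Simp.rr (hj : Idl j) (hs : Smp j) (hv : ¬Hv j) : RR j := hs.rr hj hv

end Pool.Agent.Lib.MP_30b5b4_an
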