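import Pool.Agent.Lib.MP_30b5b4_an.S.Defs

/-! Order zero systems: basic facts, and merging of two commuting systems. -/

open scoped CStarAlgebra ComplexOrder Topology
open Filter

set_option linter.unusedSectionVars false
set_option linter.style.haveILetI false
set_option linter.unusedVariables false
set_option linter.unusedSimpArgs false

namespace Pool.Agent.Lib.MP_30b5b4_an

universe u v

namespace G1

section
variable {Z R : Type*} [CommRing Z] [Ring R] [Module Z R] [IsScalarTower Z R R]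
  [SMulCommClass Z R R]

lemma rot_mod (α β σ : Z) (h : σ * σ = -(α * β)) {X Y W X' Y' W' F : R}
    (a1 : α • (X * Y) = α • W) (a2 : β • (X' * Y') = β • W') (a3 : σ • (X * Y) = σ • W)
    (a4 : σ • (X' * Y') = σ • W') (f0 : σ • (F * F) = σ • (1 : R))
    (x1 : σ • (F * X) = σ • (X' * F)) (x2 : σ • (X * F) = σ • (F * X'))
    (y1 : σ • (F * Y) = σ • (Y' * F)) (y2 : σ • (Y * F) = σ • (F * Y'))
    (w1 : σ • (F * W) = σ • (W' * F)) (w2 : σ • (W * F) = σ • (F * W')) :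
    (α • X + β • X' + σ • (X * F - F * X)) * (α • Y + β • Y' + σ • (Y * F - F * Y)) =
      (α + β) • (α • W + β • W' + σ • (W * F - F * W)) := by
  have L : ∀ {p q : R}, σ • p = σ • q → ∀ l r, σ • (l * p * r) = σ • (l * q * r) := fun h l r => by
    rw [← smul_mul_assoc, ← mul_smul_comm, h, mul_smul_comm, smul_mul_assoc]
  have e4 : σ • (X * (Y * F - F * Y) + (X * F - F * X) * Y) = σ • (W * F - F * W) := by
    have h1 := L a3 1 F
    have h2 := L a3 F 1
    simp only [one_mul, mul_one] at h1 h2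
    rw [show X * (Y * F - F * Y) + (X * F - F * X) * Y = X * Y * F - F * (X * Y) by noncomm_ring,
      smul_sub, smul_sub, h1, h2]
  have e5 : σ • (X' * (Y * F - F * Y) + (X * F - F * X) * Y') = σ • (W * F - F * W) := by
    have h1 := L y2 X' 1
    have h2 := L y1 X' 1
    have h3 := L x2 1 Y'
    have h4 := L x1 1 Y'
    have h5 := L a4 1 F
    have h6 := L a4 F 1
    simp only [one_mul, mul_one, mul_assoc] at h1 h2 h3 h4 h5 h6
    simp only [mul_sub, sub_mul, smul_add, smul_sub, mul_assoc]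
    rw [h1, h2, h3, h4, h5, h6, w1, w2]; abel
  have e6 : σ • ((X * F - F * X) * (Y * F - F * Y)) = σ • (X * Y' + X' * Y - W - W') := by
    have h1 := L y1 X F
    have h2 := L f0 (X * Y') 1
    have h3 := L f0 X Y
    have h4 := L a3 F F
    have h5 := L w1 1 F
    have h6 := L f0 W' 1
    have h7 := L x1 1 (F * Y)
    have h8 := L f0 X' Y
    simp only [one_mul, mul_one, mul_assoc] at h1 h2 h3 h4 h5 h6 h7 h8
    simp only [mul_sub, sub_mul, smul_add, smul_sub, mul_assoc]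
    rw [h1, h2, h3, h4, h5, h6, h7, h8, a3]; abel
  have e : (α • X + β • X' + σ • (X * F - F * X)) * (α • Y + β • Y' + σ • (Y * F - F * Y)) =
      α • α • (X * Y) + β • β • (X' * Y') + (α * β) • (X * Y' + X' * Y) +
      α • σ • (X * (Y * F - F * Y) + (X * F - F * X) * Y) +
      β • σ • (X' * (Y * F - F * Y) + (X * F - F * X) * Y') +
      σ • σ • ((X * F - F * X) * (Y * F - F * Y)) := by
    generalize X * F - F * X = D
    generalize Y * F - F * Y = E
    simp only [mul_add, add_mul, smul_mul_assoc, mul_smul_comm]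
    module
  rw [e, a1, a2, e4, e5, e6, smul_smul σ σ, h]
  module

end

lemma rot_ring {R : Type*} [Ring R] {α β σ X Y W X' Y' W' F : R} (h : σ * σ = -(α * β))
    (c : ∀ z ∈ ({α, β, σ} : Set R), ∀ x ∈ ({α, β, σ, X, Y, W, X', Y', W', F} : Set R),
      z * x = x * z)
    (a1 : α * (X * Y) = α * W) (a2 : β * (X' * Y') = β * W') (a3 : σ * (X * Y) = σ * W)
    (a4 : σ * (X' * Y') = σ * W') (f0 : σ * (F * F) = σ)
    (x1 : σ * (F * X) = σ * (X' * F)) (x2 : σ * (X * F) = σ * (F * X'))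
    (y1 : σ * (F * Y) = σ * (Y' * F)) (y2 : σ * (Y * F) = σ * (F * Y'))
    (w1 : σ * (F * W) = σ * (W' * F)) (w2 : σ * (W * F) = σ * (F * W')) :
    (α * X + β * X' + σ * (X * F - F * X)) * (α * Y + β * Y' + σ * (Y * F - F * Y)) =
      (α + β) * (α * W + β * W' + σ * (W * F - F * W)) := by
  let R' := Subring.centralizer ({α, β, σ} : Set R)
  let T : Set R := {α, β, σ, X, Y, W, X', Y', W', F}
  let ι : ∀ x ∈ T, R' := fun x hx => ⟨x, fun z hz => c z hz x hx⟩
  let ζ : ∀ z ∈ ({α, β, σ} : Set R), Subring.center R' := fun z hz =>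
    ⟨ι z (by rcases hz with rfl | rfl | rfl <;> simp [T]),
      Subring.mem_center_iff.2 fun g => Subtype.ext (g.2 z hz).symm⟩
  have := rot_mod (ζ α (by simp)) (ζ β (by simp)) (ζ σ (by simp)) (Subtype.ext (Subtype.ext h))
    (X := ι X (by simp [T])) (Y := ι Y (by simp [T])) (W := ι W (by simp [T]))
    (X' := ι X' (by simp [T])) (Y' := ι Y' (by simp [T])) (W' := ι W' (by simp [T]))
    (F := ι F (by simp [T])) (Subtype.ext a1) (Subtype.ext a2) (Subtype.ext a3) (Subtype.ext a4)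
    (Subtype.ext (f0.trans (mul_one σ).symm)) (Subtype.ext x1) (Subtype.ext x2) (Subtype.ext y1)
    (Subtype.ext y2) (Subtype.ext w1) (Subtype.ext w2)
  exact congrArg Subtype.val this

end G1

variable {B : Type u} [CStarAlgebra B] [PartialOrder B] [StarOrderedRing B] {K : Type} [Fintype K]
  {Φ Φ' : K → K → B} {w w' e : B} {S : Set B}

lemma Sys.of (c : K → B) {γ : B} (h1 : ∀ l, star (c l) * c l = γ)
    (h2 : ∀ l l', l ≠ l' → star (c l) * c l' = 0) (h3 : γ ≤ 1) :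
    Sys (fun l m => c l * star (c m)) (∑ l, c l * star (c l)) := by
  have k : ∀ l, (∑ i, c i * star (c i)) * c l = c l * γ := fun l => by
    rw [Finset.sum_mul, Finset.sum_eq_single l (fun i _ hi => by rw [mul_assoc, h2 i l hi, mul_zero])
      (by simp), mul_assoc, h1]
  have w0 : 0 ≤ ∑ l, c l * star (c l) := Finset.sum_nonneg fun l _ => mul_star_self_nonneg _
  refine ⟨fun l m => by rw [star_mul, star_star], fun l m m' => ?_, fun l m l' m' h => ?_, rfl, w0,
    ?_⟩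
  · rw [← mul_assoc (∑ _, _), k, mul_assoc, ← mul_assoc (star _), h1, mul_assoc]
  · rw [mul_assoc, ← mul_assoc (star _), h2 _ _ h, zero_mul, mul_zero]
  · set w := ∑ l, c l * star (c l) with hw
    have h4 : w * w ≤ w := by
      conv_lhs => enter [2]; rw [hw]
      conv_rhs => rw [hw]
      rw [Finset.mul_sum]
      refine Finset.sum_le_sum fun l _ => ?_
      rw [← mul_assoc, k]
      simpa using star_right_conjugate_le_conjugate h3 (c l)
    have sa := w0.isSelfAdjoint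
    have h5 : cfc (fun t : ℝ => t * t) w ≤ cfc (fun t : ℝ => t) w := by
      rwa [cfc_mul _ _ w, cfc_id' ℝ w]
    rw [cfc_le_iff _ _ w] at h5
    refine (CFC.le_one_iff (R := ℝ) w).2 fun t ht => ?_
    nlinarith [h5 t ht]

lemma Sys.comm (h : Sys Φ w) (l m : K) : Commute w (Φ l m) := by
  have := congrArg star (h.mul m m l)
  rw [star_mul, star_mul, h.st, h.st, h.w0.star_eq, h.mul] at this
  exact this

lemma Sys.diag (h : Sys Φ w) (l : K) : 0 ≤ Φ l l ∧ Φ l l ≤ w := by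
  have k : ∀ l, 0 ≤ Φ l l := fun l => by
    have sa : IsSelfAdjoint (Φ l l) := h.st l l
    have h1 : 0 ≤ cfc (fun t : ℝ => t * (t * t)) (Φ l l) := by
      rw [cfc_mul _ _ (Φ l l), cfc_mul _ _ (Φ l l), cfc_id' ℝ (Φ l l), h.mul, ← mul_assoc]
      simpa only [h.st] using star_left_conjugate_nonneg h.w0 (Φ l l)
    rw [cfc_nonneg_iff _ (Φ l l)] at h1
    refine (StarOrderedRing.nonneg_iff_spectrum_nonneg (R := ℝ) _).2 fun t ht => ?_
    by_contra hc
    have := h1 t ht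
    nlinarith [mul_pos (neg_pos.2 (not_le.1 hc)) (mul_pos_of_neg_of_neg (not_le.1 hc) (not_le.1 hc))]
  exact ⟨k l, h.sum ▸ Finset.single_le_sum (f := fun l => Φ l l) (fun i _ => k i) (Finset.mem_univ l)⟩

lemma Sys.norm_le (h : Sys Φ w) (l m : K) : ‖Φ l m‖ ≤ 1 := by
  have h1 : ‖w‖ ≤ 1 := (CStarAlgebra.norm_le_one_iff_of_nonneg _ h.w0).2 h.w1
  have h2 : ‖Φ m m‖ ≤ 1 :=
    (CStarAlgebra.norm_le_one_iff_of_nonneg _ (h.diag m).1).2 ((h.diag m).2.trans h.w1)
  have h3 := CStarRing.norm_star_mul_self (x := Φ l m)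
  rw [h.st, h.mul] at h3
  have h4 := (norm_mul_le w (Φ m m)).trans (mul_le_one₀ h1 (norm_nonneg _) h2)
  nlinarith [norm_nonneg (Φ l m)]

lemma Sys.mem (h : Sys Φ w) (hS : ∀ l m, Φ l m ∈ Cn S) : w ∈ Cn S :=
  h.sum ▸ sum_mem fun l _ => hS l l

namespace G1

lemma comm_w (h : Sys Φ w) {z : B} (hz : ∀ l m, Commute (Φ l m) z) : Commute w z :=
  h.sum ▸ Commute.sum_left _ _ _ fun l _ => hz l l

lemma scale (h : Sys Φ w) {δ : ℝ} (hδ : 0 < δ) :
    Sys (fun l m => cfc (Gf δ) w * Φ l m) (cfc (Gf δ) w * w) := by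
  have c : ∀ l m, Commute (cfc (Gf δ) w) (Φ l m) := fun l m => (h.comm l m).cfc_real _
  have := Gf_cont hδ
  refine ⟨fun l m => ?_, fun l m m' => ?_, fun l m l' m' hm => ?_, ?_, ?_, ?_⟩
  · rw [star_mul, h.st, IsSelfAdjoint.cfc.star_eq, (c m l).eq]
  · rw [(c l m).symm.mul_mul_mul_comm, h.mul,
      ((Commute.refl w).cfc_real (Gf δ)).mul_mul_mul_comm]
  · rw [(c l m).symm.mul_mul_mul_comm, h.zero _ _ _ _ hm, mul_zero]
  · rw [← Finset.mul_sum, h.sum]
  · exact ((Commute.refl w).cfc_real _).mul_nonneg (cfc_nonneg fun t _ => Gf_nonneg hδ) h.w0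
  · rw [cfc_mul_id this h.w0.isSelfAdjoint]
    exact cfc_le_one _ _ fun t _ => (mul_comm _ _).trans_le (mul_Gf_le hδ)

lemma flipA (h : Sys Φ w) (T : K → K → B) (hT : ∀ l m, Commute w (T l m)) (k m : K) :
    (∑ l, ∑ n, T n l * Φ l n) * Φ k m = w * ∑ l, T k l * Φ l m := by
  rw [Finset.sum_mul, Finset.mul_sum]
  refine Finset.sum_congr rfl fun l _ => ?_
  rw [Finset.sum_mul, Finset.sum_eq_single k
    (fun n _ hn => by rw [mul_assoc, h.zero _ _ _ _ hn, mul_zero]) (by simp), mul_assoc, h.mul,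
    (hT k l).left_comm]

lemma flipB (h : Sys Φ w) (T : K → K → B) (k m : K) :
    Φ k m * (∑ l, ∑ n, Φ n l * T l n) = w * ∑ l, Φ k l * T l m := by
  rw [Finset.mul_sum, Finset.mul_sum]
  refine Finset.sum_congr rfl fun l _ => ?_
  rw [Finset.mul_sum, Finset.sum_eq_single m
    (fun n _ hn => by rw [← mul_assoc, h.zero _ _ _ _ hn.symm, zero_mul]) (by simp), ← mul_assoc,
    h.mul, mul_assoc]

lemma rot_core (h : Sys Φ w) (h' : Sys Φ' w') (hc : ∀ l m l' m', Commute (Φ l m) (Φ' l' m'))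
    {α β s : B} (α0 : star α = α) (β0 : star β = β) (s0 : star s = s)
    (c : ∀ z ∈ ({α, β, s} : Set B), (∀ x ∈ ({α, β, s} : Set B), Commute z x) ∧
      ∀ l m, Commute z (Φ l m) ∧ Commute z (Φ' l m))
    (u1 : α * w = α) (u2 : β * w' = β) (u3 : s * w = s) (u4 : s * w' = s) (hs : s * s = α * β)
    (p0 : 0 ≤ α + β) (p1 : α + β ≤ 1) :
    Sys (fun l m => α * Φ l m + β * Φ' l m + (Complex.I • s) *
      (Φ l m * (∑ l, ∑ n, Φ' n l * Φ l n) - (∑ l, ∑ n, Φ' n l * Φ l n) * Φ l m)) (α + β) := by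
  set F := ∑ l, ∑ n, Φ' n l * Φ l n with hF
  set σ := Complex.I • s with hσ
  have hF' : F = ∑ l, ∑ n, Φ n l * Φ' l n := by
    rw [hF, Finset.sum_comm]
    exact Finset.sum_congr rfl fun l _ => Finset.sum_congr rfl fun n _ => (hc _ _ _ _).symm.eq
  have c1 : ∀ l m, Commute w (Φ' l m) := fun l m => comm_w h fun _ _ => hc _ _ _ _
  have c2 : ∀ l m, Commute w' (Φ l m) := fun l m => comm_w h' fun _ _ => (hc _ _ _ _).symm
  have v3 : ∀ x, σ * (w * x) = σ * x := fun x => by rw [← mul_assoc, hσ, smul_mul_assoc, u3]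
  have v4 : ∀ x, σ * (w' * x) = σ * x := fun x => by rw [← mul_assoc, hσ, smul_mul_assoc, u4]
  have x1 : ∀ k m, σ * (F * Φ k m) = σ * (Φ' k m * F) := fun k m => by
    rw [hF, flipA h Φ' c1, flipB h' Φ, v3, v4]
  have x2 : ∀ k m, σ * (Φ k m * F) = σ * (F * Φ' k m) := fun k m => by
    rw [hF', flipA h' Φ c2, flipB h Φ', v3, v4]
  have f0 : σ * (F * F) = σ := by
    have e1 : F * F = w * (w * (w' * w')) := by
      conv_lhs => enter [2]; rw [hF']
      have e2 : ∀ n l, F * (Φ n l * Φ' l n) = w * (Φ l l * (w' * Φ' n n)) := fun n l => by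
        rw [← mul_assoc, hF, flipA h Φ' c1, mul_assoc, Finset.sum_mul, Finset.sum_eq_single l
          (fun k _ hk => by
            rw [← (hc _ _ _ _).eq, mul_assoc, h'.zero _ _ _ _ hk, mul_zero]) (by simp),
          ← (hc _ _ _ _).eq, mul_assoc, h'.mul]
      simp only [Finset.mul_sum _ _ F, e2]
      simp only [← Finset.mul_sum, ← Finset.sum_mul, h.sum, h'.sum]
    rw [e1, v3, v3, v4, hσ, smul_mul_assoc, u4]
  have cF : ∀ {z}, (∀ l m, Commute z (Φ l m) ∧ Commute z (Φ' l m)) → Commute z F := fun hz =>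
    Commute.sum_right _ _ _ fun l _ => Commute.sum_right _ _ _ fun n _ =>
      (hz _ _).2.mul_right (hz _ _).1
  have cα := c α (by simp)
  have cβ := c β (by simp)
  have cs := c s (by simp)
  have cσ : ∀ l m, Commute σ (Φ l m) ∧ Commute σ (Φ' l m) := fun l m =>
    ⟨(cs.2 l m).1.smul_left _, (cs.2 l m).2.smul_left _⟩
  have hσ2 : σ * σ = -(α * β) := by
    rw [hσ, smul_mul_smul_comm, Complex.I_mul_I, hs, neg_smul, one_smul]
  have cc : ∀ z ∈ ({α, β, σ} : Set B), (∀ x ∈ ({α, β, σ, F} : Set B), Commute z x) ∧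
      ∀ l m, Commute z (Φ l m) ∧ Commute z (Φ' l m) := by
    have k1 := cα.1 β (by simp)
    have k2 : Commute α σ := (cα.1 s (by simp)).smul_right _
    have k3 : Commute β σ := (cβ.1 s (by simp)).smul_right _
    rintro z (rfl | rfl | rfl)
    · refine ⟨?_, cα.2⟩
      rintro x (rfl | rfl | rfl | rfl)
      exacts [Commute.refl _, k1, k2, cF cα.2]
    · refine ⟨?_, cβ.2⟩
      rintro x (rfl | rfl | rfl | rfl)
      exacts [k1.symm, Commute.refl _, k3, cF cβ.2]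
    · refine ⟨?_, cσ⟩
      rintro x (rfl | rfl | rfl | rfl)
      exacts [k2.symm, k3.symm, Commute.refl _, cF cσ]
  have F0 : star F = F := by
    conv_rhs => rw [hF, Finset.sum_comm]
    simp only [hF', star_sum, star_mul, h.st, h'.st]
    rw [Finset.sum_comm]
  refine ⟨fun l m => ?_, fun l m m' => ?_, fun l m l' m' hm => ?_, ?_, p0, p1⟩
  · have d : Commute σ (Φ m l * F - F * Φ m l) :=
      ((cσ _ _).1.mul_right (cF cσ)).sub_right ((cF cσ).mul_right (cσ _ _).1)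
    have σ0 : star σ = -σ := by rw [hσ, star_smul, s0, Complex.star_def, Complex.conj_I, neg_smul]
    simp only [star_add, star_mul, star_sub, h.st, h'.st, α0, β0, σ0, F0]
    rw [(cα.2 m l).1.eq, (cβ.2 m l).2.eq, d.eq, mul_neg, ← neg_mul, neg_sub]
  · refine rot_ring hσ2 (fun z hz x hx => ?_) (by rw [h.mul, ← mul_assoc, u1])
      (by rw [h'.mul, ← mul_assoc, u2]) (by rw [h.mul, v3]) (by rw [h'.mul, v4]) f0 (x1 _ _)
      (x2 _ _) (x1 _ _) (x2 _ _) (x1 _ _) (x2 _ _)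
    obtain ⟨k1, k2⟩ := cc z hz
    rcases hx with rfl | rfl | rfl | rfl | rfl | rfl | rfl | rfl | rfl | rfl
    exacts [k1 _ (by simp), k1 _ (by simp), k1 _ (by simp), (k2 _ _).1, (k2 _ _).1, (k2 _ _).1,
      (k2 _ _).2, (k2 _ _).2, (k2 _ _).2, k1 _ (by simp)]
  · refine (rot_ring (W := 0) (W' := 0) hσ2 (fun z hz x hx => ?_) (by rw [h.zero _ _ _ _ hm])
      (by rw [h'.zero _ _ _ _ hm]) (by rw [h.zero _ _ _ _ hm]) (by rw [h'.zero _ _ _ _ hm]) f0
      (x1 _ _) (x2 _ _) (x1 _ _) (x2 _ _) (by simp) (by simp)).trans (by simp)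
    obtain ⟨k1, k2⟩ := cc z hz
    rcases hx with rfl | rfl | rfl | rfl | rfl | rfl | rfl | rfl | rfl | rfl
    exacts [k1 _ (by simp), k1 _ (by simp), k1 _ (by simp), (k2 _ _).1, (k2 _ _).1,
      Commute.zero_right _, (k2 _ _).2, (k2 _ _).2, Commute.zero_right _, k1 _ (by simp)]
  · have d : Commute w F := cF fun l m => ⟨h.comm l m, c1 l m⟩
    simp only [Finset.sum_add_distrib, ← Finset.mul_sum, Finset.sum_sub_distrib, ← Finset.sum_mul,
      h.sum, h'.sum, u1, u2, d.eq, sub_self, mul_zero, add_zero]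

lemma unit_half {x : B} (hx : IsSelfAdjoint x) {f : ℝ → ℝ} (hf : Continuous f)
    (f0 : ∀ t, t ≤ 1 / 2 → f t = 0) : cfc f x * (cfc (Gf (1 / 2)) x * x) = cfc f x := by
  have := Gf_cont (η := 1 / 2) (by norm_num)
  rw [cfc_mul_id this hx, cfc_mul' hf (by fun_prop)]
  congr 1
  funext t
  rcases le_total t (1 / 2) with h1 | h1
  · rw [f0 t h1, zero_mul]
  · rw [Gf, max_eq_left h1, inv_mul_cancel₀ (by linarith), mul_one]

end G1

open G1 in
/-- Two commuting systems merge. -/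
theorem Sys.rot (h : Sys Φ w) (h' : Sys Φ' w') (hc : ∀ l m l' m', Commute (Φ l m) (Φ' l' m')) :
    ∃ Ψ : K → K → B, Sys Ψ (1 - (1 - cfc (rp (1 / 4) 2) w) * (1 - cfc (rp (1 / 4) 2) w')) ∧
      ∀ S : Set B, (∀ l m, Φ l m ∈ Cn S) → (∀ l m, Φ' l m ∈ Cn S) → ∀ l m, Ψ l m ∈ Cn S := by
  set f := rp (1 / 4) 2 with hf
  have fc : Continuous f := rp_cont _ _
  have f0 : ∀ t, t ≤ 1 / 2 → f t = 0 := fun t ht => cl_of_nonpos (by push_cast; linarith)
  have f1 : ∀ t, 0 ≤ f t := fun t => cl_nonneg _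
  have f2 : ∀ t, f t ≤ 1 := fun t => cl_le_one _
  have sa := h.w0.isSelfAdjoint
  have sa' := h'.w0.isSelfAdjoint
  have c1 : ∀ l m, Commute w (Φ' l m) := fun l m => comm_w h fun _ _ => hc _ _ _ _
  have c2 : ∀ l m, Commute w' (Φ l m) := fun l m => comm_w h' fun _ _ => (hc _ _ _ _).symm
  have c3 : Commute w w' := (comm_w h' fun l m => (c1 l m).symm).symm
  have d1 : ∀ a b : ℝ → ℝ, Commute (cfc a w) (cfc b w) := fun a b =>
    (((Commute.refl w).cfc_real b).symm.cfc_real a)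
  have d2 : ∀ a b : ℝ → ℝ, Commute (cfc a w') (cfc b w') := fun a b =>
    (((Commute.refl w').cfc_real b).symm.cfc_real a)
  have d3 : ∀ a b : ℝ → ℝ, Commute (cfc a w) (cfc b w') := fun a b =>
    ((c3.symm.cfc_real b).symm.cfc_real a)
  have d4 : ∀ a b a' b' : ℝ → ℝ, Commute (cfc a w * cfc b w') (cfc a' w * cfc b' w') :=
    fun a b a' b' => ((d1 _ _).mul_left (d3 _ _).symm).mul_right ((d3 _ _).mul_left (d2 _ _))
  have d5 : ∀ (a g : ℝ → ℝ) l m, Commute (cfc a w) (cfc g w * Φ l m) ∧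
      Commute (cfc a w) (cfc g w' * Φ' l m) := fun a g l m =>
    ⟨(d1 _ _).mul_right ((h.comm l m).cfc_real _), (d3 _ _).mul_right ((c1 l m).cfc_real _)⟩
  have d6 : ∀ (a g : ℝ → ℝ) l m, Commute (cfc a w') (cfc g w * Φ l m) ∧
      Commute (cfc a w') (cfc g w' * Φ' l m) := fun a g l m =>
    ⟨(d3 _ _).symm.mul_right ((c2 l m).cfc_real _), (d2 _ _).mul_right ((h'.comm l m).cfc_real _)⟩
  have e1 : cfc (fun t => 1 - f t) w = 1 - cfc f w := by rw [cfc_sub _ _ w, cfc_const_one ℝ w]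
  have e2 : cfc (fun t => 1 - f t) w' = 1 - cfc f w' := by rw [cfc_sub _ _ w', cfc_const_one ℝ w']
  have e3 : 1 - (1 - cfc f w) * (1 - cfc f w') =
      cfc f w + cfc (fun t => 1 - f t) w * cfc f w' := by rw [e1]; noncomm_ring
  have n1 := mul_unit (a := cfc (fun t => 1 - f t) w) (b := cfc (fun t => 1 - f t) w')
    (cfc_nonneg fun t _ => sub_nonneg.2 (f2 t)) (cfc_le_one _ _ fun t _ => sub_le_self _ (f1 t))
    (cfc_nonneg fun t _ => sub_nonneg.2 (f2 t)) (cfc_le_one _ _ fun t _ => sub_le_self _ (f1 t))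
    (d3 _ _)
  rw [e1, e2] at n1
  have key := rot_core (scale h (δ := 1 / 2) (by norm_num)) (scale h' (δ := 1 / 2) (by norm_num))
    (fun l m l' m' => (d5 _ _ _ _).2.mul_left
      (((c2 l m).cfc_real _).symm.mul_right (hc _ _ _ _)))
    (α := cfc f w) (β := cfc (fun t => 1 - f t) w * cfc f w')
    (s := cfc (fun t => √(f t * (1 - f t))) w * cfc (fun t => √(f t)) w')
    IsSelfAdjoint.cfc.star_eq
    (by rw [star_mul, IsSelfAdjoint.cfc.star_eq, IsSelfAdjoint.cfc.star_eq, (d3 _ _).eq])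
    (by rw [star_mul, IsSelfAdjoint.cfc.star_eq, IsSelfAdjoint.cfc.star_eq, (d3 _ _).eq])
    (by
      rintro z (rfl | rfl | rfl)
      · refine ⟨?_, fun l m => d5 _ _ l m⟩
        rintro x (rfl | rfl | rfl)
        exacts [Commute.refl _, (d1 _ _).mul_right (d3 _ _), (d1 _ _).mul_right (d3 _ _)]
      · refine ⟨?_, fun l m => ⟨(d5 _ _ l m).1.mul_left (d6 _ _ l m).1,
          (d5 _ _ l m).2.mul_left (d6 _ _ l m).2⟩⟩
        rintro x (rfl | rfl | rfl)
        exacts [((d1 _ _).mul_right (d3 _ _)).symm, Commute.refl _, d4 _ _ _ _]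
      · refine ⟨?_, fun l m => ⟨(d5 _ _ l m).1.mul_left (d6 _ _ l m).1,
          (d5 _ _ l m).2.mul_left (d6 _ _ l m).2⟩⟩
        rintro x (rfl | rfl | rfl)
        exacts [((d1 _ _).mul_right (d3 _ _)).symm, d4 _ _ _ _, Commute.refl _])
    (unit_half sa fc f0) (by rw [mul_assoc, unit_half sa' fc f0])
    (by rw [(d3 _ _).eq, mul_assoc, unit_half sa (by fun_prop) fun t ht => by simp [f0 t ht]])
    (by rw [mul_assoc, unit_half sa' (by fun_prop) fun t ht => by simp [f0 t ht]])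
    (by
      rw [(d3 _ _).symm.mul_mul_mul_comm, cfc_mul' (by fun_prop) (by fun_prop),
        cfc_mul' (by fun_prop) (by fun_prop), ← mul_assoc, cfc_mul' fc (by fun_prop)]
      congr 2
      · funext t; exact Real.mul_self_sqrt (mul_nonneg (f1 t) (sub_nonneg.2 (f2 t)))
      · funext t; exact Real.mul_self_sqrt (f1 t))
    (e3 ▸ sub_nonneg.2 n1.2) (e3 ▸ sub_le_self _ n1.1)
  refine ⟨_, e3 ▸ key, fun S m1 m2 l m => ?_⟩
  have m3 : ∀ a : ℝ → ℝ, cfc a w ∈ Cn S := fun a => cfc_mem_cl (Cn_closed S) _ (h.mem m1)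
  have m4 : ∀ a : ℝ → ℝ, cfc a w' ∈ Cn S := fun a => cfc_mem_cl (Cn_closed S) _ (h'.mem m2)
  have m5 : ∀ l m, cfc (Gf (1 / 2)) w * Φ l m ∈ Cn S := fun l m => mul_mem (m3 _) (m1 l m)
  have m6 : ∀ l m, cfc (Gf (1 / 2)) w' * Φ' l m ∈ Cn S := fun l m => mul_mem (m4 _) (m2 l m)
  have m7 : ∑ l, ∑ n, cfc (Gf (1 / 2)) w' * Φ' n l * (cfc (Gf (1 / 2)) w * Φ l n) ∈ Cn S :=
    sum_mem fun l _ => sum_mem fun n _ => mul_mem (m6 _ _) (m5 _ _)
  exact add_mem (add_mem (mul_mem (m3 _) (m5 _ _)) (mul_mem (mul_mem (m3 _) (m4 _)) (m6 _ _)))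
    (mul_mem (SMulMemClass.smul_mem _ (mul_mem (m3 _) (m4 _)))
      (sub_mem (mul_mem (m5 _ _) m7) (mul_mem m7 (m5 _ _))))

end Pool.Agent.Lib.MP_30b5b4_an
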