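import Pool.Agent.Lib.MP_30b5b4_an.S.Defs
import Pool.Agent.Lib.MP_30b5b4_an.VS3

/-! The block hypothesis for the slot construction. -/

open scoped CStarAlgebra ComplexOrder Topology
open Filter

set_option linter.unusedSectionVars false
set_option linter.style.haveILetI false
set_option linter.unusedVariables false
set_option linter.unusedSimpArgs false
set_option synthInstance.maxSize 1000000

namespace Pool.Agent.Lib.MP_30b5b4_an

universe u v

variable {A : Type u} [CStarAlgebra A] [PartialOrder A] [StarOrderedRing A] {N : ℕ}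

theorem Ap.blW {P : Prop} (hA : Ap (NonUnitalStarAlgHom.id ℂ A) N P) (δ : ℝ) {S : Set (UA A)}
    {d e a q μ D p p₀ : UA A} (hd : d ∈ S) (he : e * cfc (rp δ 1) d = cfc (rp δ 1) d)
    (mD : D ∈ Cn S) (mp : p ∈ Cn S) (mp₀ : p₀ ∈ Cn S) (D0 : star D = D) (hD : D * μ = μ)
    (hk : ∃ k, D = a * k) (p0 : star p₀ = p₀) (hp : p * p₀ = p₀)
    (hq : ∀ V, q * V = V → p₀ * V = V) {L b C : ℕ} (hL : 0 < L) (hC : 2 * b ≤ L * C)
    (h : Sub S e (L • {a}) (b • {q})) : BL δ d μ p (N * C) := by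
  classical
  obtain ⟨α, β, _, _, z, q', V, hz, hq', hV⟩ := h
  obtain ⟨k, hk⟩ := hk
  have za : ∀ i, z i = a := fun i => Multiset.mem_singleton.1 (Multiset.mem_of_mem_nsmul
    (hz ▸ Multiset.mem_map_of_mem z (Finset.mem_univ i) : z i ∈ (L • {a} : Multiset _)))
  have qa : ∀ i, q' i = q := fun i => Multiset.mem_singleton.1 (Multiset.mem_of_mem_nsmul
    (hq' ▸ Multiset.mem_map_of_mem q' (Finset.mem_univ i) : q' i ∈ (b • {q} : Multiset _)))
  have cα : Fintype.card α = L := by simpa using congrArg Multiset.card hz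
  have cβ : Fintype.card β = b := by simpa using congrArg Multiset.card hq'
  obtain ⟨g, hg⟩ : ∃ g : ℕ → UA A, ∀ m, cfc (rp δ m) d = g m := ⟨_, fun _ => rfl⟩
  have gt : ∀ m m', m < m' → g m * g m' = g m' ∧ g m' * g m = g m' := fun m m' h => by
    simpa only [hg] using rp_tier2 δ h d
  have gc : ∀ m {x}, x ∈ Cn S → Commute (g m) x := fun m x hx =>
    hg m ▸ (Cn_comm hx hd).symm.cfc_real _
  have gu : ∀ m, 0 ≤ g m ∧ g m ≤ 1 := fun m => hg m ▸ rp_mem δ m d
  have gs : ∀ m, star (g m) = g m := fun m => (gu m).1.star_eq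
  rw [hg] at he
  have e1 : ∀ i, g 7 * D = e * z i * (k * g 7) := fun i => by
    rw [za, mul_assoc, ← mul_assoc a, ← hk, ← (gc 7 mD).eq, ← mul_assoc,
      ← (gt 1 7 (by omega)).1, ← mul_assoc e, he]
  obtain ⟨v, -, v1, v2, v3⟩ := hA.cmp0 (x := g 7 * D) (y := g 2 * p₀)
    (by rw [IsSelfAdjoint, star_mul, D0, gs, (gc 7 mD).eq])
    (by rw [IsSelfAdjoint, star_mul, p0, gs, (gc 2 mp₀).eq]) V (fun i i' => by
      split_ifs with hi
      · rw [hi, e1 i', ← mul_assoc, hV.diag]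
      · rw [e1 i', ← mul_assoc, hV.off i i' hi, zero_mul]) (fun l i => by
      rw [mul_assoc (g 2), hq _ (qa l ▸ hV.rng l i), (gc 2 (hV.mem l i)).eq, mul_assoc,
        ← mul_assoc (g 2), (gt 2 7 (by omega)).1]) C (cα ▸ hL) (by rw [cα, cβ]; exact hC)
  have e2 : ∑ t : Fin (N * C), star (v (finProdFinEquiv.symm t) * g 2) *
      (v (finProdFinEquiv.symm t) * g 2) = g 2 * (∑ t, star (v t) * v t) * g 2 := by
    rw [Finset.mul_sum, Finset.sum_mul]
    refine Fintype.sum_equiv finProdFinEquiv.symm _ _ fun t => ?_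
    rw [star_mul, gs]; simp only [mul_assoc]
  refine ⟨fun t => v (finProdFinEquiv.symm t) * g 2, ?_, ?_, fun t => ⟨?_, ?_, ?_⟩⟩
  · rw [e2, hg, mul_assoc, ← mul_assoc (g 2) (g 8), (gt 2 8 (by omega)).1, mul_assoc, v2,
      ← mul_assoc, (gt 2 8 (by omega)).1]
    rw [mul_assoc, ← mul_assoc D, ← (gc 8 mD).eq, mul_assoc, hD, ← mul_assoc,
      (gt 7 8 (by omega)).1]
  · rw [e2]
    have a1 := star_left_conjugate_le_conjugate v1 (g 2)
    rw [gs, mul_one] at a1
    exact a1.trans (mul_unit (gu 2).1 (gu 2).2 (gu 2).1 (gu 2).2 (Commute.refl _)).2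
  · have := v3 (finProdFinEquiv.symm t) (1 - p) (by
      rw [(gc 2 mp₀).eq, ← mul_assoc, sub_mul, one_mul, hp, sub_self, zero_mul])
    rw [sub_mul, one_mul, sub_eq_zero] at this
    rw [← mul_assoc, ← this]
  · have := v3 (finProdFinEquiv.symm t) (1 - g 1) (by
      rw [← mul_assoc, sub_mul, one_mul, (gt 1 2 one_lt_two).1, sub_self, zero_mul])
    rw [sub_mul, one_mul, sub_eq_zero] at this
    rw [hg, ← mul_assoc, ← this]
  · rw [hg, mul_assoc, (gt 1 2 one_lt_two).2]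

end Pool.Agent.Lib.MP_30b5b4_an
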