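import Pool.Agent.Lib.MP_30b5b4_an.Z6

/-! States and the expectation onto an order zero map. -/

open scoped CStarAlgebra ComplexOrder Topology
open Filter

set_option linter.unusedSectionVars false
set_option linter.style.haveILetI false
set_option linter.unusedVariables false
set_option linter.unusedSimpArgs false

namespace Pool.Agent.Lib.MP_30b5b4_an

section state
variable {D : Type*} [CStarAlgebra D] [PartialOrder D] [StarOrderedRing D]

lemma isCP_of_pos {ω : D →ₗ[ℂ] ℂ} (h : ∀ x, 0 ≤ ω (star x * x)) : IsCP ω := by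
  intro n a b
  have := h (∑ i, b i • a i)
  simp only [star_sum, star_smul, Finset.sum_mul, Finset.mul_sum, smul_mul_smul_comm, map_sum,
    map_smul, smul_eq_mul] at this
  rw [Finset.sum_comm] at this
  convert this using 3
  ring

lemma isCP_of_norm {ω : D →ₗ[ℂ] ℂ} (h : ∀ x, ‖ω x‖ ≤ ‖x‖) (h1 : ω 1 = 1) : IsCP ω := by
  refine isCP_of_pos fun x => ?_
  have a0 := star_mul_self_nonneg x
  generalize star x * x = a at a0
  have a1 : ∀ t : ℝ, 2 * t * (ω a).im ≤ ‖a‖ ^ 2 := fun t => by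
    have b1 := h (a + (t * Complex.I) • 1)
    have b2 : star (a + (t * Complex.I) • (1 : D)) * (a + (t * Complex.I) • 1) =
        a * a + ((t ^ 2 : ℝ) : ℂ) • 1 := by
      simp only [star_add, star_smul, a0.star_eq, star_one, star_mul, Complex.star_def,
        Complex.conj_I, Complex.conj_ofReal, add_mul, mul_add, smul_mul_assoc, mul_smul_comm,
        one_mul, mul_one, smul_smul, map_mul]
      rw [show ((t ^ 2 : ℝ) : ℂ) = (t : ℂ) * Complex.I * (-Complex.I * t) by
        push_cast; linear_combination ((t : ℂ) ^ 2) * Complex.I_mul_I]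
      module
    have b3 := congrArg norm b2
    have b4 : ‖a * a + ((t ^ 2 : ℝ) : ℂ) • (1 : D)‖ ≤ ‖a‖ ^ 2 + t ^ 2 := by
      refine norm_add_le_of_le ((norm_mul_le _ _).trans_eq (pow_two _).symm) ?_
      rw [norm_smul, Complex.norm_real, Real.norm_of_nonneg (sq_nonneg t)]
      exact mul_le_of_le_one_right (sq_nonneg t) (norm_one_le' _)
    rw [CStarRing.norm_star_mul_self] at b3
    rw [map_add, map_smul, h1, smul_eq_mul, mul_one] at b1
    have b5 := (Complex.abs_im_le_norm _).trans b1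
    have b6 := mul_self_le_mul_self (abs_nonneg _) b5
    rw [abs_mul_abs_self, b3] at b6
    simp only [Complex.add_im, Complex.mul_im, Complex.ofReal_re, Complex.I_im, Complex.ofReal_im,
      Complex.I_re, mul_one, mul_zero, add_zero] at b6
    nlinarith [mul_self_nonneg (ω a).im]
  have a2 : (ω a).im = 0 := by
    by_contra h0
    have := a1 ((‖a‖ ^ 2 + 1) / (ω a).im)
    rw [mul_assoc, div_mul_cancel₀ _ h0] at this
    nlinarith [sq_nonneg ‖a‖]
  have a3 : ‖algebraMap ℝ D ‖a‖ - a‖ ≤ ‖a‖ := by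
    have b1 := a0.isSelfAdjoint.le_algebraMap_norm_self
    exact (CStarAlgebra.norm_le_iff_le_algebraMap _ (norm_nonneg _) (sub_nonneg.2 b1)).2
      (sub_le_self _ a0)
  have a4 := (Complex.re_le_norm _).trans ((h _).trans a3)
  rw [map_sub, Algebra.algebraMap_eq_smul_one, ← Complex.coe_smul, map_smul, h1] at a4
  simp only [smul_eq_mul, mul_one, Complex.sub_re, Complex.ofReal_re] at a4
  exact Complex.nonneg_iff.2 ⟨by linarith, a2.symm⟩

lemma exists_state {d : D} (d0 : 0 ≤ d) : ∃ ω : D →ₗ[ℂ] ℂ, IsCP ω ∧ (‖d‖ : ℂ) * ω 1 = ‖d‖ ∧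
    ∀ x, ω (d * x) = ‖d‖ * ω x := by
  rcases eq_or_ne d 0 with rfl | hd
  · exact ⟨0, IsCP.zero, by simp, by simp⟩
  haveI : Nontrivial D := nontrivial_of_ne d 0 hd
  obtain ⟨g, g1, g2⟩ := exists_dual_vector'' ℂ (1 + d)
  have g3 : ∀ x, ‖g x‖ ≤ ‖x‖ := fun x => (g.le_opNorm x).trans
    (mul_le_of_le_one_left (norm_nonneg _) g1)
  have n1 : 1 + ‖d‖ ≤ ‖1 + d‖ := by
    have := norm_apply_le_norm_cfc (fun t : ℝ => 1 + t) d
      (CStarAlgebra.norm_mem_spectrum_of_nonneg d0) (by fun_prop) d0.isSelfAdjoint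
    rw [cfc_add (a := d) (fun _ => 1) (fun t => t), cfc_const_one ℝ d, cfc_id' ℝ d] at this
    exact (le_abs_self _).trans this
  have n2 := congrArg Complex.re g2
  rw [map_add, Complex.add_re] at n2
  have n3 : ((‖1 + d‖ : ℝ) : ℂ).re = ‖1 + d‖ := Complex.ofReal_re _
  have r1 := (Complex.re_le_norm _).trans (g3 1)
  have r2 := (Complex.re_le_norm _).trans (g3 d)
  rw [norm_one] at r1
  have key : ∀ (z : ℂ) (r : ℝ), ‖z‖ ≤ r → r ≤ z.re → z = r := fun z r h1 h2 => by
    have h3 := (Complex.re_le_norm z)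
    have h4 : z.re = ‖z‖ := by linarith
    have h5 := Complex.norm_of_nonneg' (Complex.re_eq_norm.1 h4)
    rw [← h5]; congr 1; linarith
  have e1 : g 1 = 1 := key _ 1 ((g3 1).trans_eq norm_one) (by erw [n3] at n2; linarith)
  have e2 : g d = ‖d‖ := key _ _ (g3 d) (by erw [n3] at n2; linarith)
  have p : IsCP (g : D →ₗ[ℂ] ℂ) := isCP_of_norm g3 e1
  refine ⟨g, p, by rw [show (g : D →ₗ[ℂ] ℂ) 1 = 1 from e1, mul_one], fun x => ?_⟩
  obtain ⟨s, hs⟩ := exists_star_mul (sub_nonneg.2 d0.isSelfAdjoint.le_algebraMap_norm_self)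
  have e3 : ∀ y, (g : D →ₗ[ℂ] ℂ) (y * (algebraMap ℝ D ‖d‖ - d)) = 0 := fun y => by
    have := p.null (a₁ := s) (a₂ := 0) (b₁ := 1) (b₂ := 0) (by
      rw [← hs, map_sub, Algebra.algebraMap_eq_smul_one, ← Complex.coe_smul, map_smul]
      simp [e1, e2]) (y * star s)
    simpa [hs, mul_assoc] using this
  have e4 := congrArg star (e3 (star x))
  rw [← p.map_star, star_mul, star_star, star_sub, d0.star_eq, Algebra.algebraMap_eq_smul_one,
    star_smul, star_one, star_trivial, sub_mul, map_sub, star_zero, sub_eq_zero, smul_mul_assoc,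
    one_mul, ← Complex.coe_smul, map_smul, smul_eq_mul] at e4
  exact e4.symm

variable {F : Type*} [CStarAlgebra F] [PartialOrder F] [StarOrderedRing F]

lemma IsCP.fintype {E : Type*} [NonUnitalCStarAlgebra E] {φ : E →ₗ[ℂ] F} (h : IsCP φ) {κ : Type*}
    [Fintype κ] (a : κ → E) (b : κ → F) : 0 ≤ ∑ i, ∑ j, star (b i) * φ (star (a i) * a j) * b j := by
  let e := (Fintype.equivFin κ).symm
  have := h _ (fun i => a (e i)) fun i => b (e i)
  rwa [← e.sum_comp fun i => ∑ j, star (b i) * φ (star (a i) * a j) * b j,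
    ← Finset.sum_congr rfl fun i _ =>
      e.sum_comp fun j => star (b (e i)) * φ (star (a (e i)) * a j) * b j]

noncomputable def gram (ω : D →ₗ[ℂ] ℂ) {ι : Type*} [Fintype ι] (u : ι → D) (v : ι → F) :
    D →ₗ[ℂ] F :=
  ∑ i, ∑ j, (ω ∘ₗ LinearMap.mulRight ℂ (u j) ∘ₗ LinearMap.mulLeft ℂ (star (u i))).smulRight
    (v i * star (v j))

lemma gram_apply (ω : D →ₗ[ℂ] ℂ) {ι : Type*} [Fintype ι] (u : ι → D) (v : ι → F) (x : D) :
    gram ω u v x = ∑ i, ∑ j, ω (star (u i) * x * u j) • (v i * star (v j)) := by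
  simp [gram]

lemma IsCP.gram {ω : D →ₗ[ℂ] ℂ} (h : IsCP ω) {ι : Type*} [Fintype ι] (u : ι → D) (v : ι → F) :
    IsCP (gram ω u v) := by
  intro n a b
  have h1 : IsCP (lin (StarAlgHom.ofId ℂ F) ∘ₗ ω) :=
    (lin_cp (StarAlgHom.ofId ℂ F)).comp h fun _ => rfl
  have h2 := h1.fintype (fun p : Fin n × ι => a p.1 * u p.2) fun p => star (v p.2) * b p.1
  simp only [Fintype.sum_prod_type, LinearMap.comp_apply, lin_apply, StarAlgHom.ofId_apply,
    Algebra.algebraMap_eq_smul_one, star_mul, star_star, mul_smul_comm, smul_mul_assoc,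
    mul_one] at h2
  simp only [gram_apply, Finset.mul_sum, Finset.sum_mul, mul_smul_comm, smul_mul_assoc]
  convert h2 using 2 with k
  rw [Finset.sum_comm]
  simp only [mul_assoc]

end state

section expect
variable {F : Type*} [CStarAlgebra F] [PartialOrder F] [StarOrderedRing F] (M : MU F)

namespace MU

lemma star_v_mul (i : Fin M.N) (y : F) :
    star (M.v i) * y = ∑ m, M.c i m y • (star (M.v i) * M.v i * star (M.v m)) := by
  conv_lhs => rw [← mul_one y, ← M.sum, Finset.mul_sum, Finset.mul_sum]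
  refine Finset.sum_congr rfl fun m _ => ?_
  rw [← mul_assoc y, ← mul_assoc, ← mul_assoc, M.coef, smul_mul_assoc]

lemma mul_v (m : Fin M.N) (y : F) : y * M.v m = ∑ i, M.c i m y • M.v i := by
  conv_lhs => rw [← one_mul y, ← M.sum, Finset.sum_mul, Finset.sum_mul]
  refine Finset.sum_congr rfl fun i _ => ?_
  rw [mul_assoc (M.v i), mul_assoc (M.v i), M.coef, mul_smul_comm, M.v_q]

noncomputable def diag (f : Fin M.N → ℝ) : F := ∑ i, f i • (M.v i * star (M.v i))

lemma diag_v (f : Fin M.N → ℝ) (i : Fin M.N) : M.diag f * M.v i = f i • M.v i := by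
  rw [diag, Finset.sum_mul, Finset.sum_eq_single i (fun l _ hl => by
    rw [smul_mul_assoc, mul_assoc, M.orth l i hl, mul_zero, smul_zero]) (by simp),
    smul_mul_assoc, mul_assoc, M.v_q]

lemma star_diag (f : Fin M.N → ℝ) : star (M.diag f) = M.diag f := by
  simp [diag, star_sum]

lemma diag_mul (f g : Fin M.N → ℝ) : M.diag f * M.diag g = M.diag fun i => f i * g i := by
  conv_lhs => rw [diag.eq_def M g, Finset.mul_sum]
  refine Finset.sum_congr rfl fun i _ => ?_
  rw [mul_smul_comm, ← mul_assoc, diag_v, smul_mul_assoc, smul_smul, mul_comm]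

lemma diag_one : M.diag (fun _ => 1) = 1 := by simp [diag, M.sum]

lemma diag_mono {f g : Fin M.N → ℝ} (h : ∀ i, f i ≤ g i) : M.diag f ≤ M.diag g :=
  Finset.sum_le_sum fun i _ => smul_le_smul_of_nonneg_right (h i) (mul_star_self_nonneg _)

lemma diag_comm {f : Fin M.N → ℝ} (h : ∀ i k, M.cl i = M.cl k → f i = f k) (y : F) :
    Commute (M.diag f) y := by
  rw [M.recon y]
  refine Commute.sum_right _ _ _ fun i _ => Commute.sum_right _ _ _ fun k _ => ?_
  by_cases hc : M.cl i = M.cl k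
  · refine Commute.smul_right ?_ _
    have := congrArg star (M.diag_v f k)
    rw [star_mul, star_diag, star_smul, star_trivial (f k)] at this
    change _ * _ = _ * _
    rw [← mul_assoc, diag_v, mul_assoc, this, h i k hc, smul_mul_assoc, mul_smul_comm]
  · rw [M.zero i k y hc, zero_smul]
    exact Commute.zero_right _

end MU

variable {D : Type*} [CStarAlgebra D] [PartialOrder D] [StarOrderedRing D]

theorem OZ.exists_expect [FiniteDimensional ℂ F] {ρ : F →ₗ[ℂ] D} (h : OZ ρ) (h1 : ρ 1 ≤ 1) :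
    ∃ (E : D →ₗ[ℂ] F) (L : F), IsCP E ∧ E 1 ≤ 1 ∧ star L = L ∧ ‖L‖ ≤ 1 ∧ (∀ z, Commute L z) ∧
      L * E 1 = L ∧ (∀ y x, E (ρ y * x) = L * y * E x) ∧ ∀ z, ‖ρ z‖ ≤ ‖L * z‖ := by
  classical
  obtain ⟨M⟩ := exists_MU F
  let d := fun i => ρ (star (M.v i) * M.v i)
  have d0 : ∀ i, 0 ≤ d i := fun i => h.cp.nonneg_star_mul _
  have dc : ∀ i k, M.cl i = M.cl k → d i = d k := fun i k hc => congrArg ρ (M.init i k hc)
  have d1 : ∀ i, ‖d i‖ ≤ 1 := fun i => (h.cp.norm_le h1 _).trans (M.proj i).norm_le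
  have d2 : ∀ i, ‖ρ (M.v i * star (M.v i))‖ = ‖d i‖ := fun i => by
    have := h.norm_init (v := star (M.v i)) (by rw [star_star]; exact range_proj (M.proj i))
    rw [star_star, h.cp.map_star, norm_star] at this
    rw [this, h.norm_init (M.proj i)]
  choose Ω Ω1 Ω2 using fun κ : Fin M.N => show ∃ ω : D →ₗ[ℂ] ℂ, IsCP ω ∧ ∀ i, M.cl i = κ →
      (‖d i‖ : ℂ) * ω 1 = ‖d i‖ ∧ ∀ x, ω (d i * x) = ‖d i‖ * ω x by
    by_cases hκ : ∃ i, M.cl i = κ
    · obtain ⟨i, rfl⟩ := hκ
      obtain ⟨ω, a1, a2⟩ := exists_state (d0 i)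
      exact ⟨ω, a1, fun k hk => dc k i hk ▸ a2⟩
    · exact ⟨0, IsCP.zero, fun i hi => (hκ ⟨i, hi⟩).elim⟩
  let U : Fin M.N → Fin M.N → D := fun κ i => if M.cl i = κ then ‖d i‖⁻¹ • ρ (M.v i) else 0
  let E : D →ₗ[ℂ] F := ∑ κ, gram (Ω κ) (U κ) M.v
  let e := fun i k x => Ω (M.cl i) (star (U (M.cl i) i) * x * U (M.cl i) k)
  have e0 : ∀ x, E x = ∑ i, ∑ k, e i k x • (M.v i * star (M.v k)) := fun x => by
    simp only [E, LinearMap.sum_apply, gram_apply]
    rw [Finset.sum_comm]
    refine Finset.sum_congr rfl fun i _ => Finset.sum_eq_single _ (fun κ _ hκ => ?_) (by simp)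
    simp [U, hκ.symm]
  have e1 : ∀ i k y x, e i k (ρ y * x) = ‖d i‖ * ∑ m, M.c i m y * e m k x := fun i k y x => by
    have a1 : star (U (M.cl i) i) * ρ y = ∑ m, M.c i m y • (d i * star (U (M.cl i) m)) := by
      simp only [U, if_true, star_smul, star_trivial, smul_mul_assoc, ← h.cp.map_star]
      rw [h.mul, M.star_v_mul, map_sum, Finset.mul_sum, Finset.smul_sum]
      refine Finset.sum_congr rfl fun m _ => ?_
      split_ifs with hc
      · rw [map_smul, mul_smul_comm, ← h.mul, star_smul, star_trivial ‖d m‖⁻¹,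
          ← h.cp.map_star, mul_smul_comm, dc m i hc, smul_comm]
      · simp [M.zero i m y (Ne.symm hc)]
    simp only [e]
    rw [← mul_assoc, a1, Finset.sum_mul, Finset.sum_mul, map_sum, Finset.mul_sum]
    refine Finset.sum_congr rfl fun m _ => ?_
    by_cases hc : M.cl i = M.cl m
    · rw [smul_mul_assoc, smul_mul_assoc, map_smul, mul_assoc, mul_assoc, (Ω2 _ i rfl).2, hc,
        smul_eq_mul, mul_left_comm, mul_assoc]
    · simp [M.zero i m y hc]
  have e2 : E 1 = M.diag fun i => ‖d i‖⁻¹ * ‖d i‖ := by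
    rw [e0]
    refine Finset.sum_congr rfl fun i _ => ?_
    rw [Finset.sum_eq_single i (fun k _ hk => ?_) (by simp), ← Complex.coe_smul]
    · congr 1
      have a1 : star (ρ (M.v i)) * ρ (M.v i) = d i * (d i * 1) := by
        rw [mul_one, h.star_mul_self, h.mul (star _ * _), (M.proj i).isIdempotentElem.eq]
      simp only [e, U, if_true, mul_one, star_smul, star_trivial, smul_mul_smul_comm]
      rw [a1, ← Complex.coe_smul, map_smul, (Ω2 _ i rfl).2, (Ω2 _ i rfl).2, (Ω2 _ i rfl).1]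
      rcases eq_or_ne ‖d i‖ 0 with h0 | h0
      · simp [h0]
      · have : (‖d i‖ : ℂ) ≠ 0 := by exact_mod_cast h0
        rw [smul_eq_mul]
        push_cast
        field_simp
    · simp only [e, U, if_true, mul_one]
      split_ifs
      · rw [star_smul, smul_mul_smul_comm, ← h.cp.map_star, h.mul_eq_zero (M.orth i k hk.symm)]
        simp
      · simp
  have c1 := M.diag_comm (f := fun i => ‖d i‖) fun i k hc => by rw [dc i k hc]
  have l1 : ∀ i, ‖d i‖⁻¹ * ‖d i‖ ≤ 1 := fun i => inv_mul_le_one_of_le₀ le_rfl (norm_nonneg _)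
  have l2 : ∀ i, ‖d i‖ * (‖d i‖⁻¹ * ‖d i‖) = ‖d i‖ := fun i => by
    rw [← mul_assoc, mul_inv_mul_cancel]
  refine ⟨E, M.diag fun i => ‖d i‖, IsCP.sum _ _ fun κ _ => (Ω1 κ).gram _ _,
    e2 ▸ (M.diag_mono l1).trans_eq M.diag_one, M.star_diag _, norm_le_one_of
      (Finset.sum_nonneg fun i _ => smul_nonneg (norm_nonneg _) (mul_star_self_nonneg _))
      ((M.diag_mono d1).trans_eq M.diag_one), c1, by rw [e2, M.diag_mul]; simp only [l2],
    fun y x => ?_, fun z => ?_⟩
  · rw [e0, e0]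
    simp only [e1, Finset.mul_sum, mul_smul_comm, ← mul_assoc, mul_assoc _ y, M.mul_v _ y, M.diag_v,
      Finset.sum_mul, Finset.sum_smul, Finset.smul_sum, smul_mul_assoc]
    conv_rhs => rw [Finset.sum_comm]; enter [2, k]; rw [Finset.sum_comm]
    rw [Finset.sum_comm]
    refine Finset.sum_congr rfl fun k _ => Finset.sum_congr rfl fun i _ =>
      Finset.sum_congr rfl fun m _ => ?_
    rw [← Complex.coe_smul, smul_smul, smul_smul]
    congr 1
    ring
  · have c2 := M.diag_comm (f := fun i => √‖d i‖⁻¹) fun i k hc => by rw [dc i k hc]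
    have c3 := M.diag_comm (f := fun i => ‖d i‖⁻¹ * ‖d i‖) fun i k hc => by rw [dc i k hc]
    have p1 : IsCP (ρ ∘ₗ LinearMap.mulLeft ℂ (M.diag fun i => ‖d i‖⁻¹)) :=
      h.cp.comp_half (M.diag (fun i => √‖d i‖⁻¹) * ·) fun a a' => by
        rw [star_mul, M.star_diag, ← (c2 _).eq, mul_assoc, ← mul_assoc (star a), ← (c2 _).eq,
          ← mul_assoc, ← mul_assoc, M.diag_mul, mul_assoc]
        simp only [Real.mul_self_sqrt (inv_nonneg.2 (norm_nonneg _))]
        rfl
    have p2 := p1.norm_le (le_one_of_norm p1.one_nonneg (by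
      simp only [LinearMap.comp_apply, LinearMap.mulLeft_apply, mul_one, MU.diag, map_sum,
        ← Complex.coe_smul, map_smul]
      simp only [Complex.coe_smul]
      refine sum_le_of_orth _ _ zero_le_one (fun i _ => smul_nonneg (by positivity)
        (h.cp.nonneg (mul_star_self_nonneg _))) (fun i _ k _ hik => ?_) fun i _ => ?_
      · rw [smul_mul_smul_comm, h.mul_eq_zero, smul_zero]
        rw [mul_assoc, ← mul_assoc (star _), M.orth i k hik, zero_mul, mul_zero]
      · rw [norm_smul, d2, Real.norm_of_nonneg (by positivity)]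
        exact l1 i)) (M.diag (fun i => ‖d i‖) * z)
    rw [LinearMap.comp_apply, LinearMap.mulLeft_apply, ← mul_assoc, M.diag_mul, (c3 z).eq] at p2
    refine le_trans (le_of_eq (congrArg _ ?_)) p2
    conv_lhs => rw [← mul_one z, ← M.sum]
    simp only [MU.diag, Finset.mul_sum, map_sum, mul_smul_comm, ← Complex.coe_smul, map_smul]
    refine Finset.sum_congr rfl fun i _ => ?_
    rcases eq_or_ne ‖d i‖ 0 with h0 | h0
    · have := h.cp.null (a₁ := star (M.v i)) (a₂ := 0) (b₁ := 1) (b₂ := 0) (by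
        simpa using norm_eq_zero.1 ((d2 i).trans h0)) (z * M.v i)
      simpa [h0, mul_assoc] using this
    · rw [inv_mul_cancel₀ h0]; simp

end expect

end Pool.Agent.Lib.MP_30b5b4_an
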