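import Pool.Agent.Lib.MP_30b5b4_an.S.Q2
import Pool.Agent.Lib.MP_30b5b4_an.S3

/-! Simple ideals are good, given slots. -/

open scoped CStarAlgebra ComplexOrder Topology
open Filter

set_option linter.unusedSectionVars false
set_option linter.style.haveILetI false
set_option linter.unusedVariables false
set_option linter.unusedSimpArgs false

namespace Pool.Agent.Lib.MP_30b5b4_an

universe u v

/-- Slots exist in simple ideals without minimal projections. -/
def SlotSt : Prop :=
  ∀ (J : Type v) (A : Type u) [NonUnitalCStarAlgebra J] [PartialOrder J] [StarOrderedRing J]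
    [CStarAlgebra A] [PartialOrder A] [StarOrderedRing A] (j : J →⋆ₙₐ[ℂ] A) (N : ℕ), Idl j → Smp j →
    Hv j → Ap j (N + 1) False → ApA A (N + 1) → ∀ e ∈ Iw j, 0 ≤ e → e ≤ 1 → Slots e

theorem smpSt_of (h : SlotSt.{u, v}) : SmpSt.{u, v} := by
  intro J A _ _ _ _ _ _ j hj hs
  refine hs.good_of hj fun hv A' _ _ _ π hπ hk m N hN hI hA hD => ?_
  refine hj.partS hs π hk hπ hA ?_ hN hD
  rintro _ ⟨b, rfl⟩ a0 a1
  exact h J A j m hj hs hv hI hA _ (dg_mem_Iw b) (hom_nonneg dg a0) (by simpa using hom_mono dg a1)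

end Pool.Agent.Lib.MP_30b5b4_an
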